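import Mathlib

/-!
# Equilateral triangles in 2-colourings of the plane: basic definitions (MP_3852e9_co)

We work in the complex plane. `AvTri f a b c` says that the colouring `f` has no monochromatic
triangle with side lengths `a`, `b`, `c`.
-/

set_option autoImplicit false

namespace Pool.Agent.Lib.P3852e9

/-- The colouring `f` of the complex plane has no monochromatic triangle `x, y, z` with
`|x - y| = a`, `|y - z| = b`, `|x - z| = c`. -/
def AvTri (f : ℂ → Bool) (a b c : ℝ) : Prop :=
  ∀ x y z : ℂ, dist x y = a → dist y z = b → dist x z = c → ¬ (f x = f y ∧ f y = f z)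

/-- The set `U` contains no triangle `x, y, z` with
`|x - y| = a`, `|y - z| = b`, `|x - z| = c`. -/
def SetAv (U : Set ℂ) (a b c : ℝ) : Prop :=
  ∀ x y z : ℂ, dist x y = a → dist y z = b → dist x z = c → ¬ (x ∈ U ∧ y ∈ U ∧ z ∈ U)

/-- The Bessel function `J₀`, as an integral. -/
noncomputable def J0 (x : ℝ) : ℝ :=
  (1 / Real.pi) * ∫ t in (0 : ℝ)..Real.pi, Real.cos (x * Real.sin t)

/-- The Bessel function `J₁`, as an integral. -/
noncomputable def J1 (x : ℝ) : ℝ :=
  (1 / Real.pi) * ∫ t in (0 : ℝ)..Real.pi, Real.sin t * Real.sin (x * Real.sin t)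

/-- The second derivative of `J₀` is minus this function. -/
noncomputable def J2 (x : ℝ) : ℝ :=
  (1 / Real.pi) * ∫ t in (0 : ℝ)..Real.pi, Real.sin t ^ 2 * Real.cos (x * Real.sin t)

end Pool.Agent.Lib.P3852e9
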