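import Mathlib
import Pool.Agent.Lib.P3852e9.Defs

set_option autoImplicit false

namespace Pool.Agent.Lib.P3852e9

open Set Topology

/-- A set with the property of Baire agrees, off a meagre set, with a regular open set. -/
theorem exists_model (f : ℂ → Bool) (hf : BaireMeasurableSet {z | f z = true}) :
    ∃ U V : Set ℂ, IsOpen U ∧ IsOpen V ∧ Disjoint U V ∧
      (U ∪ V)ᶜ ⊆ closure U ∩ closure V ∧
      ∃ G ∈ residual ℂ, ∀ z ∈ G, (z ∈ U → f z = true) ∧ (z ∈ V → f z = false) := by
  obtain ⟨O, hO, hfO⟩ := hf.residualEq_isOpen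
  have hfr : (frontier O)ᶜ ∈ residual ℂ := by
    apply residual_of_dense_open isClosed_frontier.isOpen_compl
    rw [← interior_eq_empty_iff_dense_compl]
    rw [← frontier_compl]
    exact interior_frontier hO.isClosed_compl
  refine ⟨interior (closure O), (closure O)ᶜ, isOpen_interior, isClosed_closure.isOpen_compl,
    ?_, ?_, {z | f z = true ↔ z ∈ O} ∩ (frontier O)ᶜ, ?_, ?_⟩
  · exact disjoint_compl_right.mono_left interior_subset
  · intro z hz
    rw [mem_compl_iff, mem_union, not_or] at hz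
    obtain ⟨h1, h2⟩ := hz
    rw [mem_compl_iff, not_not] at h2
    refine ⟨closure_mono (interior_maximal subset_closure hO) h2, ?_⟩
    rw [closure_compl]
    exact h1
  · refine Filter.inter_mem ?_ hfr
    filter_upwards [hfO] with z hz
    exact iff_of_eq hz
  · rintro z ⟨hz1, hz2⟩
    refine ⟨fun hz => hz1.2 ?_, fun hz => ?_⟩
    · by_contra hcon
      apply hz2
      rw [frontier, hO.interior_eq]
      exact ⟨interior_subset hz, hcon⟩
    · by_contra hcon
      rw [Bool.not_eq_false] at hcon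
      exact hz (subset_closure (hz1.1 hcon))

/-- Small translates of a triangle in an open set. -/
theorem setAv_of_avTri {f : ℂ → Bool} {U G : Set ℂ} {col : Bool} (hU : IsOpen U)
    (hG : G ∈ residual ℂ) (h : ∀ z ∈ G, z ∈ U → f z = col) {a b c : ℝ} (hav : AvTri f a b c) :
    SetAv U a b c := by
  rintro x y z hxy hyz hxz ⟨hx, hy, hz⟩
  have key : ∀ p : ℂ, {w : ℂ | p + w ∈ G} ∈ residual ℂ := by
    intro p
    have := (tendsto_residual_of_isOpenMap (continuous_add_left p)
      (isOpenMap_add_left p)) hG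
    exact this
  have hN : ∀ p ∈ U, {w : ℂ | p + w ∈ U} ∈ 𝓝 (0 : ℂ) := by
    intro p hp
    apply (continuous_add_left p).continuousAt.preimage_mem_nhds
    simpa using hU.mem_nhds hp
  have hres := Filter.inter_mem (Filter.inter_mem (key x) (key y)) (key z)
  have hdense := dense_of_mem_residual hres
  have hnb := Filter.inter_mem (Filter.inter_mem (hN x hx) (hN y hy)) (hN z hz)
  obtain ⟨w, ⟨⟨hw1, hw2⟩, hw3⟩, ⟨⟨hw4, hw5⟩, hw6⟩⟩ := mem_closure_iff_nhds.1 (hdense 0) _ hnb
  have e1 := h _ hw4 hw1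
  have e2 := h _ hw5 hw2
  have e3 := h _ hw6 hw3
  exact hav (x + w) (y + w) (z + w) (by rw [dist_add_right]; exact hxy)
    (by rw [dist_add_right]; exact hyz) (by rw [dist_add_right]; exact hxz)
    ⟨e1.trans e2.symm, e2.trans e3.symm⟩

/-- At a point of the closure of `U`, move `z` into `U` by a small translation. -/
theorem not_both {U : Set ℂ} (hU : IsOpen U) {z : ℂ} (hz : z ∈ closure U) {a b c : ℝ}
    (hav : SetAv U a b c) {x y : ℂ} (hxy : dist x y = b) (hzx : dist z x = a)
    (hzy : dist z y = c) : ¬ (x ∈ U ∧ y ∈ U) := by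
  rintro ⟨hx, hy⟩
  have hN : ∀ p ∈ U, {w : ℂ | p + (w - z) ∈ U} ∈ 𝓝 z := by
    intro p hp
    apply (by fun_prop : Continuous fun w : ℂ => p + (w - z)).continuousAt.preimage_mem_nhds
    simpa using hU.mem_nhds hp
  obtain ⟨w, ⟨hw1, hw2⟩, hw3⟩ := mem_closure_iff_nhds.1 hz _
    (Filter.inter_mem (hN x hx) (hN y hy))
  refine hav w (x + (w - z)) (y + (w - z)) ?_ ?_ ?_ ⟨hw3, hw1, hw2⟩
  · have : dist (z + (w - z)) (x + (w - z)) = a := by rw [dist_add_right]; exact hzx
    simpa using this
  · rw [dist_add_right]; exact hxy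
  · have : dist (z + (w - z)) (y + (w - z)) = c := by rw [dist_add_right]; exact hzy
    simpa using this

end Pool.Agent.Lib.P3852e9
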