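import Mathlib
import Pool.Agent.Lib.P3852e9.Defs
import Pool.Agent.Lib.P3852e9.Model

/-!
# Configurations: two disjoint open sets avoiding unit triangles and `(1, r, r)` triangles
-/

set_option autoImplicit false

namespace Pool.Agent.Lib.P3852e9

open Set Topology

/-- The open sets `U`, `V` are disjoint, every point outside them is in the closure of both, and
neither of them contains a unit triangle or a `(1, r, r)` triangle, `r > 1`. -/
structure Conf (U V : Set ℂ) (r : ℝ) : Prop where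
  hU : IsOpen U
  hV : IsOpen V
  disj : Disjoint U V
  bd : (U ∪ V)ᶜ ⊆ closure U ∩ closure V
  hr : 1 < r
  U1 : SetAv U 1 1 1
  Ur : SetAv U 1 r r
  V1 : SetAv V 1 1 1
  Vr : SetAv V 1 r r

/-- the point of angle `t` on the unit circle -/
noncomputable def cis (t : ℝ) : ℂ := Complex.exp (t * Complex.I)

/-- Good points of the boundary: both circles meet `U ∪ V` in dense sets. -/
def Good (U V : Set ℂ) (r : ℝ) (x : ℂ) : Prop :=
  x ∈ (U ∪ V)ᶜ ∧ Dense {t : ℝ | x + cis t ∈ U ∪ V} ∧ Dense {t : ℝ | x + r * cis t ∈ U ∪ V}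

/-- Strong crossing: `x` is in the boundary and the point of angle `t` on the unit circle about `x`
is a limit of points of this circle in `U` and of points of this circle in `V`. -/
def SC (U V : Set ℂ) (x : ℂ) (t : ℝ) : Prop :=
  x ∈ (U ∪ V)ᶜ ∧ t ∈ closure {s : ℝ | x + cis s ∈ U} ∧ t ∈ closure {s : ℝ | x + cis s ∈ V}

/-- The closure of the set of strong crossings `(x, y)` at good points `x`. -/
def E (U V : Set ℂ) (r : ℝ) : Set (ℂ × ℂ) :=
  closure {p | ∃ t : ℝ, Good U V r p.1 ∧ SC U V p.1 t ∧ p.2 = p.1 + cis t}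

section cis

lemma cis_add (s t : ℝ) : cis (s + t) = cis s * cis t := by
  unfold cis
  rw [Complex.ofReal_add, add_mul, Complex.exp_add]

lemma cis_zero : cis 0 = 1 := by simp [cis]

lemma norm_cis (t : ℝ) : ‖cis t‖ = 1 := Complex.norm_exp_ofReal_mul_I t

lemma cis_ne_zero (t : ℝ) : cis t ≠ 0 := Complex.exp_ne_zero _

lemma cis_pi : cis Real.pi = -1 := Complex.exp_pi_mul_I

lemma cis_add_pi (t : ℝ) : cis (t + Real.pi) = -cis t := by rw [cis_add, cis_pi]; ring

lemma cis_sub_pi (t : ℝ) : cis (t - Real.pi) = -cis t := by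
  have := cis_add_pi (t - Real.pi)
  rw [sub_add_cancel] at this
  rw [this, neg_neg]

lemma cis_two_pi : cis (2 * Real.pi) = 1 := by
  unfold cis
  rw [Complex.ofReal_mul]
  exact_mod_cast Complex.exp_two_pi_mul_I

lemma cis_neg (t : ℝ) : cis (-t) = (cis t)⁻¹ := by
  unfold cis
  rw [← Complex.exp_neg]
  push_cast
  ring_nf

lemma continuous_cis : Continuous cis := by
  unfold cis
  fun_prop

lemma cis_re (t : ℝ) : (cis t).re = Real.cos t := Complex.exp_ofReal_mul_I_re t

lemma cis_im (t : ℝ) : (cis t).im = Real.sin t := Complex.exp_ofReal_mul_I_im t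

lemma exists_cis {z : ℂ} (hz : ‖z‖ = 1) : ∃ t : ℝ, z = cis t :=
  ⟨Complex.arg z, by
    have := Complex.norm_mul_exp_arg_mul_I z
    rw [hz, Complex.ofReal_one, one_mul] at this
    exact this.symm⟩

lemma cis_add_cis (χ τ : ℝ) : cis (χ - τ) + cis (χ + τ) = (2 * Real.cos τ : ℝ) * cis χ := by
  rw [sub_eq_add_neg, cis_add, cis_add]
  have h : cis (-τ) + cis τ = (2 * Real.cos τ : ℝ) := by
    apply Complex.ext
    · rw [Complex.add_re, cis_re, cis_re, Real.cos_neg, Complex.ofReal_re]; ring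
    · rw [Complex.add_im, cis_im, cis_im, Real.sin_neg, Complex.ofReal_im]; ring
  linear_combination (cis χ) * h

lemma dist_cis_le (s t : ℝ) : ‖cis s - cis t‖ ≤ |s - t| := by
  have h : cis s - cis t = cis t * (Complex.exp (Complex.I * ((s - t : ℝ) : ℂ)) - 1) := by
    unfold cis
    rw [mul_sub, ← Complex.exp_add, mul_one]
    congr 2
    push_cast
    ring
  rw [h, norm_mul, norm_cis, one_mul, ← Real.norm_eq_abs]
  exact Real.norm_exp_I_mul_ofReal_sub_one_le

/-- two points at distance `1` from each other on the unit circle -/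
lemma dist_cis_pi_div_three (z : ℂ) (t : ℝ) :
    dist (z + cis t) (z + cis (t + Real.pi / 3)) = 1 := by
  rw [dist_add_left, dist_eq_norm]
  have h1 : cis t - cis (t + Real.pi / 3) = cis t * (1 - cis (Real.pi / 3)) := by
    rw [cis_add]; ring
  rw [h1, norm_mul, norm_cis, one_mul]
  have h2 : ‖1 - cis (Real.pi / 3)‖ ^ 2 = 1 := by
    rw [← Complex.normSq_eq_norm_sq, Complex.normSq_apply]
    simp only [Complex.sub_re, Complex.sub_im, Complex.one_re, Complex.one_im, cis_re, cis_im,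
      Real.cos_pi_div_three, Real.sin_pi_div_three]
    nlinarith [Real.mul_self_sqrt (show (0 : ℝ) ≤ 3 by norm_num)]
  nlinarith [norm_nonneg (1 - cis (Real.pi / 3))]

/-- a point of the unit circle and a point of the circle of radius `r` at distance `r` -/
lemma dist_cis_rr (z : ℂ) {r : ℝ} (hr : 0 ≤ r) {s t : ℝ} (h : 2 * r * Real.cos (s - t) = 1) :
    dist (z + cis s) (z + r * cis t) = r := by
  rw [dist_add_left, dist_eq_norm]
  have h2 : ‖cis s - r * cis t‖ ^ 2 = r ^ 2 := by
    rw [← Complex.normSq_eq_norm_sq, Complex.normSq_apply]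
    simp only [Complex.sub_re, Complex.sub_im, Complex.mul_re, Complex.mul_im, cis_re, cis_im,
      Complex.ofReal_re, Complex.ofReal_im]
    rw [Real.cos_sub] at h
    nlinarith [Real.sin_sq_add_cos_sq s, Real.sin_sq_add_cos_sq t]
  exact (pow_left_inj₀ (norm_nonneg _) hr two_ne_zero).1 h2

lemma dist_self_cis (z : ℂ) (t : ℝ) : dist z (z + cis t) = 1 := by
  rw [dist_self_add_right, norm_cis]

lemma dist_self_r_cis (z : ℂ) {r : ℝ} (hr : 0 ≤ r) (t : ℝ) : dist z (z + r * cis t) = r := by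
  rw [dist_self_add_right, norm_mul, norm_cis, mul_one, Complex.norm_real,
    Real.norm_of_nonneg hr]

/-- a unit vector close to `cis ψ` has an angle close to `ψ` -/
lemma exists_cis_near {e : ℂ} (he : ‖e‖ = 1) (ψ : ℝ) :
    ∃ θ : ℝ, e = cis θ ∧ |θ - ψ| ≤ 2 * ‖e - cis ψ‖ := by
  obtain ⟨z, hz⟩ : ∃ z, z = e * cis (-ψ) := ⟨_, rfl⟩
  have hz1 : ‖z‖ = 1 := by rw [hz, norm_mul, he, norm_cis, one_mul]
  have hzc : z = cis z.arg := by
    have := Complex.norm_mul_exp_arg_mul_I z
    rw [hz1, Complex.ofReal_one, one_mul] at this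
    exact this.symm
  have hez : e = z * cis ψ := by
    rw [hz, cis_neg, mul_assoc, inv_mul_cancel₀ (cis_ne_zero _), mul_one]
  refine ⟨z.arg + ψ, ?_, ?_⟩
  · rw [cis_add, ← hzc, ← hez]
  · have h1 : ‖e - cis ψ‖ = ‖z - 1‖ := by
      have : e - cis ψ = (z - 1) * cis ψ := by rw [hez]; ring
      rw [this, norm_mul, norm_cis, mul_one]
    rw [h1, add_sub_cancel_right]
    have h2 : ‖z - 1‖ ^ 2 = (2 * Real.sin (|z.arg| / 2)) ^ 2 := by
      rw [← Complex.normSq_eq_norm_sq, Complex.normSq_apply]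
      have h3 : Real.cos z.arg = 1 - 2 * Real.sin (|z.arg| / 2) ^ 2 := by
        have h30 := Real.cos_two_mul (|z.arg| / 2)
        rw [show 2 * (|z.arg| / 2) = |z.arg| by ring, Real.cos_abs] at h30
        rw [h30]
        linarith [Real.sin_sq_add_cos_sq (|z.arg| / 2)]
      have h4 := Real.sin_sq_add_cos_sq z.arg
      rw [Complex.sub_re, Complex.sub_im, Complex.one_re, Complex.one_im]
      have h5 : z.re = Real.cos z.arg := by rw [← cis_re, ← hzc]
      have h6 : z.im = Real.sin z.arg := by rw [← cis_im, ← hzc]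
      rw [h5, h6]
      nlinarith
    have h7 := Complex.abs_arg_le_pi z
    have hp := Real.pi_pos
    have h8 : 2 / Real.pi * (|z.arg| / 2) ≤ Real.sin (|z.arg| / 2) :=
      Real.mul_le_sin (by positivity) (by linarith)
    have h9 : 0 ≤ Real.sin (|z.arg| / 2) :=
      Real.sin_nonneg_of_nonneg_of_le_pi (by positivity) (by linarith)
    have h10 : ‖z - 1‖ = 2 * Real.sin (|z.arg| / 2) :=
      (pow_left_inj₀ (norm_nonneg _) (by positivity) two_ne_zero).1 h2
    rw [h10]
    have h11 : |z.arg| / 4 ≤ 2 / Real.pi * (|z.arg| / 2) := by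
      have h12 : 1 / 4 ≤ 1 / Real.pi := by
        apply one_div_le_one_div_of_le hp Real.pi_le_four
      have h13 : 2 / Real.pi * (|z.arg| / 2) = 1 / Real.pi * |z.arg| := by ring
      rw [h13]
      nlinarith [abs_nonneg z.arg]
    linarith

end cis

section conf

variable {U V : Set ℂ} {r : ℝ}

lemma Conf.symm (h : Conf U V r) : Conf V U r :=
  ⟨h.hV, h.hU, h.disj.symm, by rw [Set.union_comm, Set.inter_comm]; exact h.bd, h.hr, h.V1, h.Vr,
    h.U1, h.Ur⟩

lemma Conf.isClosed (h : Conf U V r) : IsClosed (U ∪ V)ᶜ := (h.hU.union h.hV).isClosed_compl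

/-- every nonempty open set meets `U ∪ V` -/
lemma Conf.meets (h : Conf U V r) {O : Set ℂ} (hO : IsOpen O) (hne : O.Nonempty) :
    (O ∩ (U ∪ V)).Nonempty := by
  obtain ⟨z, hz⟩ := hne
  by_cases hzB : z ∈ U ∪ V
  · exact ⟨z, hz, hzB⟩
  · obtain ⟨w, hw, hwU⟩ := mem_closure_iff.1 (h.bd hzB).1 O hO hz
    exact ⟨w, hw, Or.inl hwU⟩

/-- at a boundary point `p`, two points of a unit triangle with vertex `p` are not both in `U` -/
lemma Conf.not_both_U (h : Conf U V r) {p a b : ℂ} (hp : p ∈ (U ∪ V)ᶜ) (ha : dist p a = 1)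
    (hb : dist p b = 1) (hab : dist a b = 1) : ¬ (a ∈ U ∧ b ∈ U) :=
  not_both h.hU (h.bd hp).1 h.U1 hab ha hb

/-- at a boundary point `p`, two points of a unit triangle with vertex `p` are not both in `V` -/
lemma Conf.not_both_V (h : Conf U V r) {p a b : ℂ} (hp : p ∈ (U ∪ V)ᶜ) (ha : dist p a = 1)
    (hb : dist p b = 1) (hab : dist a b = 1) : ¬ (a ∈ V ∧ b ∈ V) :=
  not_both h.hV (h.bd hp).2 h.V1 hab ha hb

/-- at a boundary point `p`, the points `a`, `b` of a triangle `p, a, b` with `|p a| = 1`,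
`|p b| = |a b| = r` are not both in `U` -/
lemma Conf.not_both_U' (h : Conf U V r) {p a b : ℂ} (hp : p ∈ (U ∪ V)ᶜ) (ha : dist p a = 1)
    (hb : dist p b = r) (hab : dist a b = r) : ¬ (a ∈ U ∧ b ∈ U) :=
  not_both h.hU (h.bd hp).1 h.Ur hab ha hb

/-- the same for `V` -/
lemma Conf.not_both_V' (h : Conf U V r) {p a b : ℂ} (hp : p ∈ (U ∪ V)ᶜ) (ha : dist p a = 1)
    (hb : dist p b = r) (hab : dist a b = r) : ¬ (a ∈ V ∧ b ∈ V) :=
  not_both h.hV (h.bd hp).2 h.Vr hab ha hb

end conf

end Pool.Agent.Lib.P3852e9
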