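import Mathlib
import Pool.Agent.Lib.P3852e9.Defs

/-!
# The averaging argument
-/

set_option autoImplicit false

namespace Pool.Agent.Lib.P3852e9

open MeasureTheory Complex

/-- The colouring as a `±1`-valued function, cut off at radius `R`. -/
noncomputable def cut (f : ℂ → Bool) (R : ℝ) (z : ℂ) : ℝ :=
  if ‖z‖ < R then (if f z = true then 1 else -1) else 0

theorem cut_eq_indicator (f : ℂ → Bool) (R : ℝ) :
    cut f R = (Metric.ball (0 : ℂ) R).indicator
      (fun z => ({z | f z = true}).indicator (fun _ => (2 : ℝ)) z - 1) := by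
  funext z
  by_cases h : ‖z‖ < R
  · have hz : z ∈ Metric.ball (0 : ℂ) R := by simpa using h
    rw [Set.indicator_of_mem hz]
    by_cases h2 : f z = true
    · have : z ∈ {z | f z = true} := h2
      rw [Set.indicator_of_mem this]
      simp [cut, h, h2]
      norm_num
    · have : z ∉ {z | f z = true} := h2
      rw [Set.indicator_of_notMem this]
      simp [cut, h, h2]
  · have hz : z ∉ Metric.ball (0 : ℂ) R := by simpa using h
    rw [Set.indicator_of_notMem hz]
    simp [cut, h]

theorem cut_abs_le (f : ℂ → Bool) (R : ℝ) (z : ℂ) : |cut f R z| ≤ 1 := by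
  unfold cut
  split_ifs <;> simp

theorem cut_memLp (f : ℂ → Bool) (hf : NullMeasurableSet {z | f z = true} volume) (R : ℝ) :
    MemLp (cut f R) 2 volume := by
  rw [cut_eq_indicator, memLp_indicator_iff_restrict Metric.isOpen_ball.measurableSet]
  have : IsFiniteMeasure (volume.restrict (Metric.ball (0 : ℂ) R)) := by
    constructor
    rw [Measure.restrict_apply_univ]
    exact measure_ball_lt_top
  refine MemLp.of_bound ?_ 1 (ae_of_all _ fun z => ?_)
  · refine AEStronglyMeasurable.sub ?_ aestronglyMeasurable_const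
    exact (aestronglyMeasurable_const.indicator₀ hf).restrict
  · by_cases h2 : z ∈ {z | f z = true}
    · rw [Set.indicator_of_mem h2]
      norm_num
    · rw [Set.indicator_of_notMem h2]
      norm_num

theorem integral_ball_indicator {R : ℝ} (hR : 0 ≤ R) (c : ℝ) :
    ∫ z : ℂ, (Metric.ball (0 : ℂ) R).indicator (fun _ => c) z = Real.pi * R ^ 2 * c := by
  rw [integral_indicator Metric.isOpen_ball.measurableSet, setIntegral_const]
  simp only [Measure.real, Complex.volume_ball, smul_eq_mul]
  rw [ENNReal.toReal_mul, ENNReal.toReal_pow, ENNReal.toReal_ofReal hR]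
  simp only [ENNReal.coe_toReal, NNReal.coe_real_pi]
  ring

theorem integrable_ball_indicator (R : ℝ) (c : ℝ) :
    Integrable (fun z : ℂ => (Metric.ball (0 : ℂ) R).indicator (fun _ => c) z) := by
  rw [integrable_indicator_iff Metric.isOpen_ball.measurableSet]
  exact integrableOn_const measure_ball_lt_top.ne

theorem cut_sq (f : ℂ → Bool) {R : ℝ} (hR : 0 ≤ R) :
    ∫ z, cut f R z * cut f R z = Real.pi * R ^ 2 := by
  have h : (fun z => cut f R z * cut f R z) =
      fun z => (Metric.ball (0 : ℂ) R).indicator (fun _ => (1 : ℝ)) z := by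
    funext z
    by_cases h : ‖z‖ < R
    · have hz : z ∈ Metric.ball (0 : ℂ) R := by simpa using h
      rw [Set.indicator_of_mem hz]
      by_cases h2 : f z = true <;> simp [cut, h, h2]
    · have hz : z ∉ Metric.ball (0 : ℂ) R := by simpa using h
      rw [Set.indicator_of_notMem hz]
      simp [cut, h]
  rw [h, integral_ball_indicator hR]
  ring

theorem cut_shift_memLp (f : ℂ → Bool) (hf : NullMeasurableSet {z | f z = true} volume) (R : ℝ)
    (a : ℂ) : MemLp (fun z => cut f R (z + a)) 2 volume :=
  (cut_memLp f hf R).comp_measurePreserving (measurePreserving_add_right volume a)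

theorem cut_mul_integrable (f : ℂ → Bool) (hf : NullMeasurableSet {z | f z = true} volume) (R : ℝ)
    (a b : ℂ) : Integrable (fun z => cut f R (z + a) * cut f R (z + b)) :=
  (cut_shift_memLp f hf R a).integrable_mul (cut_shift_memLp f hf R b)

/-- pointwise bound -/
theorem tri_pointwise (f : ℂ → Bool) {ρ R : ℝ} (hav : AvTri f ρ ρ ρ) (a b : ℂ)
    (ha : ‖a‖ = ρ) (hb : ‖b‖ = ρ) (hab : ‖b - a‖ = ρ) (z : ℂ) :
    cut f R (z + 0) * cut f R (z + a) + cut f R (z + 0) * cut f R (z + b)
      + cut f R (z + a) * cut f R (z + b) ≤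
    (Metric.ball (0 : ℂ) (R + ρ)).indicator (fun _ => (3 : ℝ)) z +
      (Metric.ball (0 : ℂ) (R - ρ)).indicator (fun _ => (-4 : ℝ)) z := by
  have hρ : 0 ≤ ρ := ha ▸ norm_nonneg a
  rw [add_zero]
  by_cases h1 : ‖z‖ < R - ρ
  · have hz1 : z ∈ Metric.ball (0 : ℂ) (R - ρ) := by simpa using h1
    have hz2 : z ∈ Metric.ball (0 : ℂ) (R + ρ) := by
      have : ‖z‖ < R + ρ := by linarith
      simpa using this
    rw [Set.indicator_of_mem hz1, Set.indicator_of_mem hz2]
    have e1 : ‖z‖ < R := by linarith
    have e2 : ‖z + a‖ < R := by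
      have := norm_add_le z a
      linarith
    have e3 : ‖z + b‖ < R := by
      have := norm_add_le z b
      linarith
    have hn := hav z (z + a) (z + b) (by simpa [dist_eq_norm] using ha)
      (by rw [dist_eq_norm, ← hab, ← norm_neg]; congr 1; ring) (by simpa [dist_eq_norm] using hb)
    rcases hz : f z <;> rcases hza : f (z + a) <;> rcases hzb : f (z + b) <;>
      simp [cut, e1, e2, e3, hz, hza, hzb] at hn ⊢ <;> norm_num
  · have hz1 : z ∉ Metric.ball (0 : ℂ) (R - ρ) := by simpa using h1
    rw [Set.indicator_of_notMem hz1, add_zero]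
    by_cases h2 : ‖z‖ < R + ρ
    · have hz2 : z ∈ Metric.ball (0 : ℂ) (R + ρ) := by simpa using h2
      rw [Set.indicator_of_mem hz2]
      have key : ∀ u v : ℂ, cut f R u * cut f R v ≤ 1 := by
        intro u v
        calc cut f R u * cut f R v ≤ |cut f R u * cut f R v| := le_abs_self _
          _ = |cut f R u| * |cut f R v| := abs_mul _ _
          _ ≤ 1 * 1 := mul_le_mul (cut_abs_le f R u) (cut_abs_le f R v) (abs_nonneg _) zero_le_one
          _ = 1 := one_mul 1
      have := key z (z + a)
      have := key z (z + b)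
      have := key (z + a) (z + b)
      linarith
    · have hz2 : z ∉ Metric.ball (0 : ℂ) (R + ρ) := by simpa using h2
      rw [Set.indicator_of_notMem hz2]
      have e1 : ¬ ‖z‖ < R := by
        intro h
        exact h2 (by linarith)
      have e2 : ¬ ‖z + a‖ < R := by
        intro h
        have : ‖z‖ ≤ ‖z + a‖ + ‖a‖ := by
          calc ‖z‖ = ‖(z + a) - a‖ := by congr 1; ring
            _ ≤ _ := norm_sub_le _ _
        exact h2 (by linarith)
      have c1 : cut f R z = 0 := by simp [cut, e1]
      have c2 : cut f R (z + a) = 0 := by simp [cut, e2]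
      rw [c1, c2]
      simp

/-- One triangle. Sketch: with `c v = ∫ F z F (z + v) dz`, `F = cut f R`,
`a = ρ e^{it}`, `b = ρ e^{i(t+π/3)}`, `b - a = ρ e^{i(t+2π/3)}`, the left side is
`∫ F z F (z+a) + F z F (z+b) + F (z+a) F (z+b) dz`. The integrand is `-1` for `|z| < R - ρ`
(the triangle `z, z+a, z+b` is not monochromatic), zero for `|z| ≥ R + ρ`, and at most `3`
otherwise; so the integral is at most
`-π (R-ρ)² + 3 π ((R+ρ)² - (R-ρ)²) ≤ -π R² + 14 π ρ R`. -/
theorem one_triangle (f : ℂ → Bool) (hf : NullMeasurableSet {z | f z = true} volume) {ρ R : ℝ}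
    (hρ : 0 < ρ) (hR : ρ ≤ R) (hav : AvTri f ρ ρ ρ) (t : ℝ) :
    (∫ z, cut f R z * cut f R (z + (ρ : ℂ) * exp (t * I)))
      + (∫ z, cut f R z * cut f R (z + (ρ : ℂ) * exp ((t + Real.pi / 3 : ℝ) * I)))
      + (∫ z, cut f R z * cut f R (z + (ρ : ℂ) * exp ((t + 2 * Real.pi / 3 : ℝ) * I)))
      ≤ -(Real.pi * R ^ 2) + 14 * Real.pi * ρ * R := by
  set a : ℂ := (ρ : ℂ) * exp (t * I) with ha
  set b : ℂ := (ρ : ℂ) * exp ((t + Real.pi / 3 : ℝ) * I) with hb
  set d : ℂ := (ρ : ℂ) * exp ((t + 2 * Real.pi / 3 : ℝ) * I) with hd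
  have hnorm : ∀ s : ℝ, ‖(ρ : ℂ) * exp (s * I)‖ = ρ := by
    intro s
    rw [norm_mul, Complex.norm_exp_ofReal_mul_I, mul_one, Complex.norm_real, Real.norm_eq_abs,
      abs_of_pos hρ]
  have hda : b - a = d := by
    have h1 : exp ((Real.pi / 3 : ℝ) * I) = 1 / 2 + (Real.sqrt 3 / 2 : ℝ) * I := by
      rw [Complex.exp_mul_I, ← Complex.ofReal_cos, ← Complex.ofReal_sin, Real.cos_pi_div_three,
        Real.sin_pi_div_three]
      push_cast
      ring
    have h2 : exp ((2 * Real.pi / 3 : ℝ) * I) = -(1 / 2) + (Real.sqrt 3 / 2 : ℝ) * I := by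
      have e : 2 * Real.pi / 3 = Real.pi - Real.pi / 3 := by ring
      rw [Complex.exp_mul_I, ← Complex.ofReal_cos, ← Complex.ofReal_sin, e, Real.cos_pi_sub,
        Real.sin_pi_sub, Real.cos_pi_div_three, Real.sin_pi_div_three]
      push_cast
      ring
    rw [hb, ha, hd, Complex.ofReal_add, Complex.ofReal_add, add_mul, add_mul, Complex.exp_add,
      Complex.exp_add, h1, h2]
    ring
  have h3 : (∫ z, cut f R z * cut f R (z + d)) = ∫ z, cut f R (z + a) * cut f R (z + b) := by
    rw [← integral_add_right_eq_self (fun z => cut f R z * cut f R (z + d)) a]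
    congr 1
    funext z
    congr 2
    rw [← hda]
    ring
  rw [h3]
  have hi1 : Integrable (fun z => cut f R (z + 0) * cut f R (z + a)) :=
    cut_mul_integrable f hf R 0 a
  have hi2 : Integrable (fun z => cut f R (z + 0) * cut f R (z + b)) :=
    cut_mul_integrable f hf R 0 b
  have hi3 : Integrable (fun z => cut f R (z + a) * cut f R (z + b)) :=
    cut_mul_integrable f hf R a b
  have hi12 : Integrable (fun z => cut f R (z + 0) * cut f R (z + a) +
      cut f R (z + 0) * cut f R (z + b)) := hi1.add hi2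
  have hj1 : Integrable (fun z : ℂ => (Metric.ball (0 : ℂ) (R + ρ)).indicator (fun _ => (3:ℝ)) z) :=
    integrable_ball_indicator _ _
  have hj2 : Integrable (fun z : ℂ => (Metric.ball (0 : ℂ) (R - ρ)).indicator
      (fun _ => (-4:ℝ)) z) := integrable_ball_indicator _ _
  have key : (∫ z, (cut f R (z + 0) * cut f R (z + a) + cut f R (z + 0) * cut f R (z + b)
      + cut f R (z + a) * cut f R (z + b))) ≤
    ∫ z, ((Metric.ball (0 : ℂ) (R + ρ)).indicator (fun _ => (3 : ℝ)) z +
      (Metric.ball (0 : ℂ) (R - ρ)).indicator (fun _ => (-4 : ℝ)) z) := by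
    refine integral_mono (hi12.add hi3) (hj1.add hj2) ?_
    intro z
    exact tri_pointwise f hav a b (hnorm _) (hnorm _) (by rw [hda]; exact hnorm _) z
  rw [integral_add hi12 hi3, integral_add hi1 hi2, integral_add hj1 hj2,
    integral_ball_indicator (by linarith), integral_ball_indicator (by linarith)] at key
  simp only [add_zero] at key
  refine key.trans ?_
  have : 0 ≤ Real.pi * ρ ^ 2 := by positivity
  nlinarith

/-- The averaged inequality: integrate `one_triangle` over `t` in `[0, 2π]`; the three integrals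
agree by periodicity (continuity of `v ↦ ∫ F z F (z+v) dz` is the hypothesis `hc`). -/
theorem avg_bound (f : ℂ → Bool) (hf : NullMeasurableSet {z | f z = true} volume) {ρ R : ℝ}
    (hρ : 0 < ρ) (hR : ρ ≤ R) (hav : AvTri f ρ ρ ρ)
    (hc : Continuous fun v : ℂ => ∫ z, cut f R z * cut f R (z + v)) :
    (1 / (2 * Real.pi)) * (∫ t in (0 : ℝ)..(2 * Real.pi),
        ∫ z, cut f R z * cut f R (z + (ρ : ℂ) * exp (t * I)))
      ≤ -(Real.pi * R ^ 2) / 3 + 5 * Real.pi * ρ * R := by
  set g : ℝ → ℝ := fun t => ∫ z, cut f R z * cut f R (z + (ρ : ℂ) * exp (t * I)) with hg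
  have hgc : Continuous g := hc.comp (by fun_prop : Continuous fun t : ℝ =>
    (ρ : ℂ) * exp (t * I))
  have hper : Function.Periodic g (2 * Real.pi) := by
    intro t
    simp only [hg]
    have : exp (((t + 2 * Real.pi : ℝ) : ℂ) * I) = exp (t * I) := by
      push_cast
      rw [add_mul, Complex.exp_add, Complex.exp_two_pi_mul_I, mul_one]
    rw [this]
  have hshift : ∀ s : ℝ, ∫ t in (0:ℝ)..(2 * Real.pi), g (t + s) =
      ∫ t in (0:ℝ)..(2 * Real.pi), g t := by
    intro s
    rw [intervalIntegral.integral_comp_add_right, zero_add, add_comm (2 * Real.pi) s]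
    have := hper.intervalIntegral_add_eq s 0
    rw [zero_add] at this
    exact this
  have hi : ∀ s : ℝ, IntervalIntegrable (fun t => g (t + s)) volume 0 (2 * Real.pi) := by
    intro s
    exact (hgc.comp (continuous_id.add continuous_const)).intervalIntegrable _ _
  have key : ∫ t in (0:ℝ)..(2 * Real.pi), (g (t + 0) + g (t + Real.pi / 3) +
      g (t + 2 * Real.pi / 3)) ≤ ∫ t in (0:ℝ)..(2 * Real.pi),
        (-(Real.pi * R ^ 2) + 14 * Real.pi * ρ * R) := by
    refine intervalIntegral.integral_mono_on (by positivity)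
      (((hi 0).add (hi _)).add (hi _)) intervalIntegrable_const ?_
    intro t _
    have := one_triangle f hf hρ hR hav t
    simpa [hg] using this
  have h12 : IntervalIntegrable (fun t => g (t + 0) + g (t + Real.pi / 3)) volume 0
      (2 * Real.pi) := (hi 0).add (hi _)
  rw [intervalIntegral.integral_add h12 (hi _),
    intervalIntegral.integral_add (hi 0) (hi _), hshift, hshift, hshift,
    intervalIntegral.integral_const] at key
  simp only [smul_eq_mul, sub_zero] at key
  have hpi := Real.pi_pos
  set J := ∫ t in (0:ℝ)..(2 * Real.pi), g t with hJ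
  have h1 : (1 / (2 * Real.pi)) * (3 * J) ≤ -(Real.pi * R ^ 2) + 14 * Real.pi * ρ * R := by
    rw [one_div, inv_mul_le_iff₀ (by positivity)]
    linarith
  have h2 : 0 ≤ Real.pi * ρ * R := by
    have : 0 ≤ R := by linarith
    positivity
  nlinarith

end Pool.Agent.Lib.P3852e9
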