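import Mathlib
import Pool.Agent.Lib.P3852e9.Defs

/-!
# Numerical values of `J₀` and `J₁`

Taylor: `Complex.exp_bound'` for `exp (i x sin t)` and `integral_sin_pow_even`.
-/

set_option autoImplicit false

namespace Pool.Agent.Lib.P3852e9

open Finset

/-- The Taylor polynomials of `exp (i y)`. -/
theorem taylor_re_im (y : ℝ) (K : ℕ) :
    (∑ m ∈ range (2 * K), ((y : ℂ) * Complex.I) ^ m / (m.factorial : ℂ))
      = ((∑ k ∈ range K, (-1) ^ k * y ^ (2 * k) / ((2 * k).factorial : ℝ) : ℝ) : ℂ)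
        + ((∑ k ∈ range K, (-1) ^ k * y ^ (2 * k + 1) / ((2 * k + 1).factorial : ℝ) : ℝ) : ℂ)
          * Complex.I := by
  induction K with
  | zero => simp
  | succ K ih =>
    have h2 : 2 * (K + 1) = 2 * K + 1 + 1 := by ring
    rw [h2, sum_range_succ, sum_range_succ, ih, sum_range_succ, sum_range_succ]
    push_cast
    have hI : Complex.I ^ (2 * K) = (-1) ^ K := by rw [pow_mul, Complex.I_sq]
    have hI' : Complex.I ^ (2 * K + 1) = (-1) ^ K * Complex.I := by rw [pow_succ, hI]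
    rw [mul_pow, mul_pow, hI, hI']
    ring

theorem cos_approx (y : ℝ) {K : ℕ} (hK : |y| ≤ K) :
    |Real.cos y - ∑ k ∈ range K, (-1) ^ k * y ^ (2 * k) / ((2 * k).factorial : ℝ)|
      ≤ 2 * |y| ^ (2 * K) / ((2 * K).factorial : ℝ) := by
  have hn : ‖(y : ℂ) * Complex.I‖ = |y| := by simp
  have h := Complex.exp_bound' (x := (y : ℂ) * Complex.I) (n := 2 * K) (by
    rw [hn, div_le_iff₀ (by positivity)]
    push_cast
    linarith)
  rw [taylor_re_im, hn] at h
  have h2 := (Complex.abs_re_le_norm _).trans h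
  rw [Complex.exp_mul_I] at h2
  have h3 : (Complex.cos (y : ℂ) + Complex.sin (y : ℂ) * Complex.I
      - (((∑ k ∈ range K, (-1) ^ k * y ^ (2 * k) / ((2 * k).factorial : ℝ) : ℝ) : ℂ)
        + ((∑ k ∈ range K, (-1) ^ k * y ^ (2 * k + 1) / ((2 * k + 1).factorial : ℝ) : ℝ) : ℂ)
          * Complex.I)).re
      = Real.cos y - ∑ k ∈ range K, (-1) ^ k * y ^ (2 * k) / ((2 * k).factorial : ℝ) := by
    rw [← Complex.ofReal_cos, ← Complex.ofReal_sin]
    simp only [Complex.sub_re, Complex.add_re, Complex.mul_re, Complex.ofReal_re,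
      Complex.ofReal_im, Complex.I_re, Complex.I_im]
    ring
  rw [h3] at h2
  refine h2.trans (le_of_eq ?_)
  ring

theorem sin_approx (y : ℝ) {K : ℕ} (hK : |y| ≤ K) :
    |Real.sin y - ∑ k ∈ range K, (-1) ^ k * y ^ (2 * k + 1) / ((2 * k + 1).factorial : ℝ)|
      ≤ 2 * |y| ^ (2 * K + 1) / ((2 * K + 1).factorial : ℝ) := by
  have hn : ‖(y : ℂ) * Complex.I‖ = |y| := by simp
  have h := Complex.exp_bound' (x := (y : ℂ) * Complex.I) (n := 2 * K + 1) (by
    rw [hn, div_le_iff₀ (by positivity)]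
    push_cast
    linarith)
  rw [sum_range_succ, taylor_re_im, hn] at h
  have h2 := (Complex.abs_im_le_norm _).trans h
  rw [Complex.exp_mul_I] at h2
  have hI : Complex.I ^ (2 * K) = (((-1 : ℝ) ^ K : ℝ) : ℂ) := by
    rw [pow_mul, Complex.I_sq]; push_cast; rfl
  have h3 : (Complex.cos (y : ℂ) + Complex.sin (y : ℂ) * Complex.I
      - ((((∑ k ∈ range K, (-1) ^ k * y ^ (2 * k) / ((2 * k).factorial : ℝ) : ℝ) : ℂ)
        + ((∑ k ∈ range K, (-1) ^ k * y ^ (2 * k + 1) / ((2 * k + 1).factorial : ℝ) : ℝ) : ℂ)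
          * Complex.I) + ((y : ℂ) * Complex.I) ^ (2 * K) / ((2 * K).factorial : ℂ))).im
      = Real.sin y - ∑ k ∈ range K, (-1) ^ k * y ^ (2 * k + 1) / ((2 * k + 1).factorial : ℝ) := by
    have h4 : ((y : ℂ) * Complex.I) ^ (2 * K) / ((2 * K).factorial : ℂ)
        = ((y ^ (2 * K) * (-1) ^ K / ((2 * K).factorial : ℝ) : ℝ) : ℂ) := by
      rw [mul_pow, hI]
      push_cast
      rfl
    rw [h4, ← Complex.ofReal_cos, ← Complex.ofReal_sin]
    simp only [Complex.sub_im, Complex.add_im, Complex.mul_im, Complex.ofReal_re,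
      Complex.ofReal_im, Complex.I_re, Complex.I_im]
    ring
  rw [h3] at h2
  refine h2.trans (le_of_eq ?_)
  ring

theorem prod_eq (k : ℕ) :
    ∏ i ∈ range k, ((2 * (i : ℝ) + 1) / (2 * i + 2))
      = ((2 * k).factorial : ℝ) / (4 ^ k * (k.factorial : ℝ) ^ 2) := by
  induction k with
  | zero => simp
  | succ k ih =>
    rw [prod_range_succ, ih]
    have h2 : 2 * (k + 1) = 2 * k + 1 + 1 := by ring
    rw [h2, Nat.factorial_succ, Nat.factorial_succ, Nat.factorial_succ]
    push_cast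
    have h3 : (k.factorial : ℝ) ≠ 0 := by positivity
    have h4 : (k : ℝ) + 1 ≠ 0 := by positivity
    field_simp
    ring

theorem sin_even_integral (k : ℕ) :
    ∫ t in (0 : ℝ)..Real.pi, Real.sin t ^ (2 * k)
      = Real.pi * (((2 * k).factorial : ℝ) / (4 ^ k * (k.factorial : ℝ) ^ 2)) := by
  rw [integral_sin_pow_even, prod_eq]

/-- Averages over `[0, π]` of a difference bounded by `C`. -/
theorem avg_sub_le {G H : ℝ → ℝ} (hG : Continuous G) (hH : Continuous H) {C : ℝ}
    (h : ∀ t ∈ Set.Icc (0 : ℝ) Real.pi, |G t - H t| ≤ C) :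
    |(1 / Real.pi) * (∫ t in (0 : ℝ)..Real.pi, G t)
      - (1 / Real.pi) * ∫ t in (0 : ℝ)..Real.pi, H t| ≤ C := by
  have hpi := Real.pi_pos
  rw [← mul_sub, ← intervalIntegral.integral_sub (hG.intervalIntegrable _ _)
    (hH.intervalIntegrable _ _)]
  have h1 := intervalIntegral.norm_integral_le_of_norm_le_const (a := (0 : ℝ)) (b := Real.pi)
    (C := C) (f := fun t => G t - H t) (fun t ht => by
      rw [Set.uIoc_of_le hpi.le] at ht
      exact h t ⟨ht.1.le, ht.2⟩)
  rw [Real.norm_eq_abs, sub_zero, abs_of_pos hpi] at h1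
  rw [abs_mul, abs_of_pos (by positivity : (0 : ℝ) < 1 / Real.pi)]
  calc 1 / Real.pi * |∫ t in (0 : ℝ)..Real.pi, (G t - H t)| ≤ 1 / Real.pi * (C * Real.pi) := by
        gcongr
    _ = C := by field_simp

/-- Sketch: real part of `Complex.exp_bound'` with `n = 2 K` at `i x sin t`
(`x / (2K+1) ≤ 1/2`), integrated over `[0, π]`; odd terms are purely imaginary;
`∫_0^π sin^(2k) = π ∏ (2i+1)/(2i+2) = π (2k)! / (4^k (k!)²)`. -/
theorem J0_approx {x : ℝ} (hx : 0 ≤ x) {K : ℕ} (hK : x ≤ K) :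
    |J0 x - ∑ k ∈ range K, (-1) ^ k * (x / 2) ^ (2 * k) / ((k.factorial : ℝ)) ^ 2|
      ≤ 2 * x ^ (2 * K) / ((2 * K).factorial : ℝ) := by
  have hpi := Real.pi_pos
  have hsum : (1 / Real.pi) * (∫ t in (0 : ℝ)..Real.pi,
      ∑ k ∈ range K, (-1) ^ k * (x * Real.sin t) ^ (2 * k) / ((2 * k).factorial : ℝ))
      = ∑ k ∈ range K, (-1) ^ k * (x / 2) ^ (2 * k) / ((k.factorial : ℝ)) ^ 2 := by
    rw [intervalIntegral.integral_finsetSum
      (fun k _ => (by fun_prop : Continuous fun t : ℝ =>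
        (-1) ^ k * (x * Real.sin t) ^ (2 * k) / ((2 * k).factorial : ℝ)
        ).intervalIntegrable _ _), mul_sum]
    refine sum_congr rfl fun k _ => ?_
    have h1 : (fun t : ℝ => (-1 : ℝ) ^ k * (x * Real.sin t) ^ (2 * k) / ((2 * k).factorial : ℝ))
        = fun t : ℝ => ((-1) ^ k * x ^ (2 * k) / ((2 * k).factorial : ℝ))
          * Real.sin t ^ (2 * k) := by
      funext t
      rw [mul_pow]
      ring
    rw [h1, intervalIntegral.integral_const_mul, sin_even_integral]
    have h2 : ((2 * k).factorial : ℝ) ≠ 0 := by positivity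
    have h3 : (k.factorial : ℝ) ≠ 0 := by positivity
    rw [div_pow, pow_mul 2 2 k]
    norm_num
    field_simp
  rw [← hsum]
  unfold J0
  refine avg_sub_le (by fun_prop) (by fun_prop) fun t ht => ?_
  have hs := Real.sin_nonneg_of_nonneg_of_le_pi ht.1 ht.2
  have hle : |x * Real.sin t| ≤ x := by
    rw [abs_of_nonneg (mul_nonneg hx hs)]
    exact mul_le_of_le_one_right hx (Real.sin_le_one t)
  refine (cos_approx (x * Real.sin t) (hle.trans hK)).trans ?_
  gcongr

/-- Sketch: imaginary part of `Complex.exp_bound'` with `n = 2 K + 1` at `i x sin t`, times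
`sin t`. -/
theorem J1_approx {x : ℝ} (hx : 0 ≤ x) {K : ℕ} (hK : x ≤ K) :
    |J1 x - ∑ k ∈ range K,
        (-1) ^ k * (x / 2) ^ (2 * k + 1) / ((k.factorial : ℝ) * ((k + 1).factorial : ℝ))|
      ≤ 2 * x ^ (2 * K + 1) / ((2 * K + 1).factorial : ℝ) := by
  have hpi := Real.pi_pos
  have hsum : (1 / Real.pi) * (∫ t in (0 : ℝ)..Real.pi, Real.sin t *
      ∑ k ∈ range K, (-1) ^ k * (x * Real.sin t) ^ (2 * k + 1) / ((2 * k + 1).factorial : ℝ))
      = ∑ k ∈ range K,
        (-1) ^ k * (x / 2) ^ (2 * k + 1) / ((k.factorial : ℝ) * ((k + 1).factorial : ℝ)) := by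
    have h0 : (fun t : ℝ => Real.sin t *
      ∑ k ∈ range K, (-1) ^ k * (x * Real.sin t) ^ (2 * k + 1) / ((2 * k + 1).factorial : ℝ))
      = fun t : ℝ => ∑ k ∈ range K, ((-1) ^ k * x ^ (2 * k + 1) / ((2 * k + 1).factorial : ℝ))
          * Real.sin t ^ (2 * (k + 1)) := by
      funext t
      rw [mul_sum]
      refine sum_congr rfl fun k _ => ?_
      rw [mul_pow]
      ring
    rw [h0, intervalIntegral.integral_finsetSum
      (fun k _ => (by fun_prop : Continuous fun t : ℝ =>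
        ((-1) ^ k * x ^ (2 * k + 1) / ((2 * k + 1).factorial : ℝ))
          * Real.sin t ^ (2 * (k + 1))
        ).intervalIntegrable _ _), mul_sum]
    refine sum_congr rfl fun k _ => ?_
    rw [intervalIntegral.integral_const_mul, sin_even_integral]
    have h4 : 2 * (k + 1) = 2 * k + 1 + 1 := by ring
    rw [h4, Nat.factorial_succ (2 * k + 1), Nat.factorial_succ k]
    have h2 : ((2 * k + 1).factorial : ℝ) ≠ 0 := by positivity
    have h3 : (k.factorial : ℝ) ≠ 0 := by positivity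
    have h5 : (k : ℝ) + 1 ≠ 0 := by positivity
    have h6 : (2 : ℝ) ^ (2 * k + 1) = 2 * 4 ^ k := by
      rw [pow_succ, pow_mul]; norm_num; ring
    rw [div_pow, h6]
    push_cast
    field_simp
    ring
  rw [← hsum]
  unfold J1
  refine avg_sub_le (by fun_prop) (by fun_prop) fun t ht => ?_
  have hs := Real.sin_nonneg_of_nonneg_of_le_pi ht.1 ht.2
  have hle : |x * Real.sin t| ≤ x := by
    rw [abs_of_nonneg (mul_nonneg hx hs)]
    exact mul_le_of_le_one_right hx (Real.sin_le_one t)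
  rw [← mul_sub, abs_mul]
  refine (mul_le_of_le_one_left (abs_nonneg _) (Real.abs_sin_le_one t)).trans ?_
  refine (sin_approx (x * Real.sin t) (hle.trans hK)).trans ?_
  gcongr

/-- `J₀(3) = -0.26005...` -/
theorem J0_three : -0.2602 ≤ J0 3 := by
  have h := J0_approx (x := 3) (by norm_num) (K := 8) (by norm_num)
  simp only [sum_range_succ, sum_range_zero, Nat.factorial] at h
  rw [abs_le] at h
  have := h.1
  norm_num at this ⊢
  linarith

/-- `J₁(3) = 0.33906...` -/
theorem J1_three : 0.33 ≤ J1 3 := by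
  have h := J1_approx (x := 3) (by norm_num) (K := 8) (by norm_num)
  simp only [sum_range_succ, sum_range_zero, Nat.factorial] at h
  rw [abs_le] at h
  have := h.1
  norm_num at this ⊢
  linarith

/-- `J₀(3.6) = -0.39177...` -/
theorem J0_36 : -0.3925 ≤ J0 3.6 := by
  have h := J0_approx (x := 3.6) (by norm_num) (K := 9) (by norm_num)
  simp only [sum_range_succ, sum_range_zero, Nat.factorial] at h
  rw [abs_le] at h
  have := h.1
  norm_num at this ⊢
  linarith

theorem sq_sum_le {a b m n C : ℝ} (ha : |a| ≤ m) (hb : |b| ≤ n) (h : m ^ 2 + n ^ 2 ≤ C) :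
    a ^ 2 + b ^ 2 ≤ C := by
  have h1 : a ^ 2 ≤ m ^ 2 := sq_le_sq' (by linarith [(abs_le.mp ha).1]) (abs_le.mp ha).2
  have h2 : b ^ 2 ≤ n ^ 2 := sq_le_sq' (by linarith [(abs_le.mp hb).1]) (abs_le.mp hb).2
  linarith

/-- `J₀(3.6)² + J₁(3.6)² = 0.16260...` -/
theorem S_36 : J0 3.6 ^ 2 + J1 3.6 ^ 2 ≤ 0.1628 := by
  have h0 : |J0 3.6| ≤ 0.3919 := by
    have h := J0_approx (x := 3.6) (by norm_num) (K := 9) (by norm_num)
    simp only [sum_range_succ, sum_range_zero, Nat.factorial] at h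
    rw [abs_le] at h ⊢
    norm_num at h ⊢
    constructor <;> linarith [h.1, h.2]
  have h1 : |J1 3.6| ≤ 0.0956 := by
    have h := J1_approx (x := 3.6) (by norm_num) (K := 9) (by norm_num)
    simp only [sum_range_succ, sum_range_zero, Nat.factorial] at h
    rw [abs_le] at h ⊢
    norm_num at h ⊢
    constructor <;> linarith [h.1, h.2]
  exact sq_sum_le h0 h1 (by norm_num)

/-- `J₀(6)² + J₁(6)² = 0.09924...` -/
theorem S_6 : J0 6 ^ 2 + J1 6 ^ 2 ≤ 0.1 := by
  have h0 : |J0 6| ≤ 0.1507 := by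
    have h := J0_approx (x := 6) (by norm_num) (K := 13) (by norm_num)
    simp only [sum_range_succ, sum_range_zero, Nat.factorial] at h
    rw [abs_le] at h ⊢
    norm_num at h ⊢
    constructor <;> linarith [h.1, h.2]
  have h1 : |J1 6| ≤ 0.2767 := by
    have h := J1_approx (x := 6) (by norm_num) (K := 13) (by norm_num)
    simp only [sum_range_succ, sum_range_zero, Nat.factorial] at h
    rw [abs_le] at h ⊢
    norm_num at h ⊢
    constructor <;> linarith [h.1, h.2]
  exact sq_sum_le h0 h1 (by norm_num)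

/-- `J₀(7.5) = 0.26634...` -/
theorem J0_75 : 0.26 ≤ J0 7.5 := by
  have h := J0_approx (x := 7.5) (by norm_num) (K := 14) (by norm_num)
  simp only [sum_range_succ, sum_range_zero, Nat.factorial] at h
  rw [abs_le] at h
  have := h.1
  norm_num at this ⊢
  linarith

/-- `J₀(9)² + J₁(9)² = 0.06834...` -/
theorem S_9 : J0 9 ^ 2 + J1 9 ^ 2 ≤ 0.0685 := by
  have h0 : |J0 9| ≤ 0.0904 := by
    have h := J0_approx (x := 9) (by norm_num) (K := 18) (by norm_num)
    simp only [sum_range_succ, sum_range_zero, Nat.factorial] at h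
    rw [abs_le] at h ⊢
    norm_num at h ⊢
    constructor <;> linarith [h.1, h.2]
  have h1 : |J1 9| ≤ 0.2454 := by
    have h := J1_approx (x := 9) (by norm_num) (K := 18) (by norm_num)
    simp only [sum_range_succ, sum_range_zero, Nat.factorial] at h
    rw [abs_le] at h ⊢
    norm_num at h ⊢
    constructor <;> linarith [h.1, h.2]
  exact sq_sum_le h0 h1 (by norm_num)

end Pool.Agent.Lib.P3852e9
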