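import Mathlib
import Pool.Agent.Lib.P3852e9.Defs

/-!
# The Bessel functions `J₀`, `J₁`: derivatives, differential equation, Sonin's inequality

`J0 x = (1/π) ∫_0^π cos (x sin t) dt`, `J1 x = (1/π) ∫_0^π sin t sin (x sin t) dt`,
`J2 x = (1/π) ∫_0^π sin² t cos (x sin t) dt` (see `Defs`).
-/

set_option autoImplicit false

namespace Pool.Agent.Lib.P3852e9

/-- Differentiation under the integral sign, for a kernel with bounded derivative. -/
theorem hasDerivAt_param {F F' : ℝ → ℝ → ℝ} (hF : ∀ x, Continuous (F x))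
    (hF' : ∀ x, Continuous (F' x)) (hb : ∀ x t, |F' x t| ≤ 1)
    (hd : ∀ x t, HasDerivAt (fun y => F y t) (F' x t) x) (x : ℝ) :
    HasDerivAt (fun y => ∫ t in (0 : ℝ)..Real.pi, F y t)
      (∫ t in (0 : ℝ)..Real.pi, F' x t) x := by
  refine (intervalIntegral.hasDerivAt_integral_of_dominated_loc_of_deriv_le
    (s := Set.univ) (bound := fun _ => (1 : ℝ)) Filter.univ_mem ?_ ?_ ?_ ?_ ?_ ?_).2
  · exact Filter.Eventually.of_forall fun y => (hF y).aestronglyMeasurable
  · exact (hF x).intervalIntegrable _ _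
  · exact (hF' x).aestronglyMeasurable
  · exact Filter.Eventually.of_forall fun t _ y _ => hb y t
  · exact intervalIntegrable_const
  · exact Filter.Eventually.of_forall fun t _ y _ => hd y t

/-- Differentiation under the integral sign
(`intervalIntegral.hasDerivAt_integral_of_dominated_loc_of_deriv_le`). -/
theorem hasDerivAt_J0 (x : ℝ) : HasDerivAt J0 (-J1 x) x := by
  have h := hasDerivAt_param (F := fun x t => Real.cos (x * Real.sin t))
    (F' := fun x t => -(Real.sin t * Real.sin (x * Real.sin t)))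
    (fun x => by fun_prop) (fun x => by fun_prop)
    (fun x t => by
      rw [abs_neg, abs_mul]
      exact mul_le_one₀ (Real.abs_sin_le_one _) (abs_nonneg _) (Real.abs_sin_le_one _))
    (fun x t => by
      have := (Real.hasDerivAt_cos (x * Real.sin t)).comp x
        ((hasDerivAt_id x).mul_const (Real.sin t))
      refine this.congr_deriv ?_
      ring) x
  have h2 := h.const_mul (1 / Real.pi)
  refine h2.congr_deriv ?_
  rw [intervalIntegral.integral_neg]
  unfold J1
  ring

theorem hasDerivAt_J1 (x : ℝ) : HasDerivAt J1 (J2 x) x := by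
  have h := hasDerivAt_param (F := fun x t => Real.sin t * Real.sin (x * Real.sin t))
    (F' := fun x t => Real.sin t ^ 2 * Real.cos (x * Real.sin t))
    (fun x => by fun_prop) (fun x => by fun_prop)
    (fun x t => by
      rw [abs_mul, abs_pow]
      exact mul_le_one₀ (pow_le_one₀ (abs_nonneg _) (Real.abs_sin_le_one _)) (abs_nonneg _)
        (Real.abs_cos_le_one _))
    (fun x t => by
      have := ((Real.hasDerivAt_sin (x * Real.sin t)).comp x
        ((hasDerivAt_id x).mul_const (Real.sin t))).const_mul (Real.sin t)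
      refine this.congr_deriv ?_
      ring) x
  exact h.const_mul (1 / Real.pi)

theorem abs_integral_le_pi {G : ℝ → ℝ} (hb : ∀ t, |G t| ≤ 1) :
    |(1 / Real.pi) * ∫ t in (0 : ℝ)..Real.pi, G t| ≤ 1 := by
  have h := intervalIntegral.norm_integral_le_of_norm_le_const (a := (0 : ℝ)) (b := Real.pi)
    (C := 1) (f := G) (fun t _ => by simpa using hb t)
  rw [Real.norm_eq_abs, sub_zero, abs_of_pos Real.pi_pos, one_mul] at h
  rw [abs_mul, abs_of_pos (by positivity : (0 : ℝ) < 1 / Real.pi)]
  calc 1 / Real.pi * |∫ t in (0 : ℝ)..Real.pi, G t| ≤ 1 / Real.pi * Real.pi := by gcongr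
    _ = 1 := by field_simp

/-- `∫_0^π sin² = π/2`. -/
theorem abs_J2_le (x : ℝ) : |J2 x| ≤ 1 / 2 := by
  unfold J2
  have h := intervalIntegral.norm_integral_le_of_norm_le (μ := MeasureTheory.volume)
    (a := (0 : ℝ)) (b := Real.pi)
    (f := fun t => Real.sin t ^ 2 * Real.cos (x * Real.sin t)) (g := fun t => Real.sin t ^ 2)
    Real.pi_pos.le
    (Filter.Eventually.of_forall fun t _ => by
      rw [Real.norm_eq_abs, abs_mul, abs_of_nonneg (sq_nonneg _)]
      exact mul_le_of_le_one_right (sq_nonneg _) (Real.abs_cos_le_one _))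
    ((by fun_prop : Continuous fun t : ℝ => Real.sin t ^ 2).intervalIntegrable _ _)
  rw [integral_sin_sq] at h
  simp only [Real.sin_zero, zero_mul, Real.sin_pi, Real.norm_eq_abs] at h
  rw [abs_mul, abs_of_pos (by positivity : (0 : ℝ) < 1 / Real.pi)]
  have hpi := Real.pi_pos
  calc 1 / Real.pi * |∫ t in (0 : ℝ)..Real.pi, Real.sin t ^ 2 * Real.cos (x * Real.sin t)|
      ≤ 1 / Real.pi * (Real.pi / 2) := by
        gcongr
        linarith
    _ = 1 / 2 := by field_simp

theorem abs_J1_le (x : ℝ) : |J1 x| ≤ 1 := by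
  refine abs_integral_le_pi fun t => ?_
  rw [abs_mul]
  exact mul_le_one₀ (Real.abs_sin_le_one _) (abs_nonneg _) (Real.abs_sin_le_one _)

theorem abs_J0_le (x : ℝ) : |J0 x| ≤ 1 :=
  abs_integral_le_pi fun _ => Real.abs_cos_le_one _

/-- Bessel's equation `J₀'' + J₀'/x + J₀ = 0`: integrate the derivative
`-sin t sin (x sin t) + x cos² t cos (x sin t)` of `cos t sin (x sin t)` over `[0, π]`. -/
theorem bessel_ode (x : ℝ) : x * (J0 x - J2 x) = J1 x := by
  have hint : ∫ t in (0 : ℝ)..Real.pi,
      (-(Real.sin t * Real.sin (x * Real.sin t))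
        + x * (Real.cos (x * Real.sin t) - Real.sin t ^ 2 * Real.cos (x * Real.sin t)))
      = Real.cos Real.pi * Real.sin (x * Real.sin Real.pi)
        - Real.cos 0 * Real.sin (x * Real.sin 0) := by
    refine intervalIntegral.integral_eq_sub_of_hasDerivAt
      (f := fun t => Real.cos t * Real.sin (x * Real.sin t)) ?_ ?_
    · intro t _
      have h1 := (Real.hasDerivAt_cos t).mul
        ((Real.hasDerivAt_sin (x * Real.sin t)).comp t ((Real.hasDerivAt_sin t).const_mul x))
      refine h1.congr_deriv ?_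
      simp only [Function.comp]
      have h2 := Real.sin_sq_add_cos_sq t
      linear_combination (x * Real.cos (x * Real.sin t)) * h2
    · exact (by fun_prop : Continuous fun t : ℝ =>
        (-(Real.sin t * Real.sin (x * Real.sin t))
        + x * (Real.cos (x * Real.sin t) - Real.sin t ^ 2 * Real.cos (x * Real.sin t)))
        ).intervalIntegrable _ _
  rw [intervalIntegral.integral_add
      ((by fun_prop : Continuous fun t : ℝ =>
        -(Real.sin t * Real.sin (x * Real.sin t))).intervalIntegrable _ _)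
      ((by fun_prop : Continuous fun t : ℝ =>
        x * (Real.cos (x * Real.sin t) - Real.sin t ^ 2 * Real.cos (x * Real.sin t))
        ).intervalIntegrable _ _),
    intervalIntegral.integral_neg, intervalIntegral.integral_const_mul,
    intervalIntegral.integral_sub
      ((by fun_prop : Continuous fun t : ℝ => Real.cos (x * Real.sin t)
        ).intervalIntegrable _ _)
      ((by fun_prop : Continuous fun t : ℝ => Real.sin t ^ 2 * Real.cos (x * Real.sin t)
        ).intervalIntegrable _ _)] at hint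
  simp only [Real.sin_pi, mul_zero, Real.sin_zero, sub_zero] at hint
  unfold J0 J1 J2
  linear_combination (1 / Real.pi) * hint

theorem J1_nonneg {x : ℝ} (h0 : 0 ≤ x) (hpi : x ≤ Real.pi) : 0 ≤ J1 x := by
  unfold J1
  refine mul_nonneg (by positivity) ?_
  refine intervalIntegral.integral_nonneg Real.pi_pos.le fun t ht => ?_
  have h1 := Real.sin_nonneg_of_nonneg_of_le_pi ht.1 ht.2
  have h2 := Real.sin_le_one t
  refine mul_nonneg h1 (Real.sin_nonneg_of_nonneg_of_le_pi (mul_nonneg h0 h1) ?_)
  calc x * Real.sin t ≤ x * 1 := by gcongr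
    _ ≤ Real.pi := by linarith

/-- Sonin: `(J₀² + J₁²)' = -2 J₁² / x ≤ 0`. -/
theorem sonin {x y : ℝ} (hx : 0 < x) (hxy : x ≤ y) :
    J0 y ^ 2 + J1 y ^ 2 ≤ J0 x ^ 2 + J1 x ^ 2 := by
  have hder : ∀ u : ℝ, HasDerivAt (fun u => J0 u ^ 2 + J1 u ^ 2)
      (2 * J0 u * (-J1 u) + 2 * J1 u * J2 u) u := by
    intro u
    have h1 := ((hasDerivAt_J0 u).pow 2).add ((hasDerivAt_J1 u).pow 2)
    refine h1.congr_deriv ?_
    norm_num
  have hanti : AntitoneOn (fun u => J0 u ^ 2 + J1 u ^ 2) (Set.Ici x) := by
    refine antitoneOn_of_deriv_nonpos (convex_Ici x) ?_ ?_ ?_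
    · exact fun u _ => (hder u).continuousAt.continuousWithinAt
    · exact fun u _ => (hder u).differentiableAt.differentiableWithinAt
    · intro u hu
      rw [interior_Ici] at hu
      have hu0 : 0 < u := lt_trans hx hu
      rw [(hder u).deriv]
      have h2 := bessel_ode u
      have h3 : 2 * J0 u * (-J1 u) + 2 * J1 u * J2 u = -(2 * u * (J0 u - J2 u) ^ 2) := by
        rw [← h2]; ring
      rw [h3]
      have : 0 ≤ 2 * u * (J0 u - J2 u) ^ 2 := by positivity
      linarith
  exact hanti (Set.mem_Ici.mpr le_rfl) (Set.mem_Ici.mpr hxy) hxy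

end Pool.Agent.Lib.P3852e9
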