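import Mathlib
import Pool.Agent.Lib.P3852e9.Defs
import Pool.Agent.Lib.P3852e9.BesselODE
import Pool.Agent.Lib.P3852e9.BesselNum

set_option autoImplicit false

namespace Pool.Agent.Lib.P3852e9

theorem continuous_J0 : Continuous J0 :=
  continuous_iff_continuousAt.2 fun x => (hasDerivAt_J0 x).continuousAt

/-- `J0` is antitone on an interval where `J1` is nonnegative. -/
theorem J0_anti {a b : ℝ} (h : ∀ x ∈ Set.Icc a b, 0 ≤ J1 x) {x : ℝ} (hx : x ∈ Set.Icc a b) :
    J0 b ≤ J0 x := by
  have hanti : AntitoneOn J0 (Set.Icc a b) := by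
    apply antitoneOn_of_deriv_nonpos (convex_Icc a b) continuous_J0.continuousOn
    · intro y _
      exact (hasDerivAt_J0 y).differentiableAt.differentiableWithinAt
    · intro y hy
      rw [(hasDerivAt_J0 y).deriv]
      have := h y (interior_subset hy)
      linarith
  exact hanti hx ⟨le_trans hx.1 hx.2, le_rfl⟩ hx.2

theorem J0_lower_small {x : ℝ} (h0 : 0 ≤ x) (h3 : x ≤ 3) : -0.2602 ≤ J0 x := by
  have h := J0_anti (a := 0) (b := 3)
    (fun y hy => J1_nonneg hy.1 (le_trans hy.2 (le_of_lt Real.pi_gt_three))) ⟨h0, h3⟩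
  exact le_trans J0_three h

theorem J1_lower_mid {x : ℝ} (h3 : 3 ≤ x) (h36 : x ≤ 3.6) : 0 ≤ J1 x := by
  have h := Convex.norm_image_sub_le_of_norm_hasDerivWithin_le (f := J1) (f' := J2)
    (s := Set.univ) (x := 3) (y := x) (C := 1 / 2)
    (fun y _ => (hasDerivAt_J1 y).hasDerivWithinAt)
    (fun y _ => by rw [Real.norm_eq_abs]; exact abs_J2_le y) convex_univ trivial trivial
  rw [Real.norm_eq_abs, Real.norm_eq_abs, abs_of_nonneg (by linarith : 0 ≤ x - 3)] at h
  have h' := (abs_le.1 h).1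
  have h1 := J1_three
  norm_num at h1 h36
  linarith

theorem J0_lower_all {x : ℝ} (h0 : 0 ≤ x) : -0.404 ≤ J0 x := by
  rcases le_or_gt x 3 with h3 | h3
  · have := J0_lower_small h0 h3
    linarith
  rcases le_or_gt x 3.6 with h36 | h36
  · have h := J0_anti (a := 3) (b := 3.6) (fun y hy => J1_lower_mid hy.1 hy.2) ⟨le_of_lt h3, h36⟩
    have := J0_36
    linarith
  · have h := sonin (x := 3.6) (y := x) (by norm_num) (le_of_lt h36)
    have h2 := S_36
    have h3 : J0 x ^ 2 ≤ 0.404 ^ 2 := by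
      have := sq_nonneg (J1 x)
      norm_num
      norm_num at h h2
      linarith
    exact (abs_le.1 (abs_le_of_sq_le_sq h3 (by norm_num))).1

theorem J0_lower_large {x : ℝ} (h6 : 6 ≤ x) : -0.2618 ≤ J0 x := by
  rcases le_or_gt x 9 with h9 | h9
  · have hb : ∀ y ∈ Set.Icc (6 : ℝ) 9, ‖-J1 y‖ ≤ 0.3163 := by
      intro y hy
      rw [norm_neg, Real.norm_eq_abs]
      have h := sonin (x := 6) (y := y) (by norm_num) hy.1
      have h2 := S_6
      apply abs_le_of_sq_le_sq _ (by norm_num)
      have := sq_nonneg (J0 y)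
      norm_num
      norm_num at h h2
      linarith
    have h := Convex.norm_image_sub_le_of_norm_hasDerivWithin_le (f := J0) (f' := fun y => -J1 y)
      (s := Set.Icc (6 : ℝ) 9) (x := 7.5) (y := x) (C := 0.3163)
      (fun y _ => (hasDerivAt_J0 y).hasDerivWithinAt) hb (convex_Icc 6 9)
      (by constructor <;> norm_num) ⟨h6, h9⟩
    rw [Real.norm_eq_abs, Real.norm_eq_abs] at h
    have h1 : |x - 7.5| ≤ 1.5 := by
      rw [abs_le]; constructor <;> norm_num <;> linarith
    have h2 := (abs_le.1 h).1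
    have h3 := J0_75
    have h4 : (0.3163 : ℝ) * |x - 7.5| ≤ 0.3163 * 1.5 :=
      mul_le_mul_of_nonneg_left h1 (by norm_num)
    norm_num at h2 h3 h4 ⊢
    linarith
  · have h := sonin (x := 9) (y := x) (by norm_num) (le_of_lt h9)
    have h2 := S_9
    have h3 : J0 x ^ 2 ≤ 0.2618 ^ 2 := by
      have := sq_nonneg (J1 x)
      norm_num
      norm_num at h h2
      linarith
    exact (abs_le.1 (abs_le_of_sq_le_sq h3 (by norm_num))).1

theorem bessel_lower {x y : ℝ} (hx : 0 ≤ x) (hxy : 2 * x ≤ y) : -0.666 ≤ J0 x + J0 y := by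
  rcases le_or_gt x 3 with h | h
  · have := J0_lower_small hx h
    have := J0_lower_all (x := y) (by linarith)
    linarith
  · have := J0_lower_all hx
    have := J0_lower_large (x := y) (by linarith)
    linarith

end Pool.Agent.Lib.P3852e9
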