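import Mathlib
import Pool.Agent.Lib.P3852e9.Defs

/-!
# Correlations of Schwartz functions on the plane
-/

set_option autoImplicit false

namespace Pool.Agent.Lib.P3852e9

open MeasureTheory SchwartzMap FourierTransform Complex

/-- The twisted Fourier transform. -/
private theorem schwartz_twist_inv (g : 𝓢(ℂ, ℂ)) (v x : ℂ) :
    ∫ ξ, Real.fourierChar (inner ℝ x ξ) • (Real.fourierChar (inner ℝ v ξ) • 𝓕 g ξ) = g (x + v) := by
  have h1 : ∀ ξ : ℂ, Real.fourierChar (inner ℝ x ξ) • (Real.fourierChar (inner ℝ v ξ) • 𝓕 g ξ)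
      = Real.fourierChar (inner ℝ ξ (x + v)) • 𝓕 g ξ := by
    intro ξ
    rw [smul_smul, ← AddChar.map_add_eq_mul, ← inner_add_left, real_inner_comm]
  simp_rw [h1]
  have h2 := Real.fourierInv_eq (fun ξ => 𝓕 g ξ) (x + v)
  rw [← h2]
  have h3 : (𝓕⁻ (𝓕 g) : 𝓢(ℂ, ℂ)) = g := FourierTransform.fourierInv_fourier_eq g
  have h4 : (𝓕⁻ (𝓕 g) : 𝓢(ℂ, ℂ)) (x + v) = g (x + v) := by rw [h3]
  rw [← h4, SchwartzMap.fourierInv_coe]

private theorem integrable_twist (g : 𝓢(ℂ, ℂ)) (v : ℂ) :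
    Integrable (fun ξ : ℂ => Real.fourierChar (inner ℝ v ξ) • 𝓕 g ξ) := by
  refine ((𝓕 g).integrable (μ := volume)).mono ?_ ?_
  · have h : Continuous fun ξ : ℂ => Real.fourierChar (inner ℝ v ξ) :=
      Real.continuous_fourierChar.comp (by fun_prop : Continuous fun ξ : ℂ => (inner ℝ v ξ : ℝ))
    exact (h.smul (𝓕 g).continuous).aestronglyMeasurable
  · refine Filter.Eventually.of_forall fun ξ => ?_
    rw [Circle.norm_smul]

/-- Sketch: for integrable `G`, `∫ conj (g z) (𝓕⁻ G) z dz = ∫ conj (𝓕 g ξ) G ξ dξ`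
(`VectorFourier.integral_sesq_fourierIntegral_eq_neg_flip`, see the proof of
`SchwartzMap.integral_sesq_fourier_eq`); take `G ξ = e^{2πi<v,ξ>} 𝓕 g ξ`, whose inverse Fourier
transform is `z ↦ g (z + v)` by Fourier inversion. -/
theorem schwartz_corr (g : 𝓢(ℂ, ℂ)) (v : ℂ) :
    ∫ z, (starRingEnd ℂ (g z)) * g (z + v)
      = ∫ ξ, ((‖𝓕 g ξ‖ ^ 2 : ℝ) : ℂ) * exp (2 * Real.pi * (inner ℝ v ξ : ℝ) * I) := by
  have key := VectorFourier.integral_sesq_fourierIntegral_eq_neg_flip (innerSL ℂ : ℂ →L⋆[ℂ] ℂ →L[ℂ] ℂ)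
    (L := innerₗ ℂ) (μ := volume) (ν := volume) Real.continuous_fourierChar continuous_inner
    g.integrable (integrable_twist g v)
  have hL : ∀ ξ : ℂ, VectorFourier.fourierIntegral Real.fourierChar volume (innerₗ ℂ) (⇑g) ξ
      = 𝓕 g ξ := by
    intro ξ
    rw [SchwartzMap.fourier_coe]
    rfl
  have hR : ∀ z : ℂ, VectorFourier.fourierIntegral Real.fourierChar volume (-(innerₗ ℂ).flip)
      (fun ξ : ℂ => Real.fourierChar (inner ℝ v ξ) • 𝓕 g ξ) z = g (z + v) := by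
    intro z
    rw [← schwartz_twist_inv g v z, VectorFourier.fourierIntegral]
    refine integral_congr_ae (Filter.Eventually.of_forall fun ξ => ?_)
    simp only [LinearMap.neg_apply, LinearMap.flip_apply, innerₗ_apply_apply, neg_neg]
  simp only [hL, hR] at key
  have e1 : (fun z : ℂ => (innerSL ℂ : ℂ →L⋆[ℂ] ℂ →L[ℂ] ℂ) (g z) (g (z + v)))
      = fun z : ℂ => (starRingEnd ℂ (g z)) * g (z + v) := by
    funext z
    simp [mul_comm]
  have e2 : (fun ξ : ℂ => (innerSL ℂ : ℂ →L⋆[ℂ] ℂ →L[ℂ] ℂ) (𝓕 g ξ)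
        (Real.fourierChar (inner ℝ v ξ) • 𝓕 g ξ))
      = fun ξ : ℂ => ((‖𝓕 g ξ‖ ^ 2 : ℝ) : ℂ) * exp (2 * Real.pi * (inner ℝ v ξ : ℝ) * I) := by
    funext ξ
    rw [Circle.smul_def, Real.fourierChar_apply]
    simp only [innerSL_apply_apply, RCLike.inner_apply, smul_eq_mul]
    have : (((‖𝓕 g ξ‖ ^ 2 : ℝ)) : ℂ) = 𝓕 g ξ * starRingEnd ℂ (𝓕 g ξ) := by
      rw [Complex.mul_conj, Complex.normSq_eq_norm_sq]
    rw [this]
    push_cast
    ring_nf
  rw [← e1, ← e2]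
  exact key.symm

/-- Sketch: `<ρ e^{it}, ξ> = ρ ‖ξ‖ cos (t - arg ξ)`; use periodicity of the integrand. -/
theorem circle_avg (ξ : ℂ) (ρ : ℝ) :
    (1 / (2 * Real.pi)) * ∫ t in (0 : ℝ)..(2 * Real.pi),
        Real.cos (2 * Real.pi * (inner ℝ ((ρ : ℂ) * exp (t * I)) ξ : ℝ))
      = J0 (2 * Real.pi * ρ * ‖ξ‖) := by
  have h1 : ∀ t : ℝ, (inner ℝ ((ρ : ℂ) * exp (t * I)) ξ : ℝ) = ρ * ‖ξ‖ * Real.cos (t - arg ξ) := by
    intro t
    rw [Complex.inner]
    conv_lhs => rw [← Complex.norm_mul_exp_arg_mul_I ξ]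
    rw [map_mul, Complex.conj_ofReal]
    have : (starRingEnd ℂ) (exp (t * I)) = exp (-(t * I)) := by
      rw [← Complex.exp_conj]; simp
    rw [this]
    have e : (‖ξ‖ * exp (arg ξ * I)) * ((ρ : ℂ) * exp (-(t * I)))
        = ((ρ * ‖ξ‖ : ℝ) : ℂ) * exp ((arg ξ - t : ℝ) * I) := by
      have : exp (((arg ξ - t : ℝ) : ℂ) * I) = exp (-(t * I)) * exp (arg ξ * I) := by
        rw [← Complex.exp_add]; congr 1; push_cast; ring
      rw [this]; push_cast; ring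
    rw [e, Complex.re_ofReal_mul, Complex.exp_ofReal_mul_I_re, ← Real.cos_neg]
    congr 2; ring
  set x : ℝ := 2 * Real.pi * ρ * ‖ξ‖ with hx
  have h2 : ∀ t : ℝ, Real.cos (2 * Real.pi * (inner ℝ ((ρ : ℂ) * exp (t * I)) ξ : ℝ))
      = (fun s : ℝ => Real.cos (x * Real.sin s)) (t - arg ξ + Real.pi / 2) := by
    intro t
    simp only [h1, Real.sin_add_pi_div_two, hx]
    congr 1; ring
  simp_rw [h2]
  have hper : Function.Periodic (fun s : ℝ => Real.cos (x * Real.sin s)) (2 * Real.pi) := by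
    intro s; simp [Real.sin_add_two_pi]
  have h3 : ∫ t in (0 : ℝ)..(2 * Real.pi), (fun s : ℝ => Real.cos (x * Real.sin s)) (t - arg ξ + Real.pi / 2)
      = ∫ s in (0 : ℝ)..(2 * Real.pi), Real.cos (x * Real.sin s) := by
    have e1 : ∀ t : ℝ, t - arg ξ + Real.pi / 2 = t + (Real.pi / 2 - arg ξ) := fun t => by ring
    simp_rw [e1]
    rw [intervalIntegral.integral_comp_add_right (fun s : ℝ => Real.cos (x * Real.sin s))]
    have := hper.intervalIntegral_add_eq (Real.pi / 2 - arg ξ) 0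
    rw [zero_add] at this ⊢
    rw [← this]
    congr 1; ring
  rw [h3]
  have hcont : Continuous fun s : ℝ => Real.cos (x * Real.sin s) := by fun_prop
  have h4 : ∫ s in (0 : ℝ)..(2 * Real.pi), Real.cos (x * Real.sin s)
      = (∫ s in (0 : ℝ)..Real.pi, Real.cos (x * Real.sin s))
        + ∫ s in (Real.pi)..(2 * Real.pi), Real.cos (x * Real.sin s) :=
    (intervalIntegral.integral_add_adjacent_intervals (hcont.intervalIntegrable _ _)
      (hcont.intervalIntegrable _ _)).symm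
  have h5 : ∫ s in (Real.pi)..(2 * Real.pi), Real.cos (x * Real.sin s)
      = ∫ s in (0 : ℝ)..Real.pi, Real.cos (x * Real.sin s) := by
    have := intervalIntegral.integral_comp_add_right (a := 0) (b := Real.pi)
      (fun s : ℝ => Real.cos (x * Real.sin s)) Real.pi
    rw [zero_add, ← two_mul] at this
    rw [← this]
    congr 1; funext s
    rw [Real.sin_add_pi, mul_neg, Real.cos_neg]
  rw [h4, h5, J0]
  have : Real.pi ≠ 0 := Real.pi_ne_zero
  field_simp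
  ring

private theorem integrable_sq (g : 𝓢(ℂ, ℂ)) : Integrable (fun ξ : ℂ => ‖𝓕 g ξ‖ ^ 2) :=
  ((𝓕 g).memLp 2 volume).integrable_norm_pow (by norm_num)

private theorem norm_exp_aux (a : ℝ) (v ξ : ℂ) :
    ‖((a : ℝ) : ℂ) * exp (2 * Real.pi * (inner ℝ v ξ : ℝ) * I)‖ = |a| := by
  have : (2 * Real.pi * (inner ℝ v ξ : ℝ) * I : ℂ) = ((2 * Real.pi * (inner ℝ v ξ : ℝ) : ℝ) : ℂ) * I := by
    push_cast; ring
  rw [norm_mul, this, Complex.norm_exp_ofReal_mul_I, mul_one, Complex.norm_real, Real.norm_eq_abs]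

/-- Dominated convergence in `schwartz_corr`. -/
theorem continuous_schwartz_corr (g : 𝓢(ℂ, ℂ)) :
    Continuous fun v : ℂ => ∫ z, (starRingEnd ℂ (g z)) * g (z + v) := by
  simp_rw [schwartz_corr g]
  refine continuous_of_dominated (bound := fun ξ => ‖𝓕 g ξ‖ ^ 2) ?_ ?_ (integrable_sq g) ?_
  · intro v
    refine Continuous.aestronglyMeasurable ?_
    have h1 : Continuous fun ξ : ℂ => 𝓕 g ξ := (𝓕 g).continuous
    have h2 : Continuous fun ξ : ℂ => (inner ℝ v ξ : ℝ) := by fun_prop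
    fun_prop
  · intro v
    refine Filter.Eventually.of_forall fun ξ => ?_
    rw [norm_exp_aux, abs_of_nonneg (by positivity)]
  · refine Filter.Eventually.of_forall fun ξ => ?_
    have h2 : Continuous fun v : ℂ => (inner ℝ v ξ : ℝ) := by fun_prop
    fun_prop

private theorem integrable_corr (g : 𝓢(ℂ, ℂ)) (v : ℂ) :
    Integrable fun ξ : ℂ => ((‖𝓕 g ξ‖ ^ 2 : ℝ) : ℂ) * exp (2 * Real.pi * (inner ℝ v ξ : ℝ) * I) := by
  refine (integrable_sq g).mono ?_ ?_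
  · refine Continuous.aestronglyMeasurable ?_
    have h1 : Continuous fun ξ : ℂ => 𝓕 g ξ := (𝓕 g).continuous
    have h2 : Continuous fun ξ : ℂ => (inner ℝ v ξ : ℝ) := by fun_prop
    fun_prop
  · refine Filter.Eventually.of_forall fun ξ => ?_
    rw [norm_exp_aux, Real.norm_eq_abs]

private theorem corr_re (g : 𝓢(ℂ, ℂ)) (v : ℂ) :
    (∫ z, (starRingEnd ℂ (g z)) * g (z + v)).re
      = ∫ ξ, ‖𝓕 g ξ‖ ^ 2 * Real.cos (2 * Real.pi * (inner ℝ v ξ : ℝ)) := by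
  rw [schwartz_corr, ← reCLM_apply, ← ContinuousLinearMap.integral_comp_comm _ (integrable_corr g v)]
  refine integral_congr_ae (Filter.Eventually.of_forall fun ξ => ?_)
  have : (2 * Real.pi * (inner ℝ v ξ : ℝ) * I : ℂ) = ((2 * Real.pi * (inner ℝ v ξ : ℝ) : ℝ) : ℂ) * I := by
    push_cast; ring
  simp only [reCLM_apply]
  rw [this, Complex.re_ofReal_mul, Complex.exp_ofReal_mul_I_re]

/-- Fubini in `schwartz_corr`, with `circle_avg`. -/
theorem schwartz_avg (g : 𝓢(ℂ, ℂ)) (ρ : ℝ) :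
    (1 / (2 * Real.pi)) * ∫ t in (0 : ℝ)..(2 * Real.pi),
        (∫ z, (starRingEnd ℂ (g z)) * g (z + (ρ : ℂ) * exp (t * I))).re
      = ∫ ξ, ‖𝓕 g ξ‖ ^ 2 * J0 (2 * Real.pi * ρ * ‖ξ‖) := by
  simp_rw [corr_re, ← circle_avg]
  have hpi : (0:ℝ) ≤ 2 * Real.pi := by positivity
  rw [intervalIntegral.integral_of_le hpi, integral_integral_swap]
  · rw [← integral_const_mul]
    refine integral_congr_ae (Filter.Eventually.of_forall fun ξ => ?_)
    simp only
    rw [intervalIntegral.integral_of_le hpi, integral_const_mul]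
    ring
  · have hb : Integrable (fun p : ℝ × ℂ => (1 : ℝ) * ‖𝓕 g p.2‖ ^ 2)
        ((volume.restrict (Set.Ioc 0 (2 * Real.pi))).prod (volume : Measure ℂ)) := by
      refine Integrable.mul_prod (f := fun _ : ℝ => (1 : ℝ)) ?_ (integrable_sq g)
      exact integrable_const _
    refine hb.mono ?_ ?_
    · refine Continuous.aestronglyMeasurable ?_
      have h1 : Continuous fun p : ℝ × ℂ => 𝓕 g p.2 := (𝓕 g).continuous.comp continuous_snd
      have h2 : Continuous fun p : ℝ × ℂ => (inner ℝ ((ρ : ℂ) * exp (p.1 * I)) p.2 : ℝ) := by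
        fun_prop
      simp only [Function.uncurry_def]
      fun_prop
    · refine Filter.Eventually.of_forall fun p => ?_
      simp only [Function.uncurry_def, norm_mul, one_mul, Real.norm_eq_abs]
      have := Real.abs_cos_le_one (2 * Real.pi * (inner ℝ ((ρ : ℂ) * exp (p.1 * I)) p.2 : ℝ))
      calc _ ≤ |‖𝓕 g p.2‖ ^ 2| * 1 := mul_le_mul_of_nonneg_left this (abs_nonneg _)
        _ = _ := by simp

private theorem abs_J0_le (x : ℝ) : |J0 x| ≤ 1 := by
  unfold J0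
  have h1 : ‖∫ t in (0 : ℝ)..Real.pi, Real.cos (x * Real.sin t)‖ ≤ 1 * |Real.pi - 0| :=
    intervalIntegral.norm_integral_le_of_norm_le_const fun t _ => by
      rw [Real.norm_eq_abs]; exact Real.abs_cos_le_one _
  rw [Real.norm_eq_abs, sub_zero, abs_of_pos Real.pi_pos, one_mul] at h1
  rw [abs_mul, abs_of_pos (by positivity : (0:ℝ) < 1 / Real.pi)]
  calc _ ≤ (1 / Real.pi) * Real.pi := mul_le_mul_of_nonneg_left h1 (by positivity)
    _ = 1 := by field_simp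

private theorem continuous_J0 : Continuous J0 := by
  unfold J0
  refine continuous_const.mul ?_
  exact intervalIntegral.continuous_parametric_intervalIntegral_of_continuous' (by fun_prop) _ _

private theorem integrable_J0 (g : 𝓢(ℂ, ℂ)) (ρ : ℝ) :
    Integrable fun ξ : ℂ => ‖𝓕 g ξ‖ ^ 2 * J0 (2 * Real.pi * ρ * ‖ξ‖) := by
  refine (integrable_sq g).mono ?_ ?_
  · refine Continuous.aestronglyMeasurable ?_
    have h1 : Continuous fun ξ : ℂ => 𝓕 g ξ := (𝓕 g).continuous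
    have h2 : Continuous fun ξ : ℂ => J0 (2 * Real.pi * ρ * ‖ξ‖) :=
      continuous_J0.comp (by fun_prop)
    fun_prop
  · refine Filter.Eventually.of_forall fun ξ => ?_
    rw [norm_mul]
    calc _ ≤ ‖‖𝓕 g ξ‖ ^ 2‖ * 1 := by
          refine mul_le_mul_of_nonneg_left ?_ (norm_nonneg _)
          rw [Real.norm_eq_abs]; exact abs_J0_le _
      _ = _ := by ring

/-- Positivity for Schwartz functions (with Plancherel, `SchwartzMap.integral_norm_sq_fourier`). -/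
theorem schwartz_pos (g : 𝓢(ℂ, ℂ)) {m r : ℝ} (hr : 0 ≤ r)
    (hm : ∀ x : ℝ, 0 ≤ x → 0 ≤ m + J0 x + J0 (r * x)) :
    0 ≤ m * (∫ z, (starRingEnd ℂ (g z)) * g z).re
      + (1 / (2 * Real.pi)) * (∫ t in (0 : ℝ)..(2 * Real.pi),
        (∫ z, (starRingEnd ℂ (g z)) * g (z + exp (t * I))).re)
      + (1 / (2 * Real.pi)) * (∫ t in (0 : ℝ)..(2 * Real.pi),
        (∫ z, (starRingEnd ℂ (g z)) * g (z + (r : ℂ) * exp (t * I))).re) := by
  have h0 : (∫ z, (starRingEnd ℂ (g z)) * g z).re = ∫ ξ, ‖𝓕 g ξ‖ ^ 2 := by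
    have := corr_re g 0
    simpa using this
  have h1 : (1 / (2 * Real.pi)) * ∫ t in (0 : ℝ)..(2 * Real.pi),
        (∫ z, (starRingEnd ℂ (g z)) * g (z + exp (t * I))).re
      = ∫ ξ, ‖𝓕 g ξ‖ ^ 2 * J0 (2 * Real.pi * 1 * ‖ξ‖) := by
    have := schwartz_avg g 1
    simpa using this
  have hadd : Integrable fun ξ : ℂ => m * ‖𝓕 g ξ‖ ^ 2 + ‖𝓕 g ξ‖ ^ 2 * J0 (2 * Real.pi * 1 * ‖ξ‖) :=
    ((integrable_sq g).const_mul m).add (integrable_J0 g 1)
  rw [h0, h1, schwartz_avg g r, ← integral_const_mul,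
    ← integral_add ((integrable_sq g).const_mul m) (integrable_J0 g 1),
    ← integral_add hadd (integrable_J0 g r)]
  refine integral_nonneg fun ξ => ?_
  have h := hm (2 * Real.pi * ‖ξ‖) (by positivity)
  have e : m * ‖𝓕 g ξ‖ ^ 2 + ‖𝓕 g ξ‖ ^ 2 * J0 (2 * Real.pi * 1 * ‖ξ‖)
      + ‖𝓕 g ξ‖ ^ 2 * J0 (2 * Real.pi * r * ‖ξ‖)
      = ‖𝓕 g ξ‖ ^ 2 * (m + J0 (2 * Real.pi * ‖ξ‖) + J0 (r * (2 * Real.pi * ‖ξ‖))) := by
    rw [mul_one, show 2 * Real.pi * r * ‖ξ‖ = r * (2 * Real.pi * ‖ξ‖) by ring]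
    ring
  have : 0 ≤ ‖𝓕 g ξ‖ ^ 2 * (m + J0 (2 * Real.pi * ‖ξ‖) + J0 (r * (2 * Real.pi * ‖ξ‖))) :=
    mul_nonneg (by positivity) h
  exact e.symm ▸ this

end Pool.Agent.Lib.P3852e9
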