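import Mathlib
import Pool.Agent.Lib.P3852e9.Defs
import Pool.Agent.Lib.P3852e9.Schwartz

/-!
# Correlations of square-integrable functions on the plane
-/

set_option autoImplicit false

namespace Pool.Agent.Lib.P3852e9

open MeasureTheory SchwartzMap FourierTransform Complex

/-- the correlation of two functions -/
noncomputable def cor (f g : ℂ → ℂ) : ℂ := ∫ z, (starRingEnd ℂ (f z)) * g z

/-- the `L²` norm -/
noncomputable def nn (f : ℂ → ℂ) : ℝ := (eLpNorm f 2 (volume : Measure ℂ)).toReal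

lemma nn_nonneg (f : ℂ → ℂ) : 0 ≤ nn f := ENNReal.toReal_nonneg

lemma cor_eq_inner {f g : ℂ → ℂ} (hf : MemLp f 2 volume) (hg : MemLp g 2 volume) :
    cor f g = inner ℂ hf.toLp hg.toLp := by
  rw [L2.inner_def, cor]
  apply integral_congr_ae
  filter_upwards [hf.coeFn_toLp, hg.coeFn_toLp] with z h1 h2
  rw [h1, h2]
  rw [RCLike.inner_apply, mul_comm]

lemma cor_integrable {f g : ℂ → ℂ} (hf : MemLp f 2 volume) (hg : MemLp g 2 volume) :
    Integrable (fun z => (starRingEnd ℂ (f z)) * g z) := by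
  have h := L2.integrable_inner (𝕜 := ℂ) hf.toLp hg.toLp
  refine h.congr ?_
  filter_upwards [hf.coeFn_toLp, hg.coeFn_toLp] with z h1 h2
  rw [h1, h2]
  rw [RCLike.inner_apply, mul_comm]

lemma cor_le {f g : ℂ → ℂ} (hf : MemLp f 2 volume) (hg : MemLp g 2 volume) :
    ‖cor f g‖ ≤ nn f * nn g := by
  rw [cor_eq_inner hf hg]
  refine (norm_inner_le_norm _ _).trans (le_of_eq ?_)
  rw [Lp.norm_toLp, Lp.norm_toLp]
  rfl

/-- translates -/
def tr (v : ℂ) (f : ℂ → ℂ) : ℂ → ℂ := fun z => f (z + v)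

lemma tr_memLp {f : ℂ → ℂ} (hf : MemLp f 2 volume) (v : ℂ) : MemLp (tr v f) 2 volume :=
  hf.comp_measurePreserving (measurePreserving_add_right volume v)

lemma nn_tr {f : ℂ → ℂ} (hf : MemLp f 2 volume) (v : ℂ) : nn (tr v f) = nn f := by
  unfold nn
  congr 1
  exact eLpNorm_comp_measurePreserving hf.aestronglyMeasurable
    (measurePreserving_add_right volume v)

lemma nn_add_le {f g : ℂ → ℂ} (hf : MemLp f 2 volume) (hg : MemLp g 2 volume) :
    nn (f + g) ≤ nn f + nn g := by
  unfold nn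
  rw [← ENNReal.toReal_add hf.eLpNorm_ne_top hg.eLpNorm_ne_top]
  apply ENNReal.toReal_mono (ENNReal.add_ne_top.2 ⟨hf.eLpNorm_ne_top, hg.eLpNorm_ne_top⟩)
  exact eLpNorm_add_le hf.aestronglyMeasurable hg.aestronglyMeasurable (by norm_num)

lemma cor_diff {f g : ℂ → ℂ} (hf : MemLp f 2 volume) (hg : MemLp g 2 volume) (v : ℂ) :
    ‖cor f (tr v f) - cor g (tr v g)‖ ≤ nn (f - g) * (2 * nn f + nn (f - g)) := by
  have hd : MemLp (f - g) 2 volume := hf.sub hg
  have e1 : cor f (tr v f) - cor g (tr v g) = cor (f - g) (tr v f) + cor g (tr v (f - g)) := by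
    unfold cor
    rw [← integral_sub (cor_integrable hf (tr_memLp hf v)) (cor_integrable hg (tr_memLp hg v)),
      ← integral_add (cor_integrable hd (tr_memLp hf v)) (cor_integrable hg (tr_memLp hd v))]
    congr 1
    funext z
    simp only [tr, Pi.sub_apply, map_sub]
    ring
  have hg2 : nn g ≤ nn f + nn (f - g) := by
    have h1 : g = f + (-(f - g)) := by
      funext z; simp
    have h2 : nn (-(f - g)) = nn (f - g) := by
      unfold nn
      rw [eLpNorm_neg]
    calc nn g = nn (f + (-(f - g))) := by rw [← h1]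
      _ ≤ nn f + nn (-(f - g)) := nn_add_le hf hd.neg
      _ = _ := by rw [h2]
  rw [e1]
  have h0 := nn_nonneg (f - g)
  calc ‖cor (f - g) (tr v f) + cor g (tr v (f - g))‖
      ≤ ‖cor (f - g) (tr v f)‖ + ‖cor g (tr v (f - g))‖ := norm_add_le _ _
    _ ≤ nn (f - g) * nn f + nn g * nn (f - g) := by
        apply add_le_add
        · have := cor_le hd (tr_memLp hf v)
          rwa [nn_tr hf] at this
        · have := cor_le hg (tr_memLp hd v)
          rwa [nn_tr hd] at this
    _ ≤ nn (f - g) * nn f + (nn f + nn (f - g)) * nn (f - g) := by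
        have := mul_le_mul_of_nonneg_right hg2 h0
        linarith
    _ = _ := by ring

lemma exists_schwartz {f : ℂ → ℂ} (hf : MemLp f 2 volume) {η : ℝ} (hη : 0 < η) :
    ∃ g : 𝓢(ℂ, ℂ), nn (f - g) < η := by
  have hd := SchwartzMap.denseRange_toLpCLM (E := ℂ) (F := ℂ) (p := 2) (μ := volume)
    ENNReal.ofNat_ne_top
  obtain ⟨g, hg⟩ := hd.exists_dist_lt hf.toLp hη
  refine ⟨g, ?_⟩
  rw [SchwartzMap.toLpCLM_apply, dist_eq_norm] at hg
  have e : hf.toLp - g.toLp 2 volume = (hf.sub (g.memLp 2 volume)).toLp := by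
    rw [MemLp.toLp_sub]
    rfl
  rw [e, Lp.norm_toLp] at hg
  exact hg

/-- Sketch: choose a Schwartz function `g` close to `F` in `L²`
(`SchwartzMap.denseRange_toLpCLM`); Cauchy-Schwarz and translation invariance. -/
theorem corr_approx {F : ℂ → ℝ} (hF : MemLp F 2 volume) {ε : ℝ} (hε : 0 < ε) :
    ∃ g : 𝓢(ℂ, ℂ), ∀ v : ℂ,
      |(∫ z, F z * F (z + v)) - (∫ z, (starRingEnd ℂ (g z)) * g (z + v)).re| ≤ ε := by
  set f : ℂ → ℂ := fun z => (F z : ℂ) with hfdef
  have hf : MemLp f 2 volume := hF.ofReal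
  set N := nn f with hN
  have hN0 : 0 ≤ N := nn_nonneg f
  set η : ℝ := min 1 (ε / (2 * N + 1)) with hη
  have hη0 : 0 < η := lt_min one_pos (by positivity)
  obtain ⟨g, hg⟩ := exists_schwartz hf hη0
  refine ⟨g, fun v => ?_⟩
  have h1 := cor_diff hf (g.memLp 2 volume) v
  have h2 : cor f (tr v f) = ((∫ z, F z * F (z + v) : ℝ) : ℂ) := by
    unfold cor tr
    rw [← integral_complex_ofReal]
    congr 1
    funext z
    simp only [hfdef, Complex.conj_ofReal, Complex.ofReal_mul]
  have h3 : cor g (tr v g) = ∫ z, (starRingEnd ℂ (g z)) * g (z + v) := rfl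
  rw [h2, h3] at h1
  have h4 : |(∫ z, F z * F (z + v)) - (∫ z, (starRingEnd ℂ (g z)) * g (z + v)).re| ≤
      ‖((∫ z, F z * F (z + v) : ℝ) : ℂ) - ∫ z, (starRingEnd ℂ (g z)) * g (z + v)‖ := by
    have := Complex.abs_re_le_norm
      (((∫ z, F z * F (z + v) : ℝ) : ℂ) - ∫ z, (starRingEnd ℂ (g z)) * g (z + v))
    rwa [Complex.sub_re, Complex.ofReal_re] at this
  refine h4.trans (h1.trans ?_)
  have h5 : nn (f - g) ≤ η := hg.le
  have h6 : η ≤ 1 := min_le_left _ _
  have h7 : η ≤ ε / (2 * N + 1) := min_le_right _ _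
  have h8 := nn_nonneg (f - g)
  calc nn (f - g) * (2 * nn f + nn (f - g)) ≤ η * (2 * N + 1) := by
        apply mul_le_mul h5 (by linarith) (by positivity) hη0.le
    _ ≤ ε / (2 * N + 1) * (2 * N + 1) := mul_le_mul_of_nonneg_right h7 (by positivity)
    _ = ε := by field_simp

/-- A uniform limit of continuous functions. -/
theorem continuous_corr {F : ℂ → ℝ} (hF : MemLp F 2 volume) :
    Continuous fun v : ℂ => ∫ z, F z * F (z + v) := by
  refine continuous_of_uniform_approx_of_continuous fun u hu => ?_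
  obtain ⟨ε, hε, hu⟩ := Metric.mem_uniformity_dist.1 hu
  obtain ⟨g, hg⟩ := corr_approx hF (half_pos hε)
  refine ⟨fun v => (∫ z, (starRingEnd ℂ (g z)) * g (z + v)).re,
    Complex.continuous_re.comp (continuous_schwartz_corr g), fun v => hu ?_⟩
  rw [Real.dist_eq]
  exact lt_of_le_of_lt (hg v) (half_lt_self hε)

/-- averages of close functions are close -/
lemma avg_close {A B : ℝ → ℝ} (hA : Continuous A) (hB : Continuous B) {ε : ℝ}
    (h : ∀ t, |A t - B t| ≤ ε) :
    (1 / (2 * Real.pi)) * (∫ t in (0 : ℝ)..(2 * Real.pi), B t) ≤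
      (1 / (2 * Real.pi)) * (∫ t in (0 : ℝ)..(2 * Real.pi), A t) + ε := by
  have hpi := Real.pi_pos
  have h1 : ∫ t in (0 : ℝ)..(2 * Real.pi), B t ≤ ∫ t in (0 : ℝ)..(2 * Real.pi), (A t + ε) := by
    apply intervalIntegral.integral_mono_on (by positivity) (hB.intervalIntegrable _ _)
      ((hA.add continuous_const).intervalIntegrable _ _)
    intro t _
    have := abs_le.1 (h t)
    show B t ≤ A t + ε
    linarith [this.1]
  rw [intervalIntegral.integral_add (hA.intervalIntegrable _ _)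
    (continuous_const.intervalIntegrable _ _), intervalIntegral.integral_const, smul_eq_mul] at h1
  calc (1 / (2 * Real.pi)) * (∫ t in (0 : ℝ)..(2 * Real.pi), B t)
      ≤ (1 / (2 * Real.pi)) * ((∫ t in (0 : ℝ)..(2 * Real.pi), A t) + (2 * Real.pi - 0) * ε) :=
        mul_le_mul_of_nonneg_left h1 (by positivity)
    _ = _ := by field_simp; ring

/-- Positivity for square-integrable functions. -/
theorem l2_pos {F : ℂ → ℝ} (hF : MemLp F 2 volume) {m r : ℝ} (hr : 0 ≤ r)
    (hm : ∀ x : ℝ, 0 ≤ x → 0 ≤ m + J0 x + J0 (r * x)) :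
    0 ≤ m * (∫ z, F z * F z)
      + (1 / (2 * Real.pi)) * (∫ t in (0 : ℝ)..(2 * Real.pi), ∫ z, F z * F (z + exp (t * I)))
      + (1 / (2 * Real.pi)) * (∫ t in (0 : ℝ)..(2 * Real.pi),
          ∫ z, F z * F (z + (r : ℂ) * exp (t * I))) := by
  apply le_of_forall_pos_le_add
  intro δ hδ
  set ε : ℝ := δ / (|m| + 2) with hε
  have hm0 : 0 ≤ |m| := abs_nonneg m
  have hε0 : 0 < ε := by positivity
  obtain ⟨g, hg⟩ := corr_approx hF hε0
  have hpos := schwartz_pos g hr hm
  have hc1 : Continuous fun t : ℝ => exp (t * I) := by fun_prop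
  have hc2 : Continuous fun t : ℝ => (r : ℂ) * exp (t * I) := by fun_prop
  have hFc := continuous_corr hF
  have hGc : Continuous fun v : ℂ => (∫ z, (starRingEnd ℂ (g z)) * g (z + v)).re :=
    Complex.continuous_re.comp (continuous_schwartz_corr g)
  have k1 := avg_close (hFc.comp hc1) (hGc.comp hc1) (fun t => hg (exp (t * I)))
  have k2 := avg_close (hFc.comp hc2) (hGc.comp hc2) (fun t => hg ((r : ℂ) * exp (t * I)))
  have k0 := hg 0
  simp only [add_zero] at k0
  have k3 : m * (∫ z, (starRingEnd ℂ (g z)) * g z).re ≤ m * (∫ z, F z * F z) + |m| * ε := by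
    have h1 : |m * ((∫ z, F z * F z) - (∫ z, (starRingEnd ℂ (g z)) * g z).re)| ≤ |m| * ε := by
      rw [abs_mul]
      exact mul_le_mul_of_nonneg_left k0 hm0
    have := (abs_le.1 h1).1
    linarith
  have hsum : |m| * ε + ε + ε = δ := by
    rw [hε]; field_simp; ring
  simp only [Function.comp_apply] at k1 k2
  linarith

end Pool.Agent.Lib.P3852e9
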