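import Mathlib
import Pool.Agent.Lib.P3852e9.Defs
import Pool.Agent.Lib.P3852e9.BesselBound
import Pool.Agent.Lib.P3852e9.Dens
import Pool.Agent.Lib.P3852e9.Avg

set_option autoImplicit false

namespace Pool.Agent.Lib.P3852e9

open MeasureTheory Complex

/-- A Lebesgue measurable 2-colouring of the plane does not avoid two sizes with ratio at
least 2 (sizes `1` and `r`). -/
theorem partB (f : ℂ → Bool) (hf : NullMeasurableSet {z | f z = true} volume) {r : ℝ}
    (h2 : 2 ≤ r) (ha : AvTri f 1 1 1) (hr : AvTri f r r r) : False := by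
  have hm : ∀ x : ℝ, 0 ≤ x → 0 ≤ 0.666 + J0 x + J0 (r * x) := by
    intro x hx
    have := bessel_lower (x := x) (y := r * x) hx (by nlinarith)
    linarith
  set R : ℝ := max r (8000 * (1 + r)) with hRdef
  have hRr : r ≤ R := le_max_left _ _
  have hR1 : 8000 * (1 + r) ≤ R := le_max_right _ _
  have hR0 : 0 < R := by linarith
  have hmem := cut_memLp f hf R
  have hpos := l2_pos hmem (r := r) (m := 0.666) (by linarith) hm
  rw [cut_sq f hR0.le] at hpos
  have h1 := avg_bound f hf (ρ := 1) (R := R) one_pos (by linarith) ha (continuous_corr hmem)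
  have h3 := avg_bound f hf (ρ := r) (R := R) (by linarith) hRr hr (continuous_corr hmem)
  simp only [Complex.ofReal_one, one_mul] at h1
  have hpi := Real.pi_pos
  have key : 0 ≤ Real.pi * R * ((0.666 - 2 / 3) * R + 5 * (1 + r)) := by nlinarith
  have hneg : (0.666 - 2 / 3) * R + 5 * (1 + r) < 0 := by nlinarith
  have : Real.pi * R * ((0.666 - 2 / 3) * R + 5 * (1 + r)) < 0 :=
    mul_neg_of_pos_of_neg (mul_pos hpi hR0) hneg
  linarith

end Pool.Agent.Lib.P3852e9
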