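import Mathlib

set_option autoImplicit false

namespace Pool.Agent.Lib.P3852e9

/-- The integer combination `i (π/3) + j g + k g'`. -/
noncomputable def dynComb (g g' : ℝ) (v : ℤ × ℤ × ℤ) : ℝ :=
  v.1 * (Real.pi / 3) + v.2.1 * g + v.2.2 * g'

theorem dynComb_add (g g' : ℝ) (v w : ℤ × ℤ × ℤ) :
    dynComb g g' (v + w) = dynComb g g' v + dynComb g g' w := by
  unfold dynComb
  simp only [Prod.fst_add, Prod.snd_add]
  push_cast
  ring

theorem dynComb_neg (g g' : ℝ) (v : ℤ × ℤ × ℤ) :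
    dynComb g g' (-v) = -dynComb g g' v := by
  unfold dynComb
  simp only [Prod.fst_neg, Prod.snd_neg]
  push_cast
  ring

theorem dynComb_zero (g g' : ℝ) : dynComb g g' 0 = 0 := by
  unfold dynComb
  simp

/-- Density of the set of points all of whose translates lie in a dense open set. -/
theorem dense_allTranslates {S : Set ℝ} (hS : IsOpen S) (hd : Dense S) (g g' : ℝ) :
    Dense {t : ℝ | ∀ v : ℤ × ℤ × ℤ, t + dynComb g g' v ∈ S} := by
  have : {t : ℝ | ∀ v : ℤ × ℤ × ℤ, t + dynComb g g' v ∈ S} =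
      ⋂ v : ℤ × ℤ × ℤ, (fun t : ℝ => t + dynComb g g' v) ⁻¹' S := by
    ext t
    simp
  rw [this]
  apply dense_iInter_of_isOpen
  · intro v
    exact hS.preimage (continuous_add_const _)
  · intro v
    exact hd.preimage (Homeomorph.addRight (dynComb g g' v)).isOpenMap

theorem dyn_exp_pow (x a : ℝ) (k m : ℤ) (n : ℕ) (hn : k = n ∨ k = -n)
    (hk : (k : ℝ) * a = 2 * Real.pi) (hx : (m : ℝ) * a = x) :
    Complex.exp ((x : ℂ) * Complex.I) ^ n = 1 := by
  rw [← Complex.exp_nat_mul, Complex.exp_eq_one_iff]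
  rcases hn with hn | hn
  · refine ⟨m, ?_⟩
    have e1 : (n : ℝ) * x = m * (2 * Real.pi) := by
      have : (n : ℝ) = (k : ℝ) := by rw [hn]; simp
      rw [this, ← hx, ← hk]
      ring
    have e2 : (n : ℂ) * (x : ℂ) = (m : ℂ) * (2 * Real.pi) := by
      exact_mod_cast congrArg (fun x : ℝ => (x : ℂ)) e1
    rw [← mul_assoc, e2]
    ring
  · refine ⟨-m, ?_⟩
    have e1 : (n : ℝ) * x = -m * (2 * Real.pi) := by
      have : (n : ℝ) = -(k : ℝ) := by rw [hn]; simp
      rw [this, ← hx, ← hk]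
      ring
    have e2 : (n : ℂ) * (x : ℂ) = -(m : ℂ) * (2 * Real.pi) := by
      exact_mod_cast congrArg (fun x : ℝ => (x : ℂ)) e1
    rw [← mul_assoc, e2]
    push_cast
    ring

/-- Dynamics on the circles around a good boundary point.

Sketch. Let `H` be the additive subgroup of the reals generated by `π/3, g, g'` (countable; it
contains `2π = 6 (π/3)`). Let `M` be the set of `t` with `t + h ∈ (P ∪ Q) ∩ (P' ∪ Q')` for all
`h ∈ H`: a countable intersection of dense open sets, so dense, and `M + h = M` for `h ∈ H`.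
For `t ∈ M`: `t ∈ P ↔ t + π/3 ∈ Q ↔ t + 2π/3 ∈ P ↔ t + π ∈ Q`; also
`t ∈ P ↔ t + g ∈ Q' ↔ (t + g + g') - g' ∈ Q' ↔ t + (g + g') ∈ P`, and similarly with
`g - g'`. So `H₀ = {h ∈ H | ∀ t ∈ M, (t + h ∈ P ↔ t ∈ P)}` is a subgroup containing `2π`,
`g + g'`, `g - g'` but neither `π` nor `π/3` (as `M` is nonempty). `H₀` is not dense: take
`t ∈ M`; then `t`, `t + π/3` lie in different ones of the open sets `P`, `Q`, and density would give
`h ∈ H₀` with `t + h` close to `t + π/3`, so in the other set. By `AddSubgroup.dense_or_cyclic`,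
`H₀ = ℤ a`; `2π = k a` with `k` odd (otherwise `π = (k/2) a ∈ H₀`), `g + g' = m a`,
`g - g' = l a`; take `n = |k|`. -/
theorem odd_order {P Q P' Q' : Set ℝ} (hP : IsOpen P) (hQ : IsOpen Q) (hP' : IsOpen P')
    (hQ' : IsOpen Q') (hd : Dense (P ∪ Q)) (hd' : Dense (P' ∪ Q')) (hPQ : Disjoint P Q)
    (hPQ' : Disjoint P' Q') (hperP : ∀ t, t ∈ P ↔ t + 2 * Real.pi ∈ P)
    (hperQ : ∀ t, t ∈ Q ↔ t + 2 * Real.pi ∈ Q)
    (h60P : ∀ t, t ∈ P → t + Real.pi / 3 ∉ P) (h60Q : ∀ t, t ∈ Q → t + Real.pi / 3 ∉ Q)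
    (g g' : ℝ)
    (hgP : ∀ t ∈ P, t + g ∉ P' ∧ t - g ∉ P' ∧ t + g' ∉ P' ∧ t - g' ∉ P')
    (hgQ : ∀ t ∈ Q, t + g ∉ Q' ∧ t - g ∉ Q' ∧ t + g' ∉ Q' ∧ t - g' ∉ Q') :
    ∃ n : ℕ, Odd n ∧ Complex.exp (((g + g' : ℝ) : ℂ) * Complex.I) ^ n = 1 ∧
      Complex.exp (((g - g' : ℝ) : ℂ) * Complex.I) ^ n = 1 := by
  classical
  set M : Set ℝ := {t : ℝ | ∀ v : ℤ × ℤ × ℤ, t + dynComb g g' v ∈ (P ∪ Q) ∩ (P' ∪ Q')} with hM
  have hMd : Dense M := by
    apply dense_allTranslates
    · exact (hP.union hQ).inter (hP'.union hQ')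
    · exact hd.inter_of_isOpen_left hd' (hP.union hQ)
  obtain ⟨t0, ht0⟩ : M.Nonempty := hMd.nonempty
  have hMadd : ∀ t ∈ M, ∀ v, t + dynComb g g' v ∈ M := by
    intro t ht v w
    have := ht (v + w)
    rw [dynComb_add, ← add_assoc] at this
    exact this
  have hM1 : ∀ t ∈ M, t ∈ P ∪ Q := by
    intro t ht
    have := (ht 0).1
    rwa [dynComb_zero, add_zero] at this
  have hM2 : ∀ t ∈ M, t ∈ P' ∪ Q' := by
    intro t ht
    have := (ht 0).2
    rwa [dynComb_zero, add_zero] at this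
  have hnot : ∀ t, t ∈ P → t ∈ Q → False := fun t h1 h2 => Set.disjoint_left.mp hPQ h1 h2
  -- membership of the translates
  have c1 : dynComb g g' (1, 0, 0) = Real.pi / 3 := by unfold dynComb; simp
  have c2 : dynComb g g' (0, 1, 0) = g := by unfold dynComb; simp
  have c3 : dynComb g g' (0, 0, 1) = g' := by unfold dynComb; simp
  have c4 : dynComb g g' (0, 1, 1) = g + g' := by unfold dynComb; simp
  have c5 : dynComb g g' (0, 1, -1) = g - g' := by unfold dynComb; simp; ring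
  have c6 : dynComb g g' (6, 0, 0) = 2 * Real.pi := by unfold dynComb; push_cast; ring
  have m60 : ∀ t ∈ M, t + Real.pi / 3 ∈ M := fun t ht => c1 ▸ hMadd t ht (1, 0, 0)
  have mg : ∀ t ∈ M, t + g ∈ M := fun t ht => by
    have := hMadd t ht (0, 1, 0); rwa [c2] at this
  have mgg : ∀ t ∈ M, t + (g + g') ∈ M := fun t ht => by
    have := hMadd t ht (0, 1, 1); rwa [c4] at this
  have mgg' : ∀ t ∈ M, t + (g - g') ∈ M := fun t ht => by
    have := hMadd t ht (0, 1, -1); rwa [c5] at this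
  have s1 : ∀ t ∈ M, (t ∈ P ↔ t + Real.pi / 3 ∈ Q) := by
    intro t ht
    constructor
    · intro h
      rcases hM1 _ (m60 t ht) with h' | h'
      · exact absurd h' (h60P t h)
      · exact h'
    · intro h
      rcases hM1 _ ht with h' | h'
      · exact h'
      · exact absurd h (h60Q t h')
  have s2 : ∀ t ∈ M, (t ∈ Q ↔ t + Real.pi / 3 ∈ P) := by
    intro t ht
    constructor
    · intro h
      rcases hM1 _ (m60 t ht) with h' | h'
      · exact h'
      · exact absurd h' (h60Q t h)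
    · intro h
      rcases hM1 _ ht with h' | h'
      · exact absurd h (h60P t h')
      · exact h'
  have s3 : ∀ t ∈ M, (t ∈ P ↔ t + g ∈ Q') := by
    intro t ht
    constructor
    · intro h
      rcases hM2 _ (mg t ht) with h' | h'
      · exact absurd h' (hgP t h).1
      · exact h'
    · intro h
      rcases hM1 _ ht with h' | h'
      · exact h'
      · exact absurd h (hgQ t h').1
  have s4 : ∀ t ∈ M, (t + (g + g') ∈ P ↔ t + g ∈ Q') := by
    intro t ht
    have e : t + (g + g') - g' = t + g := by ring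
    constructor
    · intro h
      rcases hM2 _ (mg t ht) with h' | h'
      · have := (hgP _ h).2.2.2
        rw [e] at this
        exact absurd h' this
      · exact h'
    · intro h
      rcases hM1 _ (mgg t ht) with h' | h'
      · exact h'
      · have := (hgQ _ h').2.2.2
        rw [e] at this
        exact absurd h this
  have s5 : ∀ t ∈ M, (t + (g - g') ∈ P ↔ t + g ∈ Q') := by
    intro t ht
    have e : t + (g - g') + g' = t + g := by ring
    constructor
    · intro h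
      rcases hM2 _ (mg t ht) with h' | h'
      · have := (hgP _ h).2.2.1
        rw [e] at this
        exact absurd h' this
      · exact h'
    · intro h
      rcases hM1 _ (mgg' t ht) with h' | h'
      · exact h'
      · have := (hgQ _ h').2.2.1
        rw [e] at this
        exact absurd h this
  -- the subgroup
  let H₀ : AddSubgroup ℝ :=
    { carrier := {h | (∃ v, h = dynComb g g' v) ∧ ∀ t ∈ M, (t + h ∈ P ↔ t ∈ P)}
      zero_mem' := ⟨⟨0, (dynComb_zero g g').symm⟩, fun t _ => by rw [add_zero]⟩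
      add_mem' := by
        rintro x y ⟨⟨v, hv⟩, hx⟩ ⟨⟨w, hw⟩, hy⟩
        refine ⟨⟨v + w, by rw [dynComb_add, hv, hw]⟩, fun t ht => ?_⟩
        have h1 : t + x ∈ M := hv ▸ hMadd t ht v
        have h2 := hy (t + x) h1
        rw [← add_assoc, h2, hx t ht]
      neg_mem' := by
        rintro x ⟨⟨v, hv⟩, hx⟩
        refine ⟨⟨-v, by rw [dynComb_neg, hv]⟩, fun t ht => ?_⟩
        have h1 : t + -x ∈ M := by
          have := hMadd t ht (-v)
          rwa [dynComb_neg, ← hv] at this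
        have h2 := hx (t + -x) h1
        rw [neg_add_cancel_right] at h2
        exact h2.symm }
  have memH : ∀ h, h ∈ H₀ ↔ (∃ v, h = dynComb g g' v) ∧ ∀ t ∈ M, (t + h ∈ P ↔ t ∈ P) :=
    fun h => Iff.rfl
  have h2pi : 2 * Real.pi ∈ H₀ := by
    rw [memH]
    exact ⟨⟨(6, 0, 0), c6.symm⟩, fun t _ => (hperP t).symm⟩
  have hsum : g + g' ∈ H₀ := by
    rw [memH]
    exact ⟨⟨(0, 1, 1), c4.symm⟩, fun t ht => (s4 t ht).trans (s3 t ht).symm⟩
  have hdiff : g - g' ∈ H₀ := by
    rw [memH]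
    exact ⟨⟨(0, 1, -1), c5.symm⟩, fun t ht => (s5 t ht).trans (s3 t ht).symm⟩
  have hpi : Real.pi ∉ H₀ := by
    intro h
    rw [memH] at h
    have h0 := h.2 t0 ht0
    have a1 := m60 t0 ht0
    have a2 := m60 _ a1
    have e : t0 + Real.pi / 3 + Real.pi / 3 + Real.pi / 3 = t0 + Real.pi := by ring
    have b1 := s1 t0 ht0
    have b2 := s2 _ a1
    have b3 := s1 _ a2
    rw [e] at b3
    -- t0 ∈ P ↔ t0 + π ∈ Q
    have b4 : t0 ∈ P ↔ t0 + Real.pi ∈ Q := b1.trans (b2.trans b3)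
    rcases hM1 t0 ht0 with hp | hq
    · exact hnot _ (h0.mpr hp) (b4.mp hp)
    · have a3 := m60 _ a2
      rw [e] at a3
      rcases hM1 _ a3 with h' | h'
      · exact hnot _ (h0.mp h') hq
      · exact hnot _ (b4.mpr h') hq
  have hnd : ¬ Dense (H₀ : Set ℝ) := by
    intro hden
    rcases hM1 t0 ht0 with hp | hq
    · have hq1 : t0 + Real.pi / 3 ∈ Q := (s1 t0 ht0).mp hp
      obtain ⟨h, hh1, hh2⟩ := hden.exists_mem_open
        (hQ.preimage (continuous_const_add t0)) ⟨Real.pi / 3, hq1⟩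
      have hh : h ∈ H₀ := hh1
      rw [memH] at hh
      exact hnot _ ((hh.2 t0 ht0).mpr hp) hh2
    · have hq1 : t0 + Real.pi / 3 ∈ P := (s2 t0 ht0).mp hq
      obtain ⟨h, hh1, hh2⟩ := hden.exists_mem_open
        (hP.preimage (continuous_const_add t0)) ⟨Real.pi / 3, hq1⟩
      have hh : h ∈ H₀ := hh1
      rw [memH] at hh
      exact hnot _ ((hh.2 t0 ht0).mp hh2) hq
  obtain ⟨a, ha⟩ := (AddSubgroup.dense_or_cyclic H₀).resolve_left hnd
  have hcyc : ∀ x, x ∈ H₀ ↔ ∃ k : ℤ, k • a = x := by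
    intro x
    rw [ha, AddSubgroup.mem_closure_singleton]
  obtain ⟨k, hk⟩ := (hcyc _).mp h2pi
  obtain ⟨m, hm⟩ := (hcyc _).mp hsum
  obtain ⟨l, hl⟩ := (hcyc _).mp hdiff
  have hkodd : Odd k := by
    rw [← Int.not_even_iff_odd]
    rintro ⟨j, hj⟩
    apply hpi
    rw [hcyc]
    refine ⟨j, ?_⟩
    rw [hj] at hk
    rw [add_smul] at hk
    linarith
  obtain ⟨n, hn⟩ := Int.eq_nat_or_neg k
  have hnodd : Odd n := by
    rcases hn with hn | hn
    · rw [hn] at hkodd
      exact_mod_cast hkodd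
    · rw [hn, odd_neg] at hkodd
      exact_mod_cast hkodd
  rw [zsmul_eq_mul] at hk hm hl
  exact ⟨n, hnodd, dyn_exp_pow (g + g') a k m n hn hk hm,
    dyn_exp_pow (g - g') a k l n hn hk hl⟩

end Pool.Agent.Lib.P3852e9
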