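import Mathlib

set_option autoImplicit false

namespace Pool.Agent.Lib.P3852e9

open Polynomial in
lemma roots_square {n : ℕ} (hn : Odd n) {a b : ℂ} (ha : a ^ n = 1) (hb : b ^ n = 1)
    (h : a + a⁻¹ + b + b⁻¹ = 1) : a ^ 2 + (a ^ 2)⁻¹ + b ^ 2 + (b ^ 2)⁻¹ = 1 := by
  have hn0 : n ≠ 0 := by
    rintro rfl
    exact absurd hn (by decide)
  have hz := Complex.isPrimitiveRoot_exp n hn0
  set z := Complex.exp (2 * Real.pi * Complex.I / n) with hzdef
  have : NeZero n := ⟨hn0⟩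
  obtain ⟨k, _, rfl⟩ := hz.eq_pow_of_pow_eq_one ha
  obtain ⟨l, _, rfl⟩ := hz.eq_pow_of_pow_eq_one hb
  have hinv : ∀ w : ℂ, w ^ n = 1 → w ^ (n - 1) = w⁻¹ := by
    intro w hw
    refine eq_inv_of_mul_eq_one_left ?_
    rw [← pow_succ, Nat.sub_add_cancel (Nat.one_le_iff_ne_zero.mpr hn0), hw]
  let P : ℤ[X] := X ^ k + X ^ (k * (n - 1)) + X ^ l + X ^ (l * (n - 1)) - 1
  have hP : ∀ w : ℂ, aeval w P =
      w ^ k + (w ^ k) ^ (n - 1) + w ^ l + (w ^ l) ^ (n - 1) - 1 := by
    intro w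
    simp only [P, map_add, map_sub, map_pow, aeval_X, map_one, pow_mul]
  have h1 : aeval z P = 0 := by
    rw [hP, hinv _ ha, hinv _ hb, h, sub_self]
  have hint : IsIntegral ℤ z := hz.isIntegral (Nat.pos_of_ne_zero hn0)
  have hdvd : minpoly ℤ z ∣ P := minpoly.isIntegrallyClosed_dvd hint h1
  have hcop : Nat.Coprime 2 n := by
    rw [Nat.coprime_two_left]
    exact hn
  rw [hz.minpoly_eq_pow_coprime hcop] at hdvd
  have h2 : aeval (z ^ 2) P = 0 := by
    obtain ⟨R, hR⟩ := hdvd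
    rw [hR, map_mul, minpoly.aeval, zero_mul]
  rw [hP] at h2
  have e1 : ∀ m : ℕ, (z ^ 2) ^ m = (z ^ m) ^ 2 := fun m => by
    rw [← pow_mul, ← pow_mul, mul_comm]
  rw [e1 k, e1 l] at h2
  have ha2 : ((z ^ k) ^ 2) ^ n = 1 := by rw [← pow_mul, mul_comm 2 n, pow_mul, ha, one_pow]
  have hb2 : ((z ^ l) ^ 2) ^ n = 1 := by rw [← pow_mul, mul_comm 2 n, pow_mul, hb, one_pow]
  rw [hinv _ ha2, hinv _ hb2] at h2
  linear_combination h2

lemma roots_eq_one_of_two {n : ℕ} (hn : Odd n) {a : ℂ} (ha : a ^ n = 1) (h : a + a⁻¹ = 2) :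
    a = 1 := by
  have hn0 : n ≠ 0 := by
    rintro rfl
    exact absurd hn (by decide)
  have ha0 : a ≠ 0 := by
    rintro rfl
    rw [zero_pow hn0] at ha
    exact zero_ne_one ha
  have h1 : (a - 1) ^ 2 = 0 := by
    have h2 : a * (a + a⁻¹) = a * 2 := by rw [h]
    rw [mul_add, mul_inv_cancel₀ ha0] at h2
    linear_combination h2
  have h3 := pow_eq_zero_iff (two_ne_zero) |>.mp h1
  exact sub_eq_zero.mp h3

/-- Two roots of unity of odd order with `a + 1/a + b + 1/b = 1`: one of them is `1`.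

Sketch. Let `z` be a primitive `n`-th root of unity, `a = z ^ k`, `b = z ^ l`. The integer polynomial
`P = X^k + X^((n-1)k) + X^l + X^((n-1)l) - 1` vanishes at `z`, so the minimal polynomial of `z` over
the integers divides it; as `n` is odd, `z ^ 2` has the same minimal polynomial
(`IsPrimitiveRoot.minpoly_eq_pow`, or `Polynomial.cyclotomic_eq_minpoly` twice), so
`a^2 + a^(-2) + b^2 + b^(-2) = 1`. With `x = a + 1/a`, `y = b + 1/b`: `x + y = 1`,
`x^2 + y^2 = 5`, hence `x * y = -2`, `{x, y} = {2, -1}`, and `x = 2` forces `a = 1`. -/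
theorem roots_eq_one {n : ℕ} (hn : Odd n) {a b : ℂ} (ha : a ^ n = 1) (hb : b ^ n = 1)
    (h : a + a⁻¹ + b + b⁻¹ = 1) : a = 1 ∨ b = 1 := by
  have hn0 : n ≠ 0 := by
    rintro rfl
    exact absurd hn (by decide)
  have h2 := roots_square hn ha hb h
  have hne : ∀ w : ℂ, w ^ n = 1 → w * w⁻¹ = 1 := by
    intro w hw
    refine mul_inv_cancel₀ ?_
    rintro rfl
    rw [zero_pow hn0] at hw
    exact zero_ne_one hw
  have ea := hne a ha
  have eb := hne b hb
  rw [inv_pow a 2 |>.symm, inv_pow b 2 |>.symm] at h2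
  set x := a + a⁻¹ with hx
  set y := b + b⁻¹ with hy
  have hxy : x + y = 1 := by
    rw [hx, hy]
    linear_combination h
  have hx2 : x ^ 2 = a ^ 2 + a⁻¹ ^ 2 + 2 := by
    rw [hx]
    linear_combination 2 * ea
  have hy2 : y ^ 2 = b ^ 2 + b⁻¹ ^ 2 + 2 := by
    rw [hy]
    linear_combination 2 * eb
  have hq : (x - 2) * (x + 1) = 0 := by
    have hsum : x ^ 2 + y ^ 2 = 5 := by
      rw [hx2, hy2]
      linear_combination h2
    have hy' : y = 1 - x := by linear_combination hxy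
    rw [hy'] at hsum
    linear_combination (1 / 2 : ℂ) * hsum
  rcases mul_eq_zero.mp hq with h3 | h3
  · left
    exact roots_eq_one_of_two hn ha (by linear_combination h3)
  · right
    exact roots_eq_one_of_two hn hb (by linear_combination hxy - h3)

end Pool.Agent.Lib.P3852e9
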