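import Mathlib
import Pool.Agent.Lib.P3852e9.Defs

set_option autoImplicit false

namespace Pool.Agent.Lib.P3852e9

/-- The rotation by sixty degrees. -/
noncomputable def om : ℂ := ⟨1 / 2, Real.sqrt 3 / 2⟩

lemma om_sq : om * om = om - 1 := by
  have h : Real.sqrt 3 * Real.sqrt 3 = 3 := Real.mul_self_sqrt (by norm_num)
  apply Complex.ext
  · simp only [om, Complex.mul_re, Complex.sub_re, Complex.one_re]
    nlinarith
  · simp only [om, Complex.mul_im, Complex.sub_im, Complex.one_im]
    ring

lemma norm_om : ‖om‖ = 1 := by
  have h : Real.sqrt 3 * Real.sqrt 3 = 3 := Real.mul_self_sqrt (by norm_num)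
  have : ‖om‖ ^ 2 = 1 := by
    rw [← Complex.normSq_eq_norm_sq, Complex.normSq_apply]
    simp only [om]
    nlinarith
  nlinarith [norm_nonneg om]

lemma norm_one_sub_om : ‖1 - om‖ = 1 := by
  have h : Real.sqrt 3 * Real.sqrt 3 = 3 := Real.mul_self_sqrt (by norm_num)
  have : ‖1 - om‖ ^ 2 = 1 := by
    rw [← Complex.normSq_eq_norm_sq, Complex.normSq_apply]
    simp only [om, Complex.sub_re, Complex.sub_im, Complex.one_re, Complex.one_im]
    nlinarith
  nlinarith [norm_nonneg (1 - om)]

/-- A triangle `p, q, p + ω (q - p)` is equilateral. -/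
lemma avTri_om {f : ℂ → Bool} {a : ℝ} (ha : AvTri f a a a) {p q s : ℂ} (hpq : dist p q = a)
    (hs : s - p = om * (q - p)) : ¬ (f p = f q ∧ f q = f s) := by
  apply ha p q s hpq
  · rw [dist_eq_norm, ← hpq, dist_eq_norm]
    have : q - s = (1 - om) * (q - p) := by linear_combination -hs
    rw [this, norm_mul, norm_one_sub_om, one_mul, norm_sub_rev]
  · rw [dist_comm, dist_eq_norm, hs, norm_mul, norm_om, one_mul, ← hpq, dist_eq_norm,
      norm_sub_rev]

/-- If a colouring avoids the equilateral triangles of sizes `a`, `b`, `c`, then it avoids the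
triangles with side lengths `a, b, c`. -/
theorem avTri_of_avoid {f : ℂ → Bool} {a b c : ℝ} (ha : AvTri f a a a) (hb : AvTri f b b b)
    (hc : AvTri f c c c) : AvTri f a b c := by
  intro x y z hxy hyz hxz ⟨h1, h2⟩
  have hsq := om_sq
  have na : ‖y - x‖ = a := by rw [← dist_eq_norm, dist_comm]; exact hxy
  have nb : ‖z - y‖ = b := by rw [← dist_eq_norm, dist_comm]; exact hyz
  have nc : ‖z - x‖ = c := by rw [← dist_eq_norm, dist_comm]; exact hxz
  have no := norm_om
  -- `X = y - x`, `Y = z - x`
  have T1 := avTri_om hc (p := x) (q := z) (s := x + om * (z - x)) hxz (by ring)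
  have T2 := avTri_om ha (p := x) (q := x + (1 - om) * (y - x)) (s := y)
    (by rw [dist_self_add_right, norm_mul, norm_one_sub_om, na, one_mul])
    (by linear_combination (y - x) * hsq)
  have T3 := avTri_om hb (p := y) (q := z) (s := x + (1 - om) * (y - x) + om * (z - x)) hyz
    (by ring)
  have T4 := avTri_om hb (p := x) (q := x - om * (y - x) + om * (z - x))
    (s := x + (1 - om) * (y - x) - (1 - om) * (z - x))
    (by
      have : x - om * (y - x) + om * (z - x) = x + om * (z - y) := by ring
      rw [this, dist_self_add_right, norm_mul, no, nb, one_mul])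
    (by linear_combination (y - z) * hsq)
  have T5 := avTri_om hc (p := x + (1 - om) * (y - x))
    (q := x + (1 - om) * (y - x) + om * (z - x))
    (s := x + (1 - om) * (y - x) - (1 - om) * (z - x))
    (by rw [dist_self_add_right, norm_mul, no, nc, one_mul])
    (by linear_combination (x - z) * hsq)
  have T6 := avTri_om ha (p := x + om * (z - x))
    (q := x - om * (y - x) + om * (z - x))
    (s := x + (1 - om) * (y - x) + om * (z - x))
    (by
      have : x - om * (y - x) + om * (z - x) = x + om * (z - x) + om * (x - y) := by ring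
      rw [this, dist_self_add_right, norm_mul, no, norm_sub_rev, na, one_mul])
    (by linear_combination (y - x) * hsq)
  generalize f (x + om * (z - x)) = c1 at *
  generalize f (x + (1 - om) * (y - x)) = c2 at *
  generalize f (x + (1 - om) * (y - x) + om * (z - x)) = c3 at *
  generalize f (x - om * (y - x) + om * (z - x)) = c4 at *
  generalize f (x + (1 - om) * (y - x) - (1 - om) * (z - x)) = c5 at *
  generalize f x = cx at *
  generalize f y = cy at *
  generalize f z = cz at *
  clear hxy hyz hxz hsq na nb nc no ha hb hc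
  revert c1 c2 c3 c4 c5 cx cy cz
  decide

end Pool.Agent.Lib.P3852e9
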