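import Mathlib
import Pool.Agent.Lib.P3852e9.Conf

/-!
MODULE P3852e9.Orbit (0.7 h): a closed set of pairs invariant under the rotations and the swap
projects onto the plane.

Let `ω = cis (π/3)`, `ξ = cis (2 g)`, `g = arccos (1 / (2 r))`, `1 < r`. Pass to `E' = {(x, d) | (x, x + d) ∈ E}`.
Rotations: `(x, d) → (x, ζ d)`; swap: `(x, d) → (x + d, -d)`. As `ω ^ 3 = -1`: `(x, d) → (x + d, d)`.
Let `𝒜 = {t : ℂ | ∀ x d, (x, x + d) ∈ E → (x + t * d, x + t * d + d) ∈ E}`. Then `1 ∈ 𝒜`, `𝒜` is closed under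
addition, and under multiplication by `ω`, `ω⁻¹`, `ξ`, `ξ⁻¹` (rotate by `ζ`, apply `t`, rotate back by
`ζ⁻¹`), hence under negation (`-1 = ω ^ 3`) and multiplication by `1 + ξ`. So
`(1 + ξ) ^ m ∈ 𝒜` and `ω (1 + ξ) ^ m ∈ 𝒜`; `‖1 + ξ‖ = 2 cos g = 1 / r < 1` and `1 + ξ ≠ 0`. Given `c : ℂ` and
`ε > 0` choose `m` with `T = (1 + ξ) ^ m`, `‖T‖ < ε / 2`, write `c = (a + b ω) T` with `a, b` real and replace
`a, b` by their integer parts: this gives `t ∈ 𝒜` with `‖c - t‖ < ε`. So `𝒜` is dense. If `(x, y) ∈ E` with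
`y ≠ x`, then all `x + t (y - x)`, `t ∈ 𝒜`, are in the projection, so every point of the plane is a
limit of first coordinates of elements of `E`.
-/

set_option autoImplicit false

namespace Pool.Agent.Lib.P3852e9

open Set Topology

namespace OrbitAux

/-- the admissible translations -/
def Tr (F : Set (ℂ × ℂ)) (t : ℂ) : Prop :=
  ∀ x d : ℂ, (x, x + d) ∈ F → (x + t * d, x + t * d + d) ∈ F

theorem Tr.zero (F : Set (ℂ × ℂ)) : Tr F 0 := by
  intro x d h
  rw [zero_mul, add_zero]; exact h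

theorem Tr.add {F : Set (ℂ × ℂ)} {s t : ℂ} (hs : Tr F s) (ht : Tr F t) : Tr F (s + t) := by
  intro x d h
  have h1 := ht _ _ (hs x d h)
  have e1 : x + (s + t) * d = x + s * d + t * d := by ring
  rw [e1]; exact h1

theorem Tr.mul {F : Set (ℂ × ℂ)} {t ζ ζ' : ℂ} (ht : Tr F t) (hζ : ζ' * ζ = 1)
    (h1 : ∀ x d : ℂ, (x, x + d) ∈ F → (x, x + ζ * d) ∈ F)
    (h2 : ∀ x d : ℂ, (x, x + d) ∈ F → (x, x + ζ' * d) ∈ F) : Tr F (ζ * t) := by
  intro x d h
  have h3 := h2 _ _ (ht _ _ (h1 x d h))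
  have e1 : x + ζ * t * d = x + t * (ζ * d) := by ring
  have e2 : ζ' * (ζ * d) = d := by rw [← mul_assoc, hζ, one_mul]
  rw [e2] at h3
  rw [e1]; exact h3

theorem Tr.nsmul {F : Set (ℂ × ℂ)} {t : ℂ} (ht : Tr F t) (n : ℕ) : Tr F (n * t) := by
  induction n with
  | zero =>
    rw [Nat.cast_zero, zero_mul]; exact Tr.zero F
  | succ n ih =>
    have e : ((n + 1 : ℕ) : ℂ) * t = n * t + t := by push_cast; ring
    rw [e]; exact ih.add ht

theorem Tr.zsmul {F : Set (ℂ × ℂ)} {t : ℂ} (ht : Tr F t) (ht' : Tr F (-t)) (n : ℤ) :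
    Tr F (n * t) := by
  obtain ⟨m, rfl | rfl⟩ := n.eq_nat_or_neg
  · have := ht.nsmul m
    exact_mod_cast this
  · have := ht'.nsmul m
    have e : ((-(m : ℤ) : ℤ) : ℂ) * t = m * -t := by push_cast; ring
    rw [e]; exact this

end OrbitAux

open OrbitAux in
theorem orbit {r : ℝ} (hr : 1 < r) {F : Set (ℂ × ℂ)}
    (hrot : ∀ a : ℝ, (a = Real.pi / 3 ∨ a = -(Real.pi / 3) ∨ a = 2 * Real.arccos (1 / (2 * r)) ∨
      a = -(2 * Real.arccos (1 / (2 * r)))) → ∀ x y : ℂ, (x, y) ∈ F → (x, x + cis a * (y - x)) ∈ F)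
    (hswap : ∀ x y : ℂ, (x, y) ∈ F → (y, x) ∈ F) {x y : ℂ} (hxy : (x, y) ∈ F) (hne : x ≠ y) (z : ℂ)
    {ε : ℝ} (hε : 0 < ε) : ∃ p ∈ F, dist p.1 z < ε := by
  have hrot' : ∀ a : ℝ, (a = Real.pi / 3 ∨ a = -(Real.pi / 3) ∨
      a = 2 * Real.arccos (1 / (2 * r)) ∨ a = -(2 * Real.arccos (1 / (2 * r)))) →
      ∀ x d : ℂ, (x, x + d) ∈ F → (x, x + cis a * d) ∈ F := by
    intro a ha x d h
    have h1 := hrot a ha _ _ h
    rwa [add_sub_cancel_left] at h1
  have hω3 : cis (Real.pi / 3) * (cis (Real.pi / 3) * cis (Real.pi / 3)) = -1 := by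
    rw [← cis_add, ← cis_add, ← cis_pi]
    congr 1
    ring
  have hinv : ∀ a : ℝ, cis (-a) * cis a = 1 := by
    intro a
    rw [← cis_add, neg_add_cancel, cis_zero]
  have hTω : ∀ t, Tr F t → Tr F (cis (Real.pi / 3) * t) := fun t ht =>
    ht.mul (hinv _) (hrot' _ (Or.inl rfl)) (hrot' _ (Or.inr (Or.inl rfl)))
  have hTξ : ∀ t, Tr F t → Tr F (cis (2 * Real.arccos (1 / (2 * r))) * t) := fun t ht =>
    ht.mul (hinv _) (hrot' _ (Or.inr (Or.inr (Or.inl rfl))))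
      (hrot' _ (Or.inr (Or.inr (Or.inr rfl))))
  have hneg : ∀ t, Tr F t → Tr F (-t) := by
    intro t ht
    have h1 := hTω _ (hTω _ (hTω _ ht))
    have e : cis (Real.pi / 3) * (cis (Real.pi / 3) * (cis (Real.pi / 3) * t)) = -t := by
      linear_combination t * hω3
    rwa [e] at h1
  have hone : Tr F 1 := by
    intro x d h
    have h1 : (x + d, x + d + -d) ∈ F := by
      have := hswap _ _ h
      rwa [add_neg_cancel_right]
    have h2 := hrot' _ (Or.inl rfl) _ _ (hrot' _ (Or.inl rfl) _ _ (hrot' _ (Or.inl rfl) _ _ h1))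
    have e : cis (Real.pi / 3) * (cis (Real.pi / 3) * (cis (Real.pi / 3) * -d)) = d := by
      linear_combination (-d) * hω3
    rw [e] at h2
    rw [one_mul]; exact h2
  obtain ⟨u, hu⟩ : ∃ u, u = 1 + cis (2 * Real.arccos (1 / (2 * r))) := ⟨_, rfl⟩
  have hr0 : 0 < r := one_pos.trans hr
  have hcos : Real.cos (Real.arccos (1 / (2 * r))) = 1 / (2 * r) := by
    apply Real.cos_arccos
    · have : 0 ≤ 1 / (2 * r) := by positivity
      linarith
    · rw [div_le_one (by positivity)]; linarith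
  have hu' : u = (1 / r : ℝ) * cis (Real.arccos (1 / (2 * r))) := by
    have h1 := cis_add_cis (Real.arccos (1 / (2 * r))) (Real.arccos (1 / (2 * r)))
    rw [sub_self, cis_zero, ← two_mul, hcos] at h1
    rw [hu, h1]
    congr 2
    field_simp
  have hunorm : ‖u‖ = 1 / r := by
    rw [hu', norm_mul, norm_cis, mul_one, Complex.norm_real, Real.norm_of_nonneg (by positivity)]
  have hu0 : u ≠ 0 := by
    rw [← norm_ne_zero_iff, hunorm]; positivity
  have hu1 : ‖u‖ < 1 := by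
    rw [hunorm, div_lt_one hr0]; exact hr
  have hpow : ∀ m : ℕ, Tr F (u ^ m) := by
    intro m
    induction m with
    | zero => rw [pow_zero]; exact hone
    | succ m ih =>
      have h1 := ih.add (hTξ _ ih)
      have e : u ^ m + cis (2 * Real.arccos (1 / (2 * r))) * u ^ m = u ^ (m + 1) := by
        rw [pow_succ]
        nth_rewrite 4 [hu]
        ring
      rwa [e] at h1
  obtain ⟨d, hd⟩ : ∃ d, d = y - x := ⟨_, rfl⟩
  have hd0 : d ≠ 0 := by rw [hd]; exact sub_ne_zero.2 hne.symm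
  have hdn : 0 < ‖d‖ := norm_pos_iff.2 hd0
  obtain ⟨m, hm⟩ := exists_pow_lt_of_lt_one (show 0 < ε / ‖d‖ / 2 by positivity) hu1
  obtain ⟨T, hT⟩ : ∃ T, T = u ^ m := ⟨_, rfl⟩
  have hT0 : T ≠ 0 := by rw [hT]; exact pow_ne_zero _ hu0
  have hTn : ‖T‖ < ε / ‖d‖ / 2 := by rw [hT, norm_pow]; exact hm
  have hTT : Tr F T := by rw [hT]; exact hpow m
  obtain ⟨c, hc⟩ : ∃ c, c = (z - x) / d / T := ⟨_, rfl⟩
  have hs3 : Real.sqrt 3 ≠ 0 := by positivity
  obtain ⟨b, hb⟩ : ∃ b : ℝ, b = c.im * 2 / Real.sqrt 3 := ⟨_, rfl⟩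
  obtain ⟨a, ha⟩ : ∃ a : ℝ, a = c.re - b / 2 := ⟨_, rfl⟩
  have hcab : c = a + b * cis (Real.pi / 3) := by
    apply Complex.ext
    · rw [Complex.add_re, Complex.ofReal_re, Complex.re_ofReal_mul, cis_re,
        Real.cos_pi_div_three, ha]
      ring
    · rw [Complex.add_im, Complex.ofReal_im, Complex.im_ofReal_mul, cis_im,
        Real.sin_pi_div_three, hb]
      field_simp
      ring
  obtain ⟨t, ht⟩ : ∃ t : ℂ, t = (⌊a⌋ : ℂ) * T + (⌊b⌋ : ℂ) * (cis (Real.pi / 3) * T) := ⟨_, rfl⟩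
  have htT : Tr F t := by
    rw [ht]
    exact (hTT.zsmul (hneg _ hTT) _).add ((hTω _ hTT).zsmul (hneg _ (hTω _ hTT)) _)
  refine ⟨(x + t * d, x + t * d + d), htT x d (by rw [hd, add_sub_cancel]; exact hxy), ?_⟩
  change dist (x + t * d) z < ε
  rw [dist_comm, dist_eq_norm]
  have e1 : z - (x + t * d) = (((Int.fract a : ℝ) : ℂ) + ((Int.fract b : ℝ) : ℂ)
      * cis (Real.pi / 3)) * T * d := by
    have e2 : z - x = c * T * d := by
      rw [hc]; field_simp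
    have e3 : z - (x + t * d) = (c * T - t) * d := by
      linear_combination e2
    rw [e3, hcab, ht]
    unfold Int.fract
    push_cast
    ring
  rw [e1, norm_mul, norm_mul]
  have hfa := Int.fract_nonneg a
  have hfa' := Int.fract_lt_one a
  have hfb := Int.fract_nonneg b
  have hfb' := Int.fract_lt_one b
  have h5 : ‖((Int.fract a : ℝ) : ℂ) + ((Int.fract b : ℝ) : ℂ) * cis (Real.pi / 3)‖ ≤ 2 := by
    refine (norm_add_le _ _).trans ?_
    rw [norm_mul, norm_cis, mul_one, Complex.norm_real, Complex.norm_real,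
      Real.norm_of_nonneg hfa, Real.norm_of_nonneg hfb]
    linarith
  have h6 : ‖((Int.fract a : ℝ) : ℂ) + ((Int.fract b : ℝ) : ℂ) * cis (Real.pi / 3)‖ * ‖T‖ * ‖d‖
      ≤ 2 * ‖T‖ * ‖d‖ := by gcongr
  refine h6.trans_lt ?_
  rw [lt_div_iff₀ (by norm_num : (0 : ℝ) < 2), lt_div_iff₀ hdn] at hTn
  linarith

end Pool.Agent.Lib.P3852e9
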