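import Mathlib
import Pool.Agent.Lib.P3852e9.Defs

set_option autoImplicit false

namespace Pool.Agent.Lib.P3852e9

open Complex

lemma norm_exp_sub_exp_le (s t : ℝ) : ‖exp (s * I) - exp (t * I)‖ ≤ |s - t| := by
  have h1 : exp (s * I) - exp (t * I) = exp (t * I) * (exp (I * ((s - t : ℝ) : ℂ)) - 1) := by
    rw [mul_sub, mul_one, ← Complex.exp_add]
    congr 2
    push_cast
    ring
  rw [h1, norm_mul, Complex.norm_exp_ofReal_mul_I, one_mul]
  exact Real.norm_exp_I_mul_ofReal_sub_one_le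

lemma no_arc_aux {U V : Set ℂ} (hU : IsOpen U) (hV : IsOpen V) (hUV : Disjoint U V)
    (hB : (U ∪ V)ᶜ ⊆ closure U ∩ closure V) {z₁ : ℂ} {ε ρ α β : ℝ} (hρ : 0 < ρ)
    (h : ∀ z ∈ (U ∪ V)ᶜ, dist z z₁ < ε → ∀ t ∈ Set.Ioo α β,
      z + ρ * exp (t * I) ∈ (U ∪ V)ᶜ)
    {a : ℂ} {s s' : ℝ} (ha : a ∈ U) (hs : s ∈ Set.Ioo α β) (hs' : s' ∈ Set.Ioo α β)
    (hd : dist a z₁ + ρ * |s - s'| < ε) : a + ρ * exp (s * I) - ρ * exp (s' * I) ∉ V := by
  intro hb
  set N : Set ℂ := {w | w - ρ * exp (s * I) ∈ U ∧ w - ρ * exp (s' * I) ∈ V ∧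
    dist (w - ρ * exp (s * I)) z₁ + ρ * |s - s'| < ε} with hN
  have hNo : IsOpen N := by
    refine IsOpen.inter (hU.preimage (by fun_prop)) (IsOpen.inter (hV.preimage (by fun_prop)) ?_)
    exact isOpen_lt (f := fun w : ℂ => dist (w - ρ * exp (s * I)) z₁ + ρ * |s - s'|)
      (by fun_prop) continuous_const
  have hNB : N ⊆ (U ∪ V)ᶜ := by
    rintro w ⟨hw1, hw2, hw3⟩
    set γ : ℝ → ℂ := fun t => w - ρ * exp (t * I) with hγ
    have hγc : Continuous γ := by
      rw [hγ]
      fun_prop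
    obtain ⟨t, ht, htB⟩ : ∃ t ∈ Set.uIcc s s', γ t ∉ U ∪ V := by
      by_contra hcon
      push Not at hcon
      have hpre : IsPreconnected (γ '' Set.uIcc s s') :=
        (isPreconnected_uIcc).image γ hγc.continuousOn
      have hsub : γ '' Set.uIcc s s' ⊆ U ∪ V := by
        rintro _ ⟨t, ht, rfl⟩
        exact hcon t ht
      have h1 := hpre.subset_left_of_subset_union hU hV hUV hsub
        ⟨γ s, ⟨s, Set.left_mem_uIcc, rfl⟩, hw1⟩
      exact Set.disjoint_left.mp hUV (h1 ⟨s', Set.right_mem_uIcc, rfl⟩) hw2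
    have htαβ : t ∈ Set.Ioo α β := by
      have : Set.uIcc s s' ⊆ Set.Ioo α β := Set.OrdConnected.uIcc_subset Set.ordConnected_Ioo hs hs'
      exact this ht
    have hdist : dist (γ t) z₁ < ε := by
      refine lt_of_le_of_lt (dist_triangle _ (w - ρ * exp (s * I)) _) ?_
      refine lt_of_le_of_lt ?_ hw3
      rw [add_comm]
      gcongr
      rw [hγ, dist_eq_norm]
      have h1 : w - ρ * exp (t * I) - (w - ρ * exp (s * I)) =
          ρ * (exp (s * I) - exp (t * I)) := by ring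
      simp only
      rw [h1, norm_mul, Complex.norm_real, Real.norm_of_nonneg hρ.le]
      gcongr
      refine (norm_exp_sub_exp_le s t).trans ?_
      rw [Set.mem_uIcc] at ht
      rw [abs_le]
      rcases ht with ht | ht
      · rw [abs_of_nonpos (by linarith)]
        constructor <;> linarith
      · rw [abs_of_nonneg (by linarith)]
        constructor <;> linarith
    have := h (γ t) htB hdist t htαβ
    rw [hγ] at this
    simpa using this
  have hne : a + ρ * exp (s * I) ∈ N := by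
    refine ⟨?_, hb, ?_⟩
    · simpa using ha
    · simpa using hd
  have hcl := (hB (hNB hne)).1
  rw [mem_closure_iff] at hcl
  obtain ⟨x, hxN, hxU⟩ := hcl N hNo hne
  exact hNB hxN (Or.inl hxU)

lemma no_arc_aux2 {U V : Set ℂ} (hU : IsOpen U) (hV : IsOpen V) (hUV : Disjoint U V)
    (hB : (U ∪ V)ᶜ ⊆ closure U ∩ closure V) {z₁ : ℂ} {ε ρ α β : ℝ} (hρ : 0 < ρ)
    (h : ∀ z ∈ (U ∪ V)ᶜ, dist z z₁ < ε → ∀ t ∈ Set.Ioo α β,
      z + ρ * exp (t * I) ∈ (U ∪ V)ᶜ)
    {a : ℂ} {s s' : ℝ} (ha : a ∈ U) (hs : s ∈ Set.Ioo α β) (hs' : s' ∈ Set.Ioo α β)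
    (hd : dist a z₁ + ρ * |s - s'| < ε) : a + ρ * exp (s * I) - ρ * exp (s' * I) ∈ U := by
  by_contra hnot
  have hV' := no_arc_aux hU hV hUV hB hρ h ha hs hs' hd
  have hmem : a + ρ * exp (s * I) - ρ * exp (s' * I) ∈ (U ∪ V)ᶜ := by
    rintro (h1 | h1)
    · exact hnot h1
    · exact hV' h1
  have hcl := (hB hmem).2
  rw [mem_closure_iff] at hcl
  obtain ⟨b, ⟨hb1, hb2⟩, hbV⟩ := hcl
    {b | b - ρ * exp (s * I) + ρ * exp (s' * I) ∈ U ∧
      dist (b - ρ * exp (s * I) + ρ * exp (s' * I)) z₁ + ρ * |s - s'| < ε}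
    (by
      refine IsOpen.inter (hU.preimage (by fun_prop)) ?_
      exact isOpen_lt (f := fun b : ℂ =>
        dist (b - ρ * exp (s * I) + ρ * exp (s' * I)) z₁ + ρ * |s - s'|)
        (by fun_prop) continuous_const)
    (by
      have e1 : a + ρ * exp (s * I) - ρ * exp (s' * I) - ρ * exp (s * I) + ρ * exp (s' * I) = a := by
        ring
      constructor
      · rw [e1]
        exact ha
      · rw [e1]
        exact hd)
  have h3 := no_arc_aux hU hV hUV hB hρ h hb1 hs hs' hb2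
  apply h3
  have : b - ρ * exp (s * I) + ρ * exp (s' * I) + ρ * exp (s * I) - ρ * exp (s' * I) = b := by
    ring
  rw [this]
  exact hbV

lemma exp_diff (c t : ℝ) : exp (((c + t : ℝ) : ℂ) * I) - exp (((c - t : ℝ) : ℂ) * I) =
    2 * Real.sin t * (I * exp (c * I)) := by
  have h1 : ((c + t : ℝ) : ℂ) * I = c * I + t * I := by push_cast; ring
  have h2 : ((c - t : ℝ) : ℂ) * I = c * I + (-t : ℂ) * I := by push_cast; ring
  rw [h1, h2, Complex.exp_add, Complex.exp_add, Complex.exp_mul_I (t : ℂ),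
    Complex.exp_mul_I (-t : ℂ), Complex.cos_neg, Complex.sin_neg, Complex.ofReal_sin]
  ring

/-- No arc stability. `B = (U ∪ V)ᶜ` cannot have, near one of its points, the property that
`z ∈ B` implies `z + ρ e^{it} ∈ B` for all `t` in a fixed open interval. -/
theorem no_arc {U V : Set ℂ} (hU : IsOpen U) (hV : IsOpen V) (hUV : Disjoint U V)
    (hB : (U ∪ V)ᶜ ⊆ closure U ∩ closure V) {z₁ : ℂ} (hz₁ : z₁ ∈ (U ∪ V)ᶜ) {ε ρ α β : ℝ}
    (hε : 0 < ε) (hρ : 0 < ρ) (hαβ : α < β)
    (h : ∀ z ∈ (U ∪ V)ᶜ, dist z z₁ < ε → ∀ t ∈ Set.Ioo α β,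
      z + ρ * Complex.exp (t * Complex.I) ∈ (U ∪ V)ᶜ) : False := by
  -- parameters
  set η : ℝ := min ((β - α) / 4) 1 with hη
  have hη0 : 0 < η := lt_min (by linarith) one_pos
  have hη1 : η ≤ 1 := min_le_right _ _
  have hη4 : η ≤ (β - α) / 4 := min_le_left _ _
  have hsin : 0 < Real.sin η := Real.sin_pos_of_pos_of_lt_pi hη0 (by linarith [Real.pi_gt_three])
  set φ : ℝ := (α + β) / 2 with hφ
  set τ : ℝ := min ((β - α) / 8) (ε / (8 * ρ)) with hτ
  have hτ0 : 0 < τ := lt_min (by linarith) (by positivity)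
  have hτ8 : τ ≤ (β - α) / 8 := min_le_left _ _
  have hτε : ρ * (2 * τ) ≤ ε / 4 := by
    have h1 : τ ≤ ε / (8 * ρ) := min_le_right _ _
    calc ρ * (2 * τ) ≤ ρ * (2 * (ε / (8 * ρ))) := by gcongr
      _ = ε / 4 := by field_simp; ring
  -- small real numbers as `2 ρ sin t`
  obtain ⟨δ, hδ0, hδ⟩ : ∃ δ > 0, ∀ x : ℝ, |x| < δ → ∃ t : ℝ, |t| < τ ∧
      x = 2 * ρ * Real.sin t := by
    have hc : Filter.Tendsto (fun x : ℝ => Real.arcsin (x / (2 * ρ))) (nhds 0) (nhds 0) := by
      have : Continuous fun x : ℝ => Real.arcsin (x / (2 * ρ)) :=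
        Real.continuous_arcsin.comp (by fun_prop)
      have h0 := this.tendsto 0
      simpa using h0
    rw [Metric.tendsto_nhds_nhds] at hc
    obtain ⟨δ, hδ, hδ'⟩ := hc τ hτ0
    refine ⟨min δ (2 * ρ), lt_min hδ (by positivity), fun x hx => ?_⟩
    refine ⟨Real.arcsin (x / (2 * ρ)), ?_, ?_⟩
    · have := hδ' (x := x) (by
        rw [Real.dist_eq, sub_zero]
        exact lt_of_lt_of_le hx (min_le_left _ _))
      rwa [Real.dist_eq, sub_zero] at this
    · have h2 : |x / (2 * ρ)| ≤ 1 := by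
        rw [abs_div, abs_of_pos (by positivity : (0 : ℝ) < 2 * ρ), div_le_one (by positivity)]
        exact (lt_of_lt_of_le hx (min_le_right _ _)).le
      rw [Real.sin_arcsin (abs_le.mp h2).1 (abs_le.mp h2).2]
      field_simp
  -- translation by small multiples of `i e^{ic}`
  have key : ∀ (c : ℝ), c = φ ∨ c = φ + η → ∀ (x : ℝ), |x| < δ → ∀ a ∈ U, dist a z₁ < ε / 2 →
      a + x * (I * exp (c * I)) ∈ U := by
    intro c hc x hx a ha had
    obtain ⟨t, ht, hxt⟩ := hδ x hx
    rw [abs_lt] at ht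
    have hs : c + t ∈ Set.Ioo α β := by
      rcases hc with rfl | rfl <;> constructor <;> linarith [ht.1, ht.2]
    have hs' : c - t ∈ Set.Ioo α β := by
      rcases hc with rfl | rfl <;> constructor <;> linarith [ht.1, ht.2]
    have hd : dist a z₁ + ρ * |(c + t) - (c - t)| < ε := by
      have h1 : (c + t) - (c - t) = 2 * t := by ring
      rw [h1]
      have h2 : ρ * |2 * t| ≤ ρ * (2 * τ) := by
        gcongr
        rw [abs_le]
        constructor <;> linarith [ht.1, ht.2]
      linarith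
    have h3 := no_arc_aux2 hU hV hUV hB hρ h ha hs hs' hd
    have h4 : a + ρ * exp (((c + t : ℝ) : ℂ) * I) - ρ * exp (((c - t : ℝ) : ℂ) * I) =
        a + x * (I * exp (c * I)) := by
      rw [hxt, add_sub_assoc, ← mul_sub, exp_diff]
      push_cast
      ring
    rwa [h4] at h3
  -- the constant
  set C : ℝ := 1 + 1 / Real.sin η with hC
  have hC0 : 0 < C := by positivity
  set κ : ℝ := min (ε / 4) (min (δ / (4 * C)) (ε / (16 * C))) with hκ
  have hκ0 : 0 < κ := lt_min (by positivity) (lt_min (by positivity) (by positivity))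
  have hκ1 : κ ≤ ε / 4 := min_le_left _ _
  have hκ2 : C * (2 * κ) < δ := by
    have : κ ≤ δ / (4 * C) := (min_le_right _ _).trans (min_le_left _ _)
    calc C * (2 * κ) ≤ C * (2 * (δ / (4 * C))) := by gcongr
      _ = δ / 2 := by field_simp; ring
      _ < δ := by linarith
  have hκ3 : C * (2 * κ) ≤ ε / 8 := by
    have : κ ≤ ε / (16 * C) := (min_le_right _ _).trans (min_le_right _ _)
    calc C * (2 * κ) ≤ C * (2 * (ε / (16 * C))) := by gcongr
      _ = ε / 8 := by field_simp; ring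
  obtain ⟨a, haU, haκ⟩ := Metric.mem_closure_iff.mp (hB hz₁).1 κ hκ0
  obtain ⟨b, hbV, hbκ⟩ := Metric.mem_closure_iff.mp (hB hz₁).2 κ hκ0
  rw [dist_comm] at haκ hbκ
  -- decomposition
  set v : ℂ := (b - a) * (-I * exp (-(φ * I))) with hv
  have hvn : ‖v‖ < 2 * κ := by
    rw [hv, norm_mul, norm_mul, norm_neg, Complex.norm_I, one_mul]
    have : ‖exp (-((φ : ℂ) * I))‖ = 1 := by
      rw [← neg_mul, ← Complex.ofReal_neg, Complex.norm_exp_ofReal_mul_I]
    rw [this, mul_one, ← dist_eq_norm]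
    calc dist b a ≤ dist b z₁ + dist z₁ a := dist_triangle _ _ _
      _ = dist b z₁ + dist a z₁ := by rw [dist_comm z₁ a]
      _ < 2 * κ := by linarith
  set y : ℝ := v.im / Real.sin η with hy
  set x : ℝ := v.re - y * Real.cos η with hx
  have hyb : |y| ≤ (1 / Real.sin η) * (2 * κ) := by
    rw [hy, abs_div, abs_of_pos hsin, div_eq_mul_one_div, mul_comm]
    gcongr
    exact (Complex.abs_im_le_norm v).trans hvn.le
  have hxb : |x| ≤ C * (2 * κ) := by
    calc |x| ≤ |v.re| + |y * Real.cos η| := abs_sub _ _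
      _ ≤ 2 * κ + (1 / Real.sin η) * (2 * κ) := by
        refine add_le_add ((Complex.abs_re_le_norm v).trans hvn.le) ?_
        rw [abs_mul]
        calc |y| * |Real.cos η| ≤ |y| * 1 := by
              gcongr
              exact Real.abs_cos_le_one η
          _ = |y| := mul_one _
          _ ≤ _ := hyb
      _ = C * (2 * κ) := by rw [hC]; ring
  have hyb' : |y| ≤ C * (2 * κ) := by
    refine hyb.trans ?_
    gcongr
    rw [hC]
    linarith
  have hdecomp : v = x + y * exp (η * I) := by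
    apply Complex.ext
    · rw [Complex.exp_mul_I]
      simp only [Complex.add_re, Complex.mul_re, Complex.add_im, Complex.mul_im,
        Complex.ofReal_re, Complex.ofReal_im, ← Complex.ofReal_cos, ← Complex.ofReal_sin,
        Complex.I_re, Complex.I_im]
      rw [hx]
      ring
    · rw [Complex.exp_mul_I]
      simp only [Complex.add_re, Complex.mul_re, Complex.add_im, Complex.mul_im,
        Complex.ofReal_re, Complex.ofReal_im, ← Complex.ofReal_cos, ← Complex.ofReal_sin,
        Complex.I_re, Complex.I_im]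
      rw [hy]
      field_simp
      ring
  have hba : b = a + x * (I * exp (φ * I)) + y * (I * exp (((φ + η : ℝ) : ℂ) * I)) := by
    have h1 : exp (((φ + η : ℝ) : ℂ) * I) = exp (φ * I) * exp (η * I) := by
      rw [← Complex.exp_add]; congr 1; push_cast; ring
    have h2 : v * (I * exp (φ * I)) = b - a := by
      rw [hv]
      have h3 : exp (-((φ : ℂ) * I)) * exp (φ * I) = 1 := by
        rw [← Complex.exp_add]; simp
      calc (b - a) * (-I * exp (-(φ * I))) * (I * exp (φ * I)) =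
          (b - a) * (-(I * I)) * (exp (-(φ * I)) * exp (φ * I)) := by ring
        _ = b - a := by rw [h3, Complex.I_mul_I]; ring
    rw [h1]
    have h4 : x * (I * exp (φ * I)) + y * (I * (exp (φ * I) * exp (η * I))) =
        v * (I * exp (φ * I)) := by
      rw [hdecomp]; ring
    rw [add_assoc, h4, h2]
    ring
  have ha' := key φ (Or.inl rfl) x (lt_of_le_of_lt hxb hκ2) a haU (by linarith)
  have hd' : dist (a + x * (I * exp (φ * I))) z₁ < ε / 2 := by
    have h1 : dist (a + x * (I * exp (φ * I))) a = |x| := by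
      rw [dist_self_add_left, norm_mul, norm_mul, Complex.norm_I, Complex.norm_exp_ofReal_mul_I,
        Complex.norm_real, Real.norm_eq_abs]
      ring
    calc dist (a + x * (I * exp (φ * I))) z₁ ≤
        dist (a + x * (I * exp (φ * I))) a + dist a z₁ := dist_triangle _ _ _
      _ < ε / 2 := by rw [h1]; linarith
  have hb' := key (φ + η) (Or.inr rfl) y (lt_of_le_of_lt hyb' hκ2) _ ha' hd'
  rw [← hba] at hb'
  exact Set.disjoint_left.mp hUV hb' hbV

end Pool.Agent.Lib.P3852e9
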