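import Mathlib
import Pool.Agent.Lib.P3852e9.Defs
import Pool.Agent.Lib.P3852e9.NoArc

set_option autoImplicit false

namespace Pool.Agent.Lib.P3852e9

lemma exists_rat_of_not_dense {S : Set ℝ} (h : ¬ Dense S) :
    ∃ p q : ℚ, p < q ∧ ∀ t ∈ Set.Ioo (p : ℝ) (q : ℝ), t ∉ S := by
  rw [Dense] at h
  push Not at h
  obtain ⟨t₀, ht₀⟩ := h
  rw [Metric.mem_closure_iff] at ht₀
  push Not at ht₀
  obtain ⟨δ, hδ, hδ'⟩ := ht₀
  obtain ⟨p, hp1, hp2⟩ := exists_rat_btwn (show t₀ - δ < t₀ by linarith)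
  obtain ⟨q, hq1, hq2⟩ := exists_rat_btwn (show t₀ < t₀ + δ by linarith)
  refine ⟨p, q, ?_, fun t ht htS => ?_⟩
  · exact_mod_cast hp2.trans hq1
  · have h1 := hδ' t htS
    rw [Real.dist_eq] at h1
    have h2 : |t₀ - t| < δ := by
      rw [abs_lt]
      constructor <;> linarith [ht.1, ht.2]
    linarith

/-- Existence of a good boundary point. -/
theorem exists_good {U V : Set ℂ} (hU : IsOpen U) (hV : IsOpen V) (hUV : Disjoint U V)
    (hB : (U ∪ V)ᶜ ⊆ closure U ∩ closure V) (hne : ((U ∪ V)ᶜ).Nonempty) {r : ℝ} (hr : 0 < r) :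
    ∃ z ∈ (U ∪ V)ᶜ, Dense {t : ℝ | z + Complex.exp (t * Complex.I) ∈ U ∪ V} ∧
      Dense {t : ℝ | z + r * Complex.exp (t * Complex.I) ∈ U ∪ V} := by
  by_contra hcon
  push Not at hcon
  set B : Set ℂ := (U ∪ V)ᶜ with hBdef
  have hBc : IsClosed B := (hU.union hV).isClosed_compl
  haveI : CompleteSpace B := hBc.completeSpace_coe
  haveI : Nonempty B := hne.to_subtype
  let R : Bool → ℝ := fun b => if b then 1 else r
  have hR : ∀ b, 0 < R b := by
    intro b
    cases b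
    · exact hr
    · exact one_pos
  let F : (ℚ × ℚ) × Bool → Set B := fun i => {z | i.1.1 < i.1.2 ∧
    ∀ t ∈ Set.Ioo (i.1.1 : ℝ) (i.1.2 : ℝ), (z : ℂ) + R i.2 * Complex.exp (t * Complex.I) ∈ B}
  have hFc : ∀ i, IsClosed (F i) := by
    intro i
    by_cases hi : i.1.1 < i.1.2
    · have : F i = ⋂ t ∈ Set.Ioo (i.1.1 : ℝ) (i.1.2 : ℝ),
          {z : B | (z : ℂ) + R i.2 * Complex.exp (t * Complex.I) ∈ B} := by
        ext z
        simp only [F, Set.mem_setOf_eq, Set.mem_iInter]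
        exact ⟨fun h => h.2, fun h => ⟨hi, h⟩⟩
      rw [this]
      refine isClosed_biInter fun t _ => ?_
      exact hBc.preimage (by fun_prop)
    · have : F i = ∅ := by
        ext z
        simp only [F, Set.mem_setOf_eq, Set.mem_empty_iff_false, iff_false]
        exact fun h => hi h.1
      rw [this]
      exact isClosed_empty
  have hFU : ⋃ i, F i = Set.univ := by
    ext z
    simp only [Set.mem_iUnion, Set.mem_univ, iff_true]
    by_cases h1 : Dense {t : ℝ | (z : ℂ) + Complex.exp (t * Complex.I) ∈ U ∪ V}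
    · obtain ⟨p, q, hpq, h⟩ := exists_rat_of_not_dense (hcon z z.2 h1)
      exact ⟨((p, q), false), hpq, fun t ht => h t ht⟩
    · obtain ⟨p, q, hpq, h⟩ := exists_rat_of_not_dense h1
      refine ⟨((p, q), true), hpq, fun t ht => ?_⟩
      have := h t ht
      simp only [R, if_true, Complex.ofReal_one, one_mul]
      exact this
  obtain ⟨i, z₁, hz₁⟩ := nonempty_interior_of_iUnion_of_closed hFc hFU
  rw [mem_interior_iff_mem_nhds, Metric.mem_nhds_iff] at hz₁
  obtain ⟨ε, hε, hball⟩ := hz₁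
  have hi : i.1.1 < i.1.2 := (hball (Metric.mem_ball_self hε)).1
  refine no_arc hU hV hUV hB z₁.2 hε (hR i.2) (α := i.1.1) (β := i.1.2) (by exact_mod_cast hi) ?_
  intro z hz hd t ht
  have : (⟨z, hz⟩ : B) ∈ Metric.ball z₁ ε := hd
  exact (hball this).2 t ht

end Pool.Agent.Lib.P3852e9
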