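import Mathlib
import Pool.Agent.Lib.P3852e9.Conf
import Pool.Agent.Lib.P3852e9.NoArc
import Pool.Agent.Lib.P3852e9.Good

/-!
MODULE P3852e9.GoodDense (0.5 h): good points are dense in the boundary.

Proof: as `exists_good` in Pool.Agent.Lib.P3852e9.Good, localised: suppose there is no good point
in `ball b ε`, `b ∈ B`. Work in the complete metric space `X = B ∩ closedBall b (ε / 2)` (closed in
`ℂ`); it is a countable union of the closed sets
`F (p, q, j) = {z ∈ X | p < q ∧ ∀ t ∈ Ioo p q, z + R j * cis t ∈ B}`, `p q : ℚ`. Baire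
(`nonempty_interior_of_iUnion_of_closed`) gives `i` and `z₁` interior to `F i` in `X`; but we need a
point `z₁` in the OPEN ball: either use the dense version
(`dense_iUnion_interior_of_closed`: the union of the interiors is dense in `X`, so it contains a point
with `|z₁ - b| < ε / 2`), or the Baire space property of the open subset `B ∩ ball b ε` of `B`
(`IsOpen.baireSpace`). Then `no_arc` (with `ε'` small) gives `False`.
(`Complex.exp (t * Complex.I) = cis t` by definition.)
-/

set_option autoImplicit false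

namespace Pool.Agent.Lib.P3852e9

open Set Topology

theorem good_dense {U V : Set ℂ} {r : ℝ} (h : Conf U V r) {b : ℂ} (hb : b ∈ (U ∪ V)ᶜ) {ε : ℝ}
    (hε : 0 < ε) : ∃ z : ℂ, Good U V r z ∧ dist z b < ε := by
  by_contra hcon
  push Not at hcon
  have hU := h.hU
  have hV := h.hV
  have hr : 0 < r := one_pos.trans h.hr
  obtain ⟨B, hBdef⟩ : ∃ B : Set ℂ, B = (U ∪ V)ᶜ := ⟨_, rfl⟩
  have hBm : ∀ w : ℂ, w ∈ B ↔ w ∈ (U ∪ V)ᶜ := by intro w; rw [hBdef]
  have hBc : IsClosed B := by rw [hBdef]; exact h.isClosed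
  have hbB : b ∈ B := by rw [hBdef]; exact hb
  haveI : CompleteSpace B := hBc.completeSpace_coe
  haveI : Nonempty B := ⟨⟨b, hbB⟩⟩
  let R : Bool → ℝ := fun b => if b then 1 else r
  have hR : ∀ b, 0 < R b := by
    intro b
    cases b
    · exact hr
    · exact one_pos
  let F : Option ((ℚ × ℚ) × Bool) → Set B := fun o => match o with
    | none => {z | ε / 2 ≤ dist (z : ℂ) b}
    | some i => {z | i.1.1 < i.1.2 ∧
        ∀ t ∈ Set.Ioo (i.1.1 : ℝ) (i.1.2 : ℝ), (z : ℂ) + R i.2 * Complex.exp (t * Complex.I) ∈ B}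
  have hFc : ∀ i, IsClosed (F i) := by
    intro o
    cases o with
    | none => exact isClosed_le continuous_const (by fun_prop)
    | some i =>
      by_cases hi : i.1.1 < i.1.2
      · have : F (some i) = ⋂ t ∈ Set.Ioo (i.1.1 : ℝ) (i.1.2 : ℝ),
            {z : B | (z : ℂ) + R i.2 * Complex.exp (t * Complex.I) ∈ B} := by
          ext z
          simp only [F, Set.mem_setOf_eq, Set.mem_iInter]
          exact ⟨fun h => h.2, fun h => ⟨hi, h⟩⟩
        rw [this]
        refine isClosed_biInter fun t _ => ?_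
        exact hBc.preimage (by fun_prop)
      · have : F (some i) = ∅ := by
          ext z
          simp only [F, Set.mem_setOf_eq, Set.mem_empty_iff_false, iff_false]
          exact fun h => hi h.1
        rw [this]
        exact isClosed_empty
  have hFU : ⋃ i, F i = Set.univ := by
    ext z
    simp only [Set.mem_iUnion, Set.mem_univ, iff_true]
    by_cases hz : ε / 2 ≤ dist (z : ℂ) b
    · exact ⟨none, hz⟩
    · rw [not_le] at hz
      have hzB : (z : ℂ) ∈ (U ∪ V)ᶜ := by rw [← hBdef]; exact z.2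
      by_cases h1 : Dense {t : ℝ | (z : ℂ) + cis t ∈ U ∪ V}
      · by_cases h2 : Dense {t : ℝ | (z : ℂ) + r * cis t ∈ U ∪ V}
        · have h3 := hcon z ⟨hzB, h1, h2⟩
          linarith
        · obtain ⟨p, q, hpq, h⟩ := exists_rat_of_not_dense h2
          refine ⟨some ((p, q), false), hpq, fun t ht => ?_⟩
          exact (hBm _).2 (h t ht)
      · obtain ⟨p, q, hpq, h⟩ := exists_rat_of_not_dense h1
        refine ⟨some ((p, q), true), hpq, fun t ht => ?_⟩
        have := h t ht
        simp only [R, if_true, Complex.ofReal_one, one_mul]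
        exact (hBm _).2 this
  have hdense := dense_iUnion_interior_of_closed hFc hFU
  obtain ⟨z₁, hz₁, hz₁'⟩ := Metric.mem_closure_iff.1 (hdense (⟨b, hbB⟩ : B)) (ε / 2) (by linarith)
  obtain ⟨o, hz₁⟩ := Set.mem_iUnion.1 hz₁
  have hd : dist (z₁ : ℂ) b < ε / 2 := by
    rw [dist_comm]; exact hz₁'
  cases o with
  | none =>
    have h1 : z₁ ∈ F none := interior_subset hz₁
    have h2 : ε / 2 ≤ dist (z₁ : ℂ) b := h1
    linarith
  | some i =>
    rw [mem_interior_iff_mem_nhds, Metric.mem_nhds_iff] at hz₁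
    obtain ⟨δ, hδ, hball⟩ := hz₁
    have hi : i.1.1 < i.1.2 := (hball (Metric.mem_ball_self hδ)).1
    have hz₁B : (z₁ : ℂ) ∈ (U ∪ V)ᶜ := by rw [← hBdef]; exact z₁.2
    refine no_arc hU hV h.disj h.bd hz₁B hδ (hR i.2) (α := i.1.1) (β := i.1.2)
      (by exact_mod_cast hi) ?_
    intro z hz hd t ht
    have hzB : z ∈ B := by rw [hBdef]; exact hz
    have : (⟨z, hzB⟩ : B) ∈ Metric.ball z₁ δ := hd
    have h2 : z + R i.2 * Complex.exp (t * Complex.I) ∈ B := (hball this).2 t ht
    exact (hBm _).1 h2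

end Pool.Agent.Lib.P3852e9
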