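import Mathlib
import Pool.Agent.Lib.P3852e9.Conf
import Pool.Agent.Lib.P3852e9.GoodDense

/-!
# The set `E U V r` is nonempty and invariant under rotations
-/

set_option autoImplicit false

namespace Pool.Agent.Lib.P3852e9

open Set Topology

/-- If `S` is open, `T ∪ T'` is dense and the translate of `S` by `a` does not meet `T`, then the
translate of `closure S` is contained in `closure T'`. -/
lemma flip {S T T' : Set ℝ} (hS : IsOpen S) (hd : Dense (T ∪ T')) {a : ℝ}
    (h : ∀ s ∈ S, s + a ∉ T) {t : ℝ} (ht : t ∈ closure S) : t + a ∈ closure T' := by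
  rw [Metric.mem_closure_iff] at ht ⊢
  intro ε hε
  obtain ⟨s, hs, hts⟩ := ht ε hε
  let O : Set ℝ := {u | u - a ∈ S} ∩ {u | dist (t + a) u < ε}
  have hO : IsOpen O := by
    refine (hS.preimage (by fun_prop)).inter ?_
    exact isOpen_lt (by fun_prop) continuous_const
  obtain ⟨u, ⟨hu1, hu2⟩, hu3⟩ := hd.inter_open_nonempty O hO ⟨s + a, by
    refine ⟨?_, ?_⟩
    · simpa using hs
    · change dist (t + a) (s + a) < ε
      rw [dist_add_right]
      exact hts⟩
  refine ⟨u, ?_, hu2⟩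
  rcases hu3 with h3 | h3
  · exact absurd (by simpa using h3) (h _ hu1)
  · exact h3

lemma cisU_open {W : Set ℂ} (hW : IsOpen W) (c z : ℂ) : IsOpen {s : ℝ | z + c * cis s ∈ W} := by
  have hc := continuous_cis
  exact hW.preimage (by fun_prop)

lemma cisU_open' {W : Set ℂ} (hW : IsOpen W) (z : ℂ) : IsOpen {s : ℝ | z + cis s ∈ W} := by
  have hc := continuous_cis
  exact hW.preimage (by fun_prop)

lemma Good.symm {U V : Set ℂ} {r : ℝ} {x : ℂ} (h : Good U V r x) : Good V U r x := by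
  obtain ⟨h1, h2, h3⟩ := h
  rw [Set.union_comm] at h1 h2 h3
  exact ⟨h1, h2, h3⟩

lemma SC.symm {U V : Set ℂ} {x : ℂ} {t : ℝ} (h : SC U V x t) : SC V U x t := by
  obtain ⟨h1, h2, h3⟩ := h
  rw [Set.union_comm] at h1
  exact ⟨h1, h3, h2⟩

/-- one of the two halves of the rotation by `± 60` degrees -/
lemma half60 {U V : Set ℂ} {r : ℝ} (h : Conf U V r) {x : ℂ} (hx : Good U V r x) {t a : ℝ}
    (ha : a = Real.pi / 3 ∨ a = -(Real.pi / 3)) (ht : t ∈ closure {s : ℝ | x + cis s ∈ U}) :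
    t + a ∈ closure {s : ℝ | x + cis s ∈ V} := by
  refine flip (T := {s : ℝ | x + cis s ∈ U}) (cisU_open' h.hU x) hx.2.1 ?_ ht
  intro s hs hs'
  have hs1 : x + cis s ∈ U := hs
  have hs2 : x + cis (s + a) ∈ U := hs'
  have hd : dist (x + cis s) (x + cis (s + a)) = 1 := by
    rcases ha with rfl | rfl
    · exact dist_cis_pi_div_three x s
    · have := dist_cis_pi_div_three x (s + -(Real.pi / 3))
      rw [neg_add_cancel_right] at this
      rw [dist_comm]
      exact this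
  exact h.not_both_U hx.1 (dist_self_cis _ _) (dist_self_cis _ _) hd ⟨hs1, hs2⟩

/-- one of the two halves of the rotation by `± 2 g` -/
lemma halfg {U V : Set ℂ} {r : ℝ} (h : Conf U V r) {x : ℂ} (hx : Good U V r x) {t a : ℝ}
    (ha : a = Real.arccos (1 / (2 * r)) ∨ a = -(Real.arccos (1 / (2 * r))))
    (ht : t ∈ closure {s : ℝ | x + cis s ∈ U}) :
    t + 2 * a ∈ closure {s : ℝ | x + cis s ∈ U} := by
  have hr := h.hr
  have hcos : Real.cos a = 1 / (2 * r) := by
    have h1 : Real.cos (Real.arccos (1 / (2 * r))) = 1 / (2 * r) := by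
      apply Real.cos_arccos
      · have : 0 < 1 / (2 * r) := by positivity
        linarith
      · rw [div_le_one (by positivity)]; linarith
    rcases ha with rfl | rfl
    · exact h1
    · rw [Real.cos_neg]; exact h1
  have hrc : 2 * r * Real.cos a = 1 := by
    rw [hcos]; field_simp
  have h1 : t + a ∈ closure {s : ℝ | x + r * cis s ∈ V} := by
    refine flip (T := {s : ℝ | x + r * cis s ∈ U}) (cisU_open' h.hU x) hx.2.2 ?_ ht
    intro s hs hs'
    have hs1 : x + cis s ∈ U := hs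
    have hs2 : x + r * cis (s + a) ∈ U := hs'
    refine h.not_both_U' hx.1 (dist_self_cis _ _) (dist_self_r_cis _ (by linarith) _)
      (dist_cis_rr x (by linarith) ?_) ⟨hs1, hs2⟩
    rw [show s - (s + a) = -a by ring, Real.cos_neg]
    exact hrc
  have h2 : t + a + a ∈ closure {s : ℝ | x + cis s ∈ U} := by
    refine flip (T := {s : ℝ | x + cis s ∈ V}) (cisU_open h.hV r x) ?_ ?_ h1
    · rw [Set.union_comm]; exact hx.2.1
    intro s hs hs'
    have hs1 : x + r * cis s ∈ V := hs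
    have hs2 : x + cis (s + a) ∈ V := hs'
    refine h.not_both_V' hx.1 (dist_self_cis _ _) (dist_self_r_cis _ (by linarith) _)
      (dist_cis_rr x (by linarith) ?_) ⟨hs2, hs1⟩
    rw [show s + a - s = a by ring]
    exact hrc
  rwa [show t + 2 * a = t + a + a by ring]

lemma sc_rot {U V : Set ℂ} {r : ℝ} (h : Conf U V r) {x : ℂ} (hx : Good U V r x) {a : ℝ}
    (ha : a = Real.pi / 3 ∨ a = -(Real.pi / 3) ∨ a = 2 * Real.arccos (1 / (2 * r)) ∨
      a = -(2 * Real.arccos (1 / (2 * r)))) {t : ℝ} (ht : SC U V x t) : SC U V x (t + a) := by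
  have h60 : ∀ b : ℝ, b = Real.pi / 3 ∨ b = -(Real.pi / 3) → SC U V x (t + b) := fun b hb =>
    ⟨ht.1, half60 h.symm hx.symm hb ht.2.2, half60 h hx hb ht.2.1⟩
  have hg : ∀ b : ℝ, b = Real.arccos (1 / (2 * r)) ∨ b = -(Real.arccos (1 / (2 * r))) →
      SC U V x (t + 2 * b) := fun b hb =>
    ⟨ht.1, halfg h hx hb ht.2.1, halfg h.symm hx.symm hb ht.2.2⟩
  rcases ha with h1 | h1 | h1 | h1
  · exact h60 a (Or.inl h1)
  · exact h60 a (Or.inr h1)
  · rw [h1]; exact hg _ (Or.inl rfl)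
  · rw [h1, ← mul_neg]; exact hg _ (Or.inr rfl)

theorem E_nonempty {U V : Set ℂ} {r : ℝ} (h : Conf U V r) (hne : ((U ∪ V)ᶜ).Nonempty) :
    (E U V r).Nonempty := by
  obtain ⟨b, hb⟩ := hne
  obtain ⟨x, hx, -⟩ := good_dense h hb one_pos
  obtain ⟨t₀, ht₀⟩ : ({t : ℝ | x + cis t ∈ U ∪ V}).Nonempty := hx.2.1.nonempty
  -- both colours occur
  have both : ({t : ℝ | x + cis t ∈ U}).Nonempty ∧ ({t : ℝ | x + cis t ∈ V}).Nonempty := by
    rcases ht₀ with h0 | h0
    · refine ⟨⟨t₀, h0⟩, ?_⟩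
      have := half60 h hx (Or.inl rfl) (subset_closure h0 : t₀ ∈ closure {s : ℝ | x + cis s ∈ U})
      exact closure_nonempty_iff.1 ⟨_, this⟩
    · refine ⟨?_, ⟨t₀, h0⟩⟩
      have := half60 h.symm hx.symm (Or.inl rfl)
        (subset_closure h0 : t₀ ∈ closure {s : ℝ | x + cis s ∈ V})
      exact closure_nonempty_iff.1 ⟨_, this⟩
  have hcl := (isPreconnected_closed_iff.1 (isPreconnected_univ (α := ℝ)))
    (closure {s : ℝ | x + cis s ∈ U}) (closure {s : ℝ | x + cis s ∈ V}) isClosed_closure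
    isClosed_closure (by
      rw [← closure_union]
      intro s _
      exact hx.2.1 s)
    (by rw [univ_inter]; exact both.1.closure) (by rw [univ_inter]; exact both.2.closure)
  obtain ⟨t, -, ht1, ht2⟩ := hcl
  exact ⟨(x, x + cis t), subset_closure ⟨t, hx, ⟨hx.1, ht1, ht2⟩, rfl⟩⟩

theorem E_mem {U V : Set ℂ} {r : ℝ} (h : Conf U V r) {p : ℂ × ℂ} (hp : p ∈ E U V r) :
    p.1 ∈ (U ∪ V)ᶜ := by
  have h1 : E U V r ⊆ Prod.fst ⁻¹' (U ∪ V)ᶜ := by
    unfold E
    refine closure_minimal ?_ (h.isClosed.preimage continuous_fst)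
    rintro p ⟨t, hg, -, -⟩
    exact hg.1
  exact h1 hp

theorem E_rot {U V : Set ℂ} {r : ℝ} (h : Conf U V r) {a : ℝ}
    (ha : a = Real.pi / 3 ∨ a = -(Real.pi / 3) ∨ a = 2 * Real.arccos (1 / (2 * r)) ∨
      a = -(2 * Real.arccos (1 / (2 * r)))) {x y : ℂ} (hp : (x, y) ∈ E U V r) :
    (x, x + cis a * (y - x)) ∈ E U V r := by
  have h1 : E U V r ⊆ (fun p : ℂ × ℂ => (p.1, p.1 + cis a * (p.2 - p.1))) ⁻¹' (E U V r) := by
    unfold E
    refine closure_minimal ?_ (isClosed_closure.preimage (by fun_prop))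
    rintro p ⟨t, hg, hsc, hp2⟩
    refine subset_closure ⟨t + a, hg, sc_rot h hg ha hsc, ?_⟩
    change p.1 + cis a * (p.2 - p.1) = p.1 + cis (t + a)
    rw [hp2, cis_add]
    ring
  exact h1 hp

end Pool.Agent.Lib.P3852e9
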