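import Mathlib
import Pool.Agent.Lib.Brouwer.Brouwer
import Pool.Agent.Lib.P3852e9.Conf

/-!
MODULE P3852e9.Square (1 h): Poincaré-Miranda theorem in dimension two and a separation lemma.

`poincare_miranda`: from Brouwer's fixed point theorem (`brouwer_closedBall` in
Pool.Agent.Lib.Brouwer.Brouwer, for finite-dimensional inner product spaces, e.g.
`E = EuclideanSpace ℝ (Fin 2)` or `ℂ`). Proof: let `π : ℝ → ℝ`, `π t = max 0 (min 1 t)`, be the
projection to `[0, 1]`. Consider on the plane the map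
`G (x, y) = (π (π x - f (π x, π y)), π (π y - g (π x, π y)))`, continuous, with values in `[0, 1]²`, hence
it maps the ball of radius `2` to itself. A fixed point `(x, y)` is in `[0, 1]²`, so `π x = x`,
`π y = y` and `x = π (x - f (x, y))`. If `f (x, y) > 0` then `x - f < x`, so `π (x - f) = x` forces `x = 0`
(because `π t = x` and `t < x ≤ 1` give `x = 0`), but `f (0, y) ≤ 0`: contradiction. If `f (x, y) < 0`
then `x = 1`, but `f (1, y) ≥ 0`. So `f (x, y) = 0`; similarly `g (x, y) = 0`.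

`square_lemma`: `Ψ` maps the bottom of the unit square into the open set `U`, the top into the open
set `V`, the closed sets `C₀`, `C₁` cover the points of the image outside `U ∪ V`, `C₀` misses the image
of the right edge, `C₁` misses the image of the left edge. Then `C₀ ∩ C₁` contains a point `Ψ p` outside
`U ∪ V`, `p` in the square. Proof: let
`g p = infDist (Ψ p) Vᶜ - infDist (Ψ p) Uᶜ`: continuous, negative if `Ψ p ∈ U`, positive if `Ψ p ∈ V`,
and it vanishes only if `Ψ p ∉ U ∪ V` (`U`, `V` open and disjoint; their complements are nonempty as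
`Ψ (0, 1) ∈ V ⊆ Uᶜ`, `Ψ (0, 0) ∈ U ⊆ Vᶜ`). Let `Q` be the closed unit square, `L`, `R` its left and right
edges, `K i = {p ∈ Q | Ψ p ∉ U ∪ V ∧ Ψ p ∈ C i}` (closed) and suppose `K 0 ∩ K 1 = ∅`. Let
`f p = infDist p (K 0 ∪ L) - infDist p (K 1 ∪ R)`, continuous. `f ≤ 0` on `L`, `f ≥ 0` on `R`; for `p ∈ K 0`:
`p ∉ K 1 ∪ R` (closed), so `f p < 0`; for `p ∈ K 1`: `f p > 0`. By `poincare_miranda` there is `p ∈ Q`
with `f p = g p = 0`; then `Ψ p ∉ U ∪ V`, so `p ∈ K 0 ∪ K 1`, so `f p ≠ 0`: contradiction.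
-/

set_option autoImplicit false

namespace Pool.Agent.Lib.P3852e9

open Set Topology

/-- Projection of the line to the unit interval. -/
noncomputable def sqPr (t : ℝ) : ℝ := max 0 (min 1 t)

theorem sqPr_mem (t : ℝ) : sqPr t ∈ Icc (0 : ℝ) 1 :=
  ⟨le_max_left _ _, max_le zero_le_one (min_le_left _ _)⟩

theorem sqPr_of_mem {t : ℝ} (ht : t ∈ Icc (0 : ℝ) 1) : sqPr t = t := by
  rw [sqPr, min_eq_right ht.2, max_eq_right ht.1]

theorem sqPr_cont : Continuous sqPr := by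
  unfold sqPr
  fun_prop

theorem sqPr_fix_zero {x a : ℝ} (hx : x = sqPr (x - a)) (h0 : x = 0 → a ≤ 0) (h1 : x = 1 → 0 ≤ a) : a = 0 := by
  have hm := sqPr_mem (x - a)
  rw [← hx] at hm
  rcases lt_trichotomy a 0 with h | h | h
  · exfalso
    have hx1 : x ≠ 1 := fun e => by linarith [h1 e]
    have hlt : x < 1 := lt_of_le_of_ne hm.2 hx1
    rw [sqPr] at hx
    have h5 : x < min 1 (x - a) := lt_min hlt (by linarith)
    linarith [le_max_right (0 : ℝ) (min 1 (x - a))]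
  · exact h
  · exfalso
    have hx1 : x ≠ 0 := fun e => by linarith [h0 e]
    have hlt : 0 < x := lt_of_le_of_ne hm.1 (Ne.symm hx1)
    rw [sqPr] at hx
    have h5 : max 0 (min 1 (x - a)) < x := max_lt hlt (lt_of_le_of_lt (min_le_right _ _) (by linarith))
    linarith

theorem poincare_miranda {f g : ℝ × ℝ → ℝ} (hf : Continuous f) (hg : Continuous g)
    (h1 : ∀ y ∈ Icc (0 : ℝ) 1, f (0, y) ≤ 0) (h2 : ∀ y ∈ Icc (0 : ℝ) 1, 0 ≤ f (1, y))
    (h3 : ∀ x ∈ Icc (0 : ℝ) 1, g (x, 0) ≤ 0) (h4 : ∀ x ∈ Icc (0 : ℝ) 1, 0 ≤ g (x, 1)) :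
    ∃ x ∈ Icc (0 : ℝ) 1, ∃ y ∈ Icc (0 : ℝ) 1, f (x, y) = 0 ∧ g (x, y) = 0 := by
  set q : ℂ → ℝ × ℝ := fun z => (sqPr z.re, sqPr z.im) with hq
  have hqc : Continuous q := (sqPr_cont.comp Complex.continuous_re).prodMk (sqPr_cont.comp Complex.continuous_im)
  set G : ℂ → ℂ := fun z => ⟨sqPr ((q z).1 - f (q z)), sqPr ((q z).2 - g (q z))⟩ with hG
  have hGc : Continuous G := by
    have e : G = fun z => Complex.equivRealProdCLM.symm (sqPr ((q z).1 - f (q z)), sqPr ((q z).2 - g (q z))) := by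
      funext z
      apply Complex.ext <;> simp [hG]
    rw [e]
    refine Complex.equivRealProdCLM.symm.continuous.comp (Continuous.prodMk ?_ ?_)
    · exact sqPr_cont.comp ((continuous_fst.comp hqc).sub (hf.comp hqc))
    · exact sqPr_cont.comp ((continuous_snd.comp hqc).sub (hg.comp hqc))
  obtain ⟨z, _, hz⟩ := Pool.Agent.Lib.Brouwer.brouwer_closedBall (E := ℂ) (R := 2) (by norm_num) G hGc.continuousOn (by
    intro z _
    rw [mem_closedBall_zero_iff]
    refine (Complex.norm_le_abs_re_add_abs_im _).trans ?_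
    have a1 := sqPr_mem ((q z).1 - f (q z))
    have a2 := sqPr_mem ((q z).2 - g (q z))
    simp only [hG]
    rw [abs_of_nonneg a1.1, abs_of_nonneg a2.1]
    linarith [a1.2, a2.2])
  have hre : z.re = sqPr ((q z).1 - f (q z)) := by
    conv_lhs => rw [← hz]
  have him : z.im = sqPr ((q z).2 - g (q z)) := by
    conv_lhs => rw [← hz]
  have mre : z.re ∈ Icc (0 : ℝ) 1 := hre ▸ sqPr_mem _
  have mim : z.im ∈ Icc (0 : ℝ) 1 := him ▸ sqPr_mem _
  have hqz : q z = (z.re, z.im) := by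
    simp only [hq, sqPr_of_mem mre, sqPr_of_mem mim]
  rw [hqz] at hre him
  refine ⟨z.re, mre, z.im, mim, ?_, ?_⟩
  · refine sqPr_fix_zero hre (fun e => ?_) (fun e => ?_)
    · rw [e]; exact h1 _ mim
    · rw [e]; exact h2 _ mim
  · refine sqPr_fix_zero him (fun e => ?_) (fun e => ?_)
    · rw [e]; exact h3 _ mre
    · rw [e]; exact h4 _ mre

theorem square_lemma {U V C₀ C₁ : Set ℂ} (hU : IsOpen U) (hV : IsOpen V) (hUV : Disjoint U V)
    (hC₀ : IsClosed C₀) (hC₁ : IsClosed C₁) {Ψ : ℝ × ℝ → ℂ} (hΨ : Continuous Ψ)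
    (hbot : ∀ x ∈ Icc (0 : ℝ) 1, Ψ (x, 0) ∈ U) (htop : ∀ x ∈ Icc (0 : ℝ) 1, Ψ (x, 1) ∈ V)
    (hcov : ∀ x ∈ Icc (0 : ℝ) 1, ∀ y ∈ Icc (0 : ℝ) 1, Ψ (x, y) ∉ U ∪ V → Ψ (x, y) ∈ C₀ ∪ C₁)
    (hleft : ∀ y ∈ Icc (0 : ℝ) 1, Ψ (0, y) ∉ C₁) (hright : ∀ y ∈ Icc (0 : ℝ) 1, Ψ (1, y) ∉ C₀) :
    ∃ x ∈ Icc (0 : ℝ) 1, ∃ y ∈ Icc (0 : ℝ) 1, Ψ (x, y) ∉ U ∪ V ∧ Ψ (x, y) ∈ C₀ ∧ Ψ (x, y) ∈ C₁ := by
  by_contra hno
  push Not at hno
  have m0 : (0 : ℝ) ∈ Icc (0 : ℝ) 1 := by simp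
  have m1 : (1 : ℝ) ∈ Icc (0 : ℝ) 1 := by simp
  have hUc : (Uᶜ).Nonempty := ⟨_, fun h => (disjoint_left.1 hUV h) (htop 0 m0)⟩
  have hVc : (Vᶜ).Nonempty := ⟨_, fun h => (disjoint_left.1 hUV (hbot 0 m0)) h⟩
  set g : ℝ × ℝ → ℝ := fun p => Metric.infDist (Ψ p) Uᶜ - Metric.infDist (Ψ p) Vᶜ with hgdef
  -- sign conventions: negative on `U`
  set g' : ℝ × ℝ → ℝ := fun p => -(g p) with hg'
  have hgc : Continuous g' :=
    (((Metric.continuous_infDist_pt _).comp hΨ).sub ((Metric.continuous_infDist_pt _).comp hΨ)).neg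
  have posU : ∀ p, Ψ p ∈ U → 0 < g p := by
    intro p hp
    have a1 : 0 < Metric.infDist (Ψ p) Uᶜ :=
      (hU.isClosed_compl.notMem_iff_infDist_pos hUc).1 (fun h => h hp)
    have a2 : Metric.infDist (Ψ p) Vᶜ = 0 :=
      Metric.infDist_zero_of_mem (fun h => (disjoint_left.1 hUV hp) h)
    simp only [hgdef, a2, sub_zero]
    exact a1
  have negV : ∀ p, Ψ p ∈ V → g p < 0 := by
    intro p hp
    have a1 : 0 < Metric.infDist (Ψ p) Vᶜ :=
      (hV.isClosed_compl.notMem_iff_infDist_pos hVc).1 (fun h => h hp)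
    have a2 : Metric.infDist (Ψ p) Uᶜ = 0 :=
      Metric.infDist_zero_of_mem (fun h => (disjoint_left.1 hUV h) hp)
    simp only [hgdef, a2, zero_sub]
    linarith
  set L : Set (ℝ × ℝ) := {p | p.1 = 0 ∧ p.2 ∈ Icc (0 : ℝ) 1} with hL
  set R : Set (ℝ × ℝ) := {p | p.1 = 1 ∧ p.2 ∈ Icc (0 : ℝ) 1} with hR
  set K : Set ℂ → Set (ℝ × ℝ) := fun C => {p | (p.1 ∈ Icc (0 : ℝ) 1 ∧ p.2 ∈ Icc (0 : ℝ) 1) ∧ Ψ p ∈ (U ∪ V)ᶜ ∧ Ψ p ∈ C} with hK
  have hLc : IsClosed L := (isClosed_eq continuous_fst continuous_const).inter (isClosed_Icc.preimage continuous_snd)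
  have hRc : IsClosed R := (isClosed_eq continuous_fst continuous_const).inter (isClosed_Icc.preimage continuous_snd)
  have hKc : ∀ C, IsClosed C → IsClosed (K C) := fun C hC =>
    ((isClosed_Icc.preimage continuous_fst).inter (isClosed_Icc.preimage continuous_snd)).inter
      (((hU.union hV).isClosed_compl.preimage hΨ).inter (hC.preimage hΨ))
  have hA : IsClosed (K C₀ ∪ L) := (hKc _ hC₀).union hLc
  have hB : IsClosed (K C₁ ∪ R) := (hKc _ hC₁).union hRc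
  have hAn : (K C₀ ∪ L).Nonempty := ⟨(0, 0), Or.inr ⟨rfl, m0⟩⟩
  have hBn : (K C₁ ∪ R).Nonempty := ⟨(1, 0), Or.inr ⟨rfl, m0⟩⟩
  set f : ℝ × ℝ → ℝ := fun p => Metric.infDist p (K C₀ ∪ L) - Metric.infDist p (K C₁ ∪ R) with hfdef
  have hfc : Continuous f := (Metric.continuous_infDist_pt _).sub (Metric.continuous_infDist_pt _)
  obtain ⟨x, hx, y, hy, hf0, hg0⟩ := poincare_miranda hfc hgc
    (fun y hy => by
      have : Metric.infDist ((0 : ℝ), y) (K C₀ ∪ L) = 0 := Metric.infDist_zero_of_mem (Or.inr ⟨rfl, hy⟩)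
      simp only [hfdef, this, zero_sub]
      linarith [Metric.infDist_nonneg (x := ((0 : ℝ), y)) (s := K C₁ ∪ R)])
    (fun y hy => by
      have : Metric.infDist ((1 : ℝ), y) (K C₁ ∪ R) = 0 := Metric.infDist_zero_of_mem (Or.inr ⟨rfl, hy⟩)
      simp only [hfdef, this, sub_zero]
      exact Metric.infDist_nonneg)
    (fun x hx => by
      simp only [hg']
      linarith [posU (x, 0) (hbot x hx)])
    (fun x hx => by
      simp only [hg']
      linarith [negV (x, 1) (htop x hx)])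
  have hnot : Ψ (x, y) ∉ U ∪ V := by
    rintro (h | h)
    · have := posU _ h
      simp only [hg'] at hg0
      linarith
    · have := negV _ h
      simp only [hg'] at hg0
      linarith
  have hno' := hno x hx y hy hnot
  rcases hcov x hx y hy hnot with hc | hc
  · have hmem : ((x, y) : ℝ × ℝ) ∈ K C₀ ∪ L := Or.inl ⟨⟨hx, hy⟩, hnot, hc⟩
    have hnm : ((x, y) : ℝ × ℝ) ∉ K C₁ ∪ R := by
      rintro (h | h)
      · exact hno' hc h.2.2
      · have hx1 : x = 1 := h.1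
        rw [hx1] at hc
        exact hright y hy hc
    have a1 := (hB.notMem_iff_infDist_pos hBn).1 hnm
    have a2 := Metric.infDist_zero_of_mem hmem
    simp only [hfdef] at hf0
    linarith
  · have hmem : ((x, y) : ℝ × ℝ) ∈ K C₁ ∪ R := Or.inl ⟨⟨hx, hy⟩, hnot, hc⟩
    have hnm : ((x, y) : ℝ × ℝ) ∉ K C₀ ∪ L := by
      rintro (h | h)
      · exact hno' h.2.2 hc
      · have hx1 : x = 0 := h.1
        rw [hx1] at hc
        exact hleft y hy hc
    have a1 := (hA.notMem_iff_infDist_pos hAn).1 hnm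
    have a2 := Metric.infDist_zero_of_mem hmem
    simp only [hfdef] at hf0
    linarith

end Pool.Agent.Lib.P3852e9
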