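import Mathlib
import Pool.Agent.Lib.P3852e9.Conf
import Pool.Agent.Lib.P3852e9.Square

/-!
MODULE P3852e9.Cover (1 h)

Situation: `B = (U ∪ V)ᶜ`, `SC U V x φ` (strong crossing at the point `y = x + cis φ`), `CU`, `CV` closed
sets such that: every `b ∈ B` with `|b - y| < η` is in `CU ∪ CV`; for `q ∈ CU` the arc
`q - cis θ`, `|θ - φ| < η` (near `x` if `q` is near `y`) does not meet `V`; for `q ∈ CV` it does not meet
`U`. Conclusion: near `x`, every point `x'` of `B` is at distance `1` of a point of `CU ∩ CV` close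
to `y`.

Proof. Let `μ = min κ η / 3`. By `SC` there are `θU`, `θV` with `|θU - φ| < μ`, `|θV - φ| < μ`,
`x + cis θU ∈ U`, `x + cis θV ∈ V`. Choose `0 < δ ≤ μ` such that the balls of radius `δ` about
these points are in `U`, resp. `V`. Let `u ∈ U`, `v ∈ V`, `|u - x| < δ`, `|v - x| < δ`. Apply
`square_lemma` to `Ψ (s, t) = u + s (v - u) + cis (θU + t (θV - θU))`, `C₀ = CU`, `C₁ = CV`: for
`s, t ∈ [0, 1]` we have `|u + s (v - u) - x| < δ` (convexity of the ball) and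
`|θU + t (θV - θU) - φ| < μ`, so the bottom is in `U`, the top in `V`, and
`|Ψ (s, t) - y| ≤ δ + μ < min κ η` (`dist_cis_le`), so the points outside `U ∪ V` are in `CU ∪ CV`. Left edge:
if `q = Ψ (0, t) ∈ CV` then `q - cis θ = u ∈ U` with `|θ - φ| < η`, contradiction. Right edge: if
`q = Ψ (1, t) ∈ CU`, then `q - cis θ = v ∈ V`, contradiction. So there are `q ∈ CU ∩ CV` and
`p = u + s (v - u)` with `|q - y| ≤ κ` and `|p - q| = 1`.
Now let `x' ∈ B`, `|x' - x| < δ`. The set `K = CU ∩ CV ∩ closedBall y κ` is compact, so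
`S = {w | ∃ q ∈ K, dist w q = 1}` is closed (e.g. `S = K + sphere 0 1`, `IsCompact.add`). As
`x' ∈ closure U ∩ closure V` there are `u ∈ U`, `v ∈ V` arbitrarily close to `x'`, so points `p ∈ S`
(on the segment `[u, v]`) arbitrarily close to `x'`; hence `x' ∈ S`.
-/

set_option autoImplicit false

namespace Pool.Agent.Lib.P3852e9

open Set Topology

namespace CoverAux

theorem key {U V : Set ℂ} (hUo : IsOpen U) (hVo : IsOpen V) (hdis : Disjoint U V) {x : ℂ}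
    {φ θU θV μ δ δ1 δ2 : ℝ} {CU CV : Set ℂ} (hCU : IsClosed CU) (hCV : IsClosed CV) {η : ℝ}
    (hcov : ∀ b ∈ (U ∪ V)ᶜ, dist b (x + cis φ) < η → b ∈ CU ∪ CV)
    (hU : ∀ q ∈ CU, ∀ θ : ℝ, |θ - φ| < η → q - cis θ ∉ V)
    (hV : ∀ q ∈ CV, ∀ θ : ℝ, |θ - φ| < η → q - cis θ ∉ U) {κ : ℝ}
    (hμκ : 2 * μ ≤ κ) (hμη : 2 * μ ≤ η) (hμ : 0 < μ) (hδμ : δ ≤ μ) (hδ1 : δ ≤ δ1) (hδ2 : δ ≤ δ2)
    (hθU : |θU - φ| < μ) (hθV : |θV - φ| < μ)
    (hb1 : Metric.ball (x + cis θU) δ1 ⊆ U) (hb2 : Metric.ball (x + cis θV) δ2 ⊆ V)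
    {u v : ℂ} (hu : u ∈ U) (hv : v ∈ V) (hux : dist u x < δ) (hvx : dist v x < δ) :
    ∃ s ∈ Icc (0 : ℝ) 1, ∃ q ∈ CU ∩ CV, dist q (x + cis φ) ≤ κ ∧
      dist (u + (s : ℂ) * (v - u)) q = 1 := by
  have hP : ∀ s ∈ Icc (0 : ℝ) 1, dist (u + (s : ℂ) * (v - u)) x < δ := by
    intro s hs
    have h1 := (convex_ball x δ).add_smul_sub_mem (Metric.mem_ball.2 hux) (Metric.mem_ball.2 hvx) hs
    rw [Complex.real_smul] at h1
    exact Metric.mem_ball.1 h1
  have hθ : ∀ t ∈ Icc (0 : ℝ) 1, |θU + t * (θV - θU) - φ| < μ := by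
    intro t ht
    have h1 := (convex_ball φ μ).add_smul_sub_mem
      (Metric.mem_ball.2 (by rw [Real.dist_eq]; exact hθU : dist θU φ < μ))
      (Metric.mem_ball.2 (by rw [Real.dist_eq]; exact hθV : dist θV φ < μ)) ht
    rw [smul_eq_mul] at h1
    have h2 := Metric.mem_ball.1 h1
    rwa [Real.dist_eq] at h2
  have hdist : ∀ s ∈ Icc (0 : ℝ) 1, ∀ t ∈ Icc (0 : ℝ) 1,
      dist (u + (s : ℂ) * (v - u) + cis (θU + t * (θV - θU))) (x + cis φ) < 2 * μ := by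
    intro s hs t ht
    have h1 := hP s hs
    have h2 := hθ t ht
    have h3 : dist (u + (s : ℂ) * (v - u) + cis (θU + t * (θV - θU))) (x + cis φ)
        ≤ dist (u + (s : ℂ) * (v - u)) x + dist (cis (θU + t * (θV - θU))) (cis φ) :=
      dist_add_add_le _ _ _ _
    have h4 : dist (cis (θU + t * (θV - θU))) (cis φ) ≤ |θU + t * (θV - θU) - φ| := by
      rw [dist_eq_norm]; exact dist_cis_le _ _
    linarith
  have hc := continuous_cis
  have hsq := square_lemma (U := U) (V := V) (C₀ := CU) (C₁ := CV) hUo hVo hdis hCU hCV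
    (Ψ := fun p : ℝ × ℝ => u + (p.1 : ℂ) * (v - u) + cis (θU + p.2 * (θV - θU)))
    (by fun_prop) ?_ ?_ ?_ ?_ ?_
  · obtain ⟨s, hs, t, ht, h1, h2, h3⟩ := hsq
    refine ⟨s, hs, _, ⟨h2, h3⟩, ?_, ?_⟩
    · exact (hdist s hs t ht).le.trans hμκ
    · exact dist_self_cis _ _
  · intro s hs
    apply hb1
    rw [Metric.mem_ball]
    change dist (u + (s : ℂ) * (v - u) + cis (θU + 0 * (θV - θU))) (x + cis θU) < δ1
    rw [zero_mul, add_zero, dist_add_right]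
    exact (hP s hs).trans_le hδ1
  · intro s hs
    apply hb2
    rw [Metric.mem_ball]
    change dist (u + (s : ℂ) * (v - u) + cis (θU + 1 * (θV - θU))) (x + cis θV) < δ2
    rw [one_mul, add_sub_cancel, dist_add_right]
    exact (hP s hs).trans_le hδ2
  · intro s hs t ht h1
    exact hcov _ h1 ((hdist s hs t ht).trans_le hμη)
  · intro t ht h1
    have h2 : |θU + t * (θV - θU) - φ| < η := by
      have := hθ t ht
      linarith
    apply hV _ h1 _ h2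
    have e : u + ((0 : ℝ) : ℂ) * (v - u) + cis (θU + t * (θV - θU)) - cis (θU + t * (θV - θU))
        = u := by
      rw [Complex.ofReal_zero]; ring
    change u + ((0 : ℝ) : ℂ) * (v - u) + cis (θU + t * (θV - θU)) - cis (θU + t * (θV - θU)) ∈ U
    rw [e]; exact hu
  · intro t ht h1
    have h2 : |θU + t * (θV - θU) - φ| < η := by
      have := hθ t ht
      linarith
    apply hU _ h1 _ h2
    have e : u + ((1 : ℝ) : ℂ) * (v - u) + cis (θU + t * (θV - θU)) - cis (θU + t * (θV - θU))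
        = v := by
      rw [Complex.ofReal_one]; ring
    change u + ((1 : ℝ) : ℂ) * (v - u) + cis (θU + t * (θV - θU)) - cis (θU + t * (θV - θU)) ∈ V
    rw [e]; exact hv

theorem isClosed_dist_one {K : Set ℂ} (hK : IsCompact K) :
    IsClosed {w : ℂ | ∃ q ∈ K, dist w q = 1} := by
  have h1 : {w : ℂ | ∃ q ∈ K, dist w q = 1}
      = (fun p : ℂ × ℂ => p.1 + p.2) '' (K ×ˢ Metric.sphere (0 : ℂ) 1) := by
    ext w
    constructor
    · rintro ⟨q, hq, hw⟩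
      refine ⟨(q, w - q), ⟨hq, ?_⟩, ?_⟩
      · rw [mem_sphere_zero_iff_norm, ← dist_eq_norm]; exact hw
      · change q + (w - q) = w
        ring
    · rintro ⟨⟨q, z⟩, ⟨hq, hz⟩, rfl⟩
      refine ⟨q, hq, ?_⟩
      have hz' : ‖z‖ = 1 := mem_sphere_zero_iff_norm.1 hz
      change dist (q + z) q = 1
      rw [dist_self_add_left, hz']
  rw [h1]
  exact ((hK.prod (isCompact_sphere (0 : ℂ) 1)).image continuous_add).isClosed

end CoverAux

theorem cover {U V : Set ℂ} {r : ℝ} (h : Conf U V r) {x : ℂ} {φ : ℝ} (hx : SC U V x φ)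
    {CU CV : Set ℂ} (hCU : IsClosed CU) (hCV : IsClosed CV) {η : ℝ} (hη : 0 < η)
    (hcov : ∀ b ∈ (U ∪ V)ᶜ, dist b (x + cis φ) < η → b ∈ CU ∪ CV)
    (hU : ∀ q ∈ CU, ∀ θ : ℝ, |θ - φ| < η → q - cis θ ∉ V)
    (hV : ∀ q ∈ CV, ∀ θ : ℝ, |θ - φ| < η → q - cis θ ∉ U) {κ : ℝ} (hκ : 0 < κ) :
    ∃ δ > 0, ∀ x' ∈ (U ∪ V)ᶜ, dist x' x < δ →
      ∃ q ∈ CU ∩ CV, dist q (x + cis φ) ≤ κ ∧ dist x' q = 1 := by
  obtain ⟨hxB, hx1, hx2⟩ := hx
  obtain ⟨μ, hμdef⟩ : ∃ μ, μ = min κ η / 3 := ⟨_, rfl⟩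
  have hμ : 0 < μ := by rw [hμdef]; positivity
  have hμκ : 2 * μ ≤ κ := by
    have := min_le_left κ η
    rw [hμdef] at *
    linarith
  have hμη : 2 * μ ≤ η := by
    have := min_le_right κ η
    rw [hμdef] at *
    linarith
  obtain ⟨θU, hθU, hθU'⟩ := Metric.mem_closure_iff.1 hx1 μ hμ
  obtain ⟨θV, hθV, hθV'⟩ := Metric.mem_closure_iff.1 hx2 μ hμ
  rw [dist_comm, Real.dist_eq] at hθU' hθV'
  obtain ⟨δ1, hδ1, hb1⟩ := Metric.isOpen_iff.1 h.hU _ hθU
  obtain ⟨δ2, hδ2, hb2⟩ := Metric.isOpen_iff.1 h.hV _ hθV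
  obtain ⟨δ, hδdef⟩ : ∃ δ, δ = min μ (min δ1 δ2) := ⟨_, rfl⟩
  have hδ : 0 < δ := by rw [hδdef]; positivity
  have hd1 : δ ≤ μ := by rw [hδdef]; exact min_le_left _ _
  have hd2 : δ ≤ δ1 := by rw [hδdef]; exact (min_le_right _ _).trans (min_le_left _ _)
  have hd3 : δ ≤ δ2 := by rw [hδdef]; exact (min_le_right _ _).trans (min_le_right _ _)
  refine ⟨δ, hδ, ?_⟩
  intro x' hx' hxx
  have hK : IsCompact ((CU ∩ CV) ∩ Metric.closedBall (x + cis φ) κ) :=
    (isCompact_closedBall _ _).inter_left (hCU.inter hCV)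
  have hS := CoverAux.isClosed_dist_one hK
  have hmem : x' ∈ {w : ℂ | ∃ q ∈ (CU ∩ CV) ∩ Metric.closedBall (x + cis φ) κ, dist w q = 1} := by
    rw [← hS.closure_eq, Metric.mem_closure_iff]
    intro ε hε
    obtain ⟨ε', hε'def⟩ : ∃ ε', ε' = min ε (δ - dist x' x) := ⟨_, rfl⟩
    have hε' : 0 < ε' := by
      rw [hε'def]
      exact lt_min hε (by linarith)
    have he1 : ε' ≤ ε := by rw [hε'def]; exact min_le_left _ _
    have he2 : ε' ≤ δ - dist x' x := by rw [hε'def]; exact min_le_right _ _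
    obtain ⟨u, hu, hux⟩ := Metric.mem_closure_iff.1 (h.bd hx').1 ε' hε'
    obtain ⟨v, hv, hvx⟩ := Metric.mem_closure_iff.1 (h.bd hx').2 ε' hε'
    rw [dist_comm] at hux hvx
    have hux' : dist u x < δ := by
      have := dist_triangle u x' x
      linarith
    have hvx' : dist v x < δ := by
      have := dist_triangle v x' x
      linarith
    obtain ⟨s, hs, q, hq, hq1, hq2⟩ := CoverAux.key h.hU h.hV h.disj hCU hCV hcov hU hV hμκ hμη
      hμ hd1 hd2 hd3 hθU' hθV' hb1 hb2 hu hv hux' hvx'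
    refine ⟨u + (s : ℂ) * (v - u), ⟨q, ⟨hq, Metric.mem_closedBall.2 hq1⟩, hq2⟩, ?_⟩
    have h1 := (convex_ball x' ε').add_smul_sub_mem (Metric.mem_ball.2 hux) (Metric.mem_ball.2 hvx)
      hs
    rw [Complex.real_smul] at h1
    have h2 := Metric.mem_ball.1 h1
    rw [dist_comm]
    exact h2.trans_le he1
  obtain ⟨q, ⟨hq, hqy⟩, hq1⟩ := hmem
  exact ⟨q, hq, Metric.mem_closedBall.1 hqy, hq1⟩

end Pool.Agent.Lib.P3852e9
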