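import Mathlib
import Pool.Agent.Lib.P3852e9.Conf

/-!
# The gap argument

See the comments in the proof of `gap`.
-/

set_option autoImplicit false

namespace Pool.Agent.Lib.P3852e9

open Set Topology

/-- Moving a point `w` in a direction `e` close to the direction of `q`. -/
lemma move_near {x y q w e : ℂ} {s : ℝ} (hxy : dist x y = 1) (hq : dist q y ≤ 1 / 100)
    (hw : dist w x < 1 / 100) (he : ‖e - (y - x)‖ ≤ 1 / 10) (hs : 0 ≤ s) (hs' : s ≤ 1 / 2) :
    dist (w + s * e) q ≤ dist w q - 17 / 20 * s := by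
  have h0 : ‖y - x‖ = 1 := by rw [← dist_eq_norm, dist_comm]; exact hxy
  have h1 : ‖(q - w) - (y - x)‖ ≤ 2 / 100 := by
    have : (q - w) - (y - x) = (q - y) - (w - x) := by ring
    rw [this]
    calc ‖(q - y) - (w - x)‖ ≤ ‖q - y‖ + ‖w - x‖ := norm_sub_le _ _
      _ = dist q y + dist w x := by rw [dist_eq_norm, dist_eq_norm]
      _ ≤ 2 / 100 := by linarith
  have h2 : |‖q - w‖ - 1| ≤ 2 / 100 := by
    have := abs_norm_sub_norm_le (q - w) (y - x)
    rw [h0] at this
    linarith
  obtain ⟨h3, h4⟩ := abs_le.1 h2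
  have hne : (‖q - w‖ : ℝ) ≠ 0 := by linarith
  have hne' : ((‖q - w‖ : ℝ) : ℂ) ≠ 0 := by exact_mod_cast hne
  -- the unit vector
  obtain ⟨m, hm⟩ : ∃ m : ℂ, q - w = (‖q - w‖ : ℝ) * m := ⟨(q - w) / (‖q - w‖ : ℝ), by field_simp⟩
  have hm1 : ‖m‖ = 1 := by
    have h5 := congrArg norm hm
    rw [norm_mul, Complex.norm_real, norm_norm] at h5
    have h6 : ‖q - w‖ * (‖m‖ - 1) = 0 := by linarith
    rcases mul_eq_zero.1 h6 with h | h
    · exact absurd h hne
    · linarith
  have hmn : ‖m - (y - x)‖ ≤ 4 / 100 := by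
    have h5 : m - (y - x) = ((q - w) - (y - x)) - ((‖q - w‖ - 1 : ℝ) : ℂ) * m := by
      push_cast
      linear_combination -hm
    rw [h5]
    have h6 := norm_sub_le ((q - w) - (y - x)) (((‖q - w‖ - 1 : ℝ) : ℂ) * m)
    rw [norm_mul ((‖q - w‖ - 1 : ℝ) : ℂ) m, hm1, mul_one, Complex.norm_real,
      Real.norm_eq_abs] at h6
    linarith
  have hem : ‖e - m‖ ≤ 14 / 100 := by
    have h5 : e - m = (e - (y - x)) - (m - (y - x)) := by ring
    rw [h5]
    have := norm_sub_le (e - (y - x)) (m - (y - x))
    linarith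
  have h7 : w + s * e - q = -(((‖q - w‖ - s : ℝ) : ℂ) * m) + (s : ℂ) * (e - m) := by
    push_cast
    linear_combination -hm
  rw [dist_eq_norm, h7, dist_comm, dist_eq_norm]
  have h8 := norm_add_le (-(((‖q - w‖ - s : ℝ) : ℂ) * m)) ((s : ℂ) * (e - m))
  rw [norm_neg, norm_mul ((‖q - w‖ - s : ℝ) : ℂ) m, hm1, mul_one, Complex.norm_real,
    Real.norm_of_nonneg (by linarith), norm_mul (s : ℂ) (e - m), Complex.norm_real,
    Real.norm_of_nonneg hs] at h8
  nlinarith

/-- the reflected radius: for `s = 1 + H` -/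
lemma exists_root_above {H : ℝ} (hH : 0 < H) (hH' : H < 1 / 10) :
    ∃ H' : ℝ, H ≤ H' ∧ H' ≤ 3 / 2 * H ∧
      (1 + H) ^ 2 + (1 + H) * (1 - H') + (1 - H') ^ 2 = 3 := by
  let P : ℝ → ℝ := fun t => (1 + H) ^ 2 + (1 + H) * (1 - t) + (1 - t) ^ 2
  have hP : ContinuousOn P (Icc H (3 / 2 * H)) := by fun_prop
  have h1 : (3 : ℝ) ∈ Icc (P (3 / 2 * H)) (P H) := by
    constructor
    · simp only [P]; nlinarith
    · simp only [P]; nlinarith [sq_nonneg H]
  obtain ⟨t, ht, ht'⟩ := intermediate_value_Icc' (by linarith) hP h1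
  exact ⟨t, ht.1, ht.2, ht'⟩

/-- the reflected radius: for `s = 1 - H` -/
lemma exists_root_below {H : ℝ} (hH : 0 < H) (hH' : H < 1 / 10) :
    ∃ H' : ℝ, 9 / 10 * H ≤ H' ∧ H' ≤ H ∧
      (1 - H) ^ 2 + (1 - H) * (1 + H') + (1 + H') ^ 2 = 3 := by
  let P : ℝ → ℝ := fun t => (1 - H) ^ 2 + (1 - H) * (1 + t) + (1 + t) ^ 2
  have hP : ContinuousOn P (Icc (9 / 10 * H) H) := by fun_prop
  have h1 : (3 : ℝ) ∈ Icc (P (9 / 10 * H)) (P H) := by
    constructor
    · simp only [P]; nlinarith
    · simp only [P]; nlinarith [sq_nonneg H]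
  obtain ⟨t, ht, ht'⟩ := intermediate_value_Icc (by linarith) hP h1
  exact ⟨t, ht.1, ht.2, ht'⟩

/-- a segment which does not meet the boundary and ends in `U` is in `U` -/
lemma segment_in {U V : Set ℂ} (hU : IsOpen U) (hV : IsOpen V) (hUV : Disjoint U V) {w e : ℂ}
    {l : ℝ} (hl : 0 ≤ l) (h : ∀ s : ℝ, 0 ≤ s → s ≤ l → w + s * e ∈ U ∪ V)
    (hend : w + l * e ∈ U) : w ∈ U := by
  have hc : IsPreconnected ((fun s : ℝ => w + s * e) '' Icc 0 l) :=
    isPreconnected_Icc.image _ (by fun_prop)
  have hsub : (fun s : ℝ => w + s * e) '' Icc 0 l ⊆ U ∪ V := by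
    rintro _ ⟨s, hs, rfl⟩
    exact h s hs.1 hs.2
  have h0 : w ∈ (fun s : ℝ => w + s * e) '' Icc 0 l := ⟨0, ⟨le_rfl, hl⟩, by simp⟩
  have h1 : w + l * e ∈ (fun s : ℝ => w + s * e) '' Icc 0 l := ⟨l, ⟨hl, le_rfl⟩, rfl⟩
  exact hc.subset_left_of_subset_union hU hV hUV hsub ⟨_, h1, hend⟩ h0

theorem gap {U V : Set ℂ} {r : ℝ} (h : Conf U V r) {x y : ℂ} (hx : x ∈ (U ∪ V)ᶜ)
    (hxy : dist x y = 1) {K : Set ℂ} (hK : IsCompact K) {δ : ℝ} (hδ : 0 < δ) (hδ' : δ < 1 / 100)
    (hKy : ∀ q ∈ K, dist q y ≤ 1 / 100)
    (h1 : ∀ q ∈ K, ∀ w : ℂ, dist w x < δ → dist w q = 1 → w ∈ (U ∪ V)ᶜ)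
    (h2 : ∀ b ∈ (U ∪ V)ᶜ, dist b x < δ → ∃ q ∈ K, dist b q = 1)
    (h3 : ∀ q ∈ K, ∀ (e : ℂ) (s s' : ℝ), ‖e‖ = 1 → 0 < s → 0 < s' → s ^ 2 + s * s' + s' ^ 2 = 3 →
      dist (q + s * e) x < δ → dist (q + s' * e) x < δ → q + s * e ∈ U → q + s' * e ∉ V) :
    False := by
  -- a point `u` of `U` close to `x` and the nearest boundary point `b`
  obtain ⟨u, huU, hux⟩ := Metric.mem_closure_iff.1 (h.bd hx).1 (δ / 10) (by positivity)
  obtain ⟨b, hb, hbu⟩ := h.isClosed.exists_infDist_eq_dist ⟨x, hx⟩ u
  set d : ℝ := dist u b with hd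
  have hdx : d ≤ dist u x := by rw [← hbu]; exact Metric.infDist_le_dist_of_mem hx
  rw [dist_comm] at hux
  have hd0 : 0 < d := by
    rw [hd, dist_pos]
    rintro rfl
    exact hb (Or.inl huU)
  have hball : Metric.ball u d ⊆ U := by
    have hsub : Metric.ball u d ⊆ U ∪ V := by
      intro w hw
      by_contra hcon
      have h4 : Metric.infDist u (U ∪ V)ᶜ ≤ dist u w := Metric.infDist_le_dist_of_mem hcon
      rw [hbu] at h4
      rw [Metric.mem_ball, dist_comm] at hw
      linarith
    exact (convex_ball u d).isPreconnected.subset_left_of_subset_union h.hU h.hV h.disj hsub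
      ⟨u, Metric.mem_ball_self hd0, huU⟩
  have hbx : dist b x < δ / 5 := by
    have := dist_triangle_left b x u
    linarith
  -- distances from points of `K` to `u`
  have hdich : ∀ q ∈ K, dist u q ≤ 1 - d ∨ 1 + d ≤ dist u q := by
    intro q hq
    by_contra hcon
    push Not at hcon
    obtain ⟨hc1, hc2⟩ := hcon
    -- a point of the ball at distance `1` of `q`
    have hqu : 9 / 10 ≤ dist u q := by
      have h5 := dist_triangle4 x u q y
      have h6 := hKy q hq
      rw [dist_comm x u] at h5
      linarith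
    have hqu0 : ((dist u q : ℝ) : ℂ) ≠ 0 := by
      have : dist u q ≠ 0 := by linarith
      exact_mod_cast this
    obtain ⟨w, hw⟩ : ∃ w : ℂ, w = q + (u - q) / (dist u q : ℝ) := ⟨_, rfl⟩
    have hwq : dist w q = 1 := by
      rw [hw, dist_self_add_left, norm_div, ← dist_eq_norm, Complex.norm_real,
        Real.norm_of_nonneg dist_nonneg, div_self (by linarith)]
    have hwu : dist w u < d := by
      have h5 : w - u = ((1 - dist u q : ℝ) : ℂ) * ((u - q) / (dist u q : ℝ)) := by
        rw [hw]
        push_cast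
        field_simp
        ring
      rw [dist_eq_norm, h5, norm_mul, norm_div, ← dist_eq_norm u q, Complex.norm_real,
        Complex.norm_real, Real.norm_of_nonneg (dist_nonneg (x := u) (y := q)),
        div_self (by linarith), mul_one, Real.norm_eq_abs, abs_lt]
      constructor <;> linarith
    have hwx : dist w x < δ := by
      have := dist_triangle w u x
      linarith
    exact h1 q hq w hwx hwq (Or.inl (hball hwu))
  obtain ⟨q₀, hq₀, hbq₀⟩ := h2 b hb (by linarith)
  have hub : dist u b = d := rfl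
  -- the vector from `b` to `u`
  have hd0' : (d : ℂ) ≠ 0 := by exact_mod_cast hd0.ne'
  obtain ⟨e₀, he₀⟩ : ∃ e₀ : ℂ, u = b + d * e₀ := ⟨(u - b) / d, by field_simp; ring⟩
  have he₀1 : ‖e₀‖ = 1 := by
    have h5 : dist u b = d * ‖e₀‖ := by
      rw [dist_eq_norm]
      have : u - b = d * e₀ := by rw [he₀]; ring
      rw [this, norm_mul, Complex.norm_real, Real.norm_of_nonneg hd0.le]
    rw [hub] at h5
    have h6 : d * (‖e₀‖ - 1) = 0 := by linarith
    rcases mul_eq_zero.1 h6 with h' | h'
    · exact absurd h' hd0.ne'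
    · linarith
  rcases hdich q₀ hq₀ with hin | hout
  · -- Case A
    -- `e₀ = q₀ - b`
    have heq : e₀ = q₀ - b := by
      have h5 : ‖u - q₀‖ ≤ 1 - d := by rw [← dist_eq_norm]; exact hin
      have h6 : ‖q₀ - b‖ = 1 := by rw [← dist_eq_norm, dist_comm]; exact hbq₀
      have h7 : u - q₀ = d * e₀ - (q₀ - b) := by rw [he₀]; ring
      -- `‖d e₀ - f‖ ≤ 1 - d`, `‖e₀‖ = ‖f‖ = 1`
      have h8 : ‖(d : ℂ) * e₀ - (q₀ - b)‖ ≤ 1 - d := by rw [← h7]; exact h5
      set f : ℂ := q₀ - b with hf
      have h9 : Complex.normSq ((d : ℂ) * e₀ - f) ≤ (1 - d) ^ 2 := by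
        rw [Complex.normSq_eq_norm_sq]
        exact pow_le_pow_left₀ (norm_nonneg _) h8 2
      have h10 : Complex.normSq e₀ = 1 := by rw [Complex.normSq_eq_norm_sq, he₀1]; norm_num
      have h11 : Complex.normSq f = 1 := by rw [Complex.normSq_eq_norm_sq, h6]; norm_num
      have h12 : Complex.normSq (e₀ - f) ≤ 0 := by
        rw [Complex.normSq_apply] at h9 h10 h11 ⊢
        simp only [Complex.sub_re, Complex.sub_im, Complex.mul_re, Complex.mul_im,
          Complex.ofReal_re, Complex.ofReal_im, zero_mul, sub_zero, add_zero] at h9 h10 h11 ⊢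
        have h13 : d * (e₀.re * f.re + e₀.im * f.im) ≥ d := by nlinarith
        have h14 : e₀.re * f.re + e₀.im * f.im ≥ 1 := by
          by_contra hcon
          push Not at hcon
          nlinarith
        nlinarith
      have h13 : Complex.normSq (e₀ - f) = 0 := le_antisymm h12 (Complex.normSq_nonneg _)
      rw [Complex.normSq_eq_zero, sub_eq_zero] at h13
      exact h13
    have he₀n : ‖e₀ - (y - x)‖ ≤ 1 / 10 := by
      have h5 : e₀ - (y - x) = (q₀ - y) - (b - x) := by rw [heq]; ring
      rw [h5]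
      have h6 := norm_sub_le (q₀ - y) (b - x)
      rw [← dist_eq_norm q₀ y, ← dist_eq_norm b x] at h6
      have h7 := hKy q₀ hq₀
      linarith
    -- the claim
    have claim : ∀ w : ℂ, dist w b < d / 4 → (∀ q ∈ K, dist u q ≤ 1 - d → dist w q < 1) →
        w ∈ U := by
      intro w hwb hwq
      have hwx : dist w x < δ / 2 := by
        have := dist_triangle w b x
        linarith
      refine segment_in h.hU h.hV h.disj (l := d / 2) (e := e₀) (by positivity) ?_ ?_
      · intro s hs0 hs1
        by_contra hcon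
        have hwsx : dist (w + s * e₀) x < δ := by
          have h5 : dist (w + s * e₀) w = s := by
            rw [dist_self_add_left, norm_mul, he₀1, mul_one, Complex.norm_real,
              Real.norm_of_nonneg hs0]
          have := dist_triangle (w + s * e₀) w x
          linarith
        obtain ⟨q, hq, hq1⟩ := h2 _ hcon hwsx
        have h5 := move_near hxy (hKy q hq) (w := w) (by linarith) he₀n hs0 (by linarith)
        rcases hdich q hq with h6 | h6
        · have h7 := hwq q hq h6
          linarith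
        · -- far points
          have hbs : dist (b + s * e₀) q ≥ 1 + d := by
            have h7 := move_near hxy (hKy q hq) (w := b + s * e₀) (s := d - s) (by
              have h71 : dist (b + s * e₀) b = s := by
                rw [dist_self_add_left, norm_mul, he₀1, mul_one, Complex.norm_real,
                  Real.norm_of_nonneg hs0]
              have := dist_triangle (b + s * e₀) b x
              linarith) he₀n (by linarith) (by linarith)
            have h8 : b + s * e₀ + ((d - s : ℝ) : ℂ) * e₀ = u := by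
              rw [he₀]; push_cast; ring
            rw [h8] at h7
            linarith
          have h9 : dist (w + s * e₀) (b + s * e₀) < d / 4 := by rwa [dist_add_right]
          have h10 := dist_triangle_left (b + s * e₀) q (w + s * e₀)
          linarith
      · apply hball
        rw [Metric.mem_ball, he₀]
        have h5 : dist (w + (d / 2 : ℝ) * e₀) (b + d * e₀) ≤ dist w b + d / 2 := by
          rw [dist_eq_norm, dist_eq_norm]
          have h6 : w + (d / 2 : ℝ) * e₀ - (b + d * e₀) = (w - b) - ((d / 2 : ℝ) : ℂ) * e₀ := by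
            push_cast; ring
          rw [h6]
          have h7 := norm_sub_le (w - b) (((d / 2 : ℝ) : ℂ) * e₀)
          rwa [norm_mul ((d / 2 : ℝ) : ℂ) e₀, he₀1, mul_one, Complex.norm_real,
            Real.norm_of_nonneg (by positivity)] at h7
        linarith
    -- a point of `V`
    obtain ⟨p, hpV, hpb⟩ := Metric.mem_closure_iff.1 (h.bd hb).2 (d / 16) (by positivity)
    rw [dist_comm] at hpb
    have hpU : p ∉ U := fun hp => (Set.disjoint_left.1 h.disj) hp hpV
    have hpx : dist p x < δ / 2 := by
      have := dist_triangle p b x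
      linarith
    -- the maximiser
    have hKin : IsCompact {q | q ∈ K ∧ dist u q ≤ 1 - d} := by
      have : IsClosed {q : ℂ | dist u q ≤ 1 - d} := isClosed_le (by fun_prop) continuous_const
      exact hK.inter_right this
    obtain ⟨q₁, ⟨hq₁, hq₁u⟩, hmax⟩ := hKin.exists_isMaxOn ⟨q₀, hq₀, hin⟩
      (f := fun q => dist p q) (by fun_prop)
    have hmax' : ∀ q ∈ K, dist u q ≤ 1 - d → dist p q ≤ dist p q₁ := fun q hq hqu =>
      hmax ⟨hq, hqu⟩
    rcases lt_trichotomy (dist p q₁) 1 with hlt | heq1 | hgt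
    · exact hpU (claim p (by linarith) fun q hq hqu => (hmax' q hq hqu).trans_lt hlt)
    · exact h1 q₁ hq₁ p (by linarith) heq1 (Or.inr hpV)
    · set H : ℝ := dist p q₁ - 1 with hH
      have hH0 : 0 < H := by linarith
      have hHd : H < d / 16 := by
        have h5 := dist_triangle p b q₁
        have h6 := dist_triangle_left b q₁ u
        linarith
      obtain ⟨H', hH'1, hH'2, hrel⟩ := exists_root_above hH0 (by linarith)
      have hpq : dist p q₁ = 1 + H := by rw [hH]; ring
      have hne : ((1 + H : ℝ) : ℂ) ≠ 0 := by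
        have : 1 + H ≠ 0 := by linarith
        exact_mod_cast this
      obtain ⟨e, he⟩ : ∃ e : ℂ, p = q₁ + (1 + H : ℝ) * e :=
        ⟨(p - q₁) / (1 + H : ℝ), by field_simp; ring⟩
      have he1 : ‖e‖ = 1 := by
        have h5 : dist p q₁ = (1 + H) * ‖e‖ := by
          rw [dist_eq_norm]
          have : p - q₁ = (1 + H : ℝ) * e := by rw [he]; ring
          rw [this, norm_mul, Complex.norm_real, Real.norm_of_nonneg (by linarith)]
        rw [hpq] at h5
        have h6 : (1 + H) * (‖e‖ - 1) = 0 := by linarith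
        rcases mul_eq_zero.1 h6 with h' | h'
        · linarith
        · linarith
      have hen : ‖-e - (y - x)‖ ≤ 1 / 10 := by
        have h5 : -e - (y - x) = ((q₁ - y) - (p - x)) + (H : ℂ) * e := by
          have : (p : ℂ) - q₁ = (1 + H : ℝ) * e := by rw [he]; ring
          push_cast at this
          linear_combination this
        rw [h5]
        have h6 := norm_add_le ((q₁ - y) - (p - x)) ((H : ℂ) * e)
        have h7 := norm_sub_le (q₁ - y) (p - x)
        rw [← dist_eq_norm q₁ y, ← dist_eq_norm p x] at h7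
        rw [norm_mul (H : ℂ) e, he1, mul_one, Complex.norm_real, Real.norm_of_nonneg hH0.le] at h6
        have h8 := hKy q₁ hq₁
        linarith
      have hp' : q₁ + ((1 - H' : ℝ) : ℂ) * e = p + ((H + H' : ℝ) : ℂ) * (-e) := by
        rw [he]; push_cast; ring
      have hp'p : dist (q₁ + ((1 - H' : ℝ) : ℂ) * e) p = H + H' := by
        rw [hp', dist_self_add_left, norm_mul, norm_neg, he1, mul_one, Complex.norm_real,
          Real.norm_of_nonneg (by linarith)]
      have hp'U : q₁ + ((1 - H' : ℝ) : ℂ) * e ∈ U := by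
        apply claim
        · have := dist_triangle (q₁ + ((1 - H' : ℝ) : ℂ) * e) p b
          linarith
        · intro q hq hqu
          rw [hp']
          have h5 := move_near hxy (hKy q hq) (w := p) (s := H + H') (by linarith) hen
            (by linarith) (by linarith)
          have h6 := hmax' q hq hqu
          linarith
      refine h3 q₁ hq₁ e (1 - H') (1 + H) he1 (by linarith) (by linarith) ?_ ?_ ?_ hp'U ?_
      · linarith
      · have := dist_triangle (q₁ + ((1 - H' : ℝ) : ℂ) * e) p x
        linarith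
      · rw [← he]; linarith
      · rw [← he]; exact hpV
  · -- Case B
    -- `e₀ = b - q₀`
    have heq : e₀ = b - q₀ := by
      have h5 : 1 + d ≤ ‖u - q₀‖ := by rw [← dist_eq_norm]; exact hout
      have h6 : ‖b - q₀‖ = 1 := by rw [← dist_eq_norm]; exact hbq₀
      have h7 : u - q₀ = d * e₀ + (b - q₀) := by rw [he₀]; ring
      have h8 : 1 + d ≤ ‖(d : ℂ) * e₀ + (b - q₀)‖ := by rw [← h7]; exact h5
      set f : ℂ := b - q₀ with hf
      have h9 : (1 + d) ^ 2 ≤ Complex.normSq ((d : ℂ) * e₀ + f) := by
        rw [Complex.normSq_eq_norm_sq]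
        exact pow_le_pow_left₀ (by linarith) h8 2
      have h10 : Complex.normSq e₀ = 1 := by rw [Complex.normSq_eq_norm_sq, he₀1]; norm_num
      have h11 : Complex.normSq f = 1 := by rw [Complex.normSq_eq_norm_sq, h6]; norm_num
      have h12 : Complex.normSq (e₀ - f) ≤ 0 := by
        rw [Complex.normSq_apply] at h9 h10 h11 ⊢
        simp only [Complex.sub_re, Complex.sub_im, Complex.add_re, Complex.add_im,
          Complex.mul_re, Complex.mul_im,
          Complex.ofReal_re, Complex.ofReal_im, zero_mul, sub_zero, add_zero] at h9 h10 h11 ⊢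
        have h13 : d * (e₀.re * f.re + e₀.im * f.im) ≥ d := by nlinarith
        have h14 : e₀.re * f.re + e₀.im * f.im ≥ 1 := by
          by_contra hcon
          push Not at hcon
          nlinarith
        nlinarith
      have h13 : Complex.normSq (e₀ - f) = 0 := le_antisymm h12 (Complex.normSq_nonneg _)
      rw [Complex.normSq_eq_zero, sub_eq_zero] at h13
      exact h13
    have he₀n : ‖-e₀ - (y - x)‖ ≤ 1 / 10 := by
      have h5 : -e₀ - (y - x) = (q₀ - y) - (b - x) := by rw [heq]; ring
      rw [h5]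
      have h6 := norm_sub_le (q₀ - y) (b - x)
      rw [← dist_eq_norm q₀ y, ← dist_eq_norm b x] at h6
      have h7 := hKy q₀ hq₀
      linarith
    -- moving away
    have moveaway : ∀ (q w : ℂ) (s : ℝ), q ∈ K → dist (w + s * e₀) x < 1 / 100 → 0 ≤ s →
        s ≤ 1 / 2 → dist w q ≤ dist (w + s * e₀) q - 17 / 20 * s := by
      intro q w s hq hw hs hs'
      have h5 := move_near hxy (hKy q hq) (w := w + s * e₀) hw he₀n hs hs'
      have h6 : w + s * e₀ + s * -e₀ = w := by ring
      rwa [h6] at h5
    have claim : ∀ w : ℂ, dist w b < d / 4 → (∀ q ∈ K, 1 + d ≤ dist u q → 1 < dist w q) →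
        w ∈ U := by
      intro w hwb hwq
      have hwx : dist w x < δ / 2 := by
        have := dist_triangle w b x
        linarith
      refine segment_in h.hU h.hV h.disj (l := d / 2) (e := e₀) (by positivity) ?_ ?_
      · intro s hs0 hs1
        by_contra hcon
        have hwsx : dist (w + s * e₀) x < δ := by
          have h5 : dist (w + s * e₀) w = s := by
            rw [dist_self_add_left, norm_mul, he₀1, mul_one, Complex.norm_real,
              Real.norm_of_nonneg hs0]
          have := dist_triangle (w + s * e₀) w x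
          linarith
        obtain ⟨q, hq, hq1⟩ := h2 _ hcon hwsx
        have h5 := moveaway q w s hq (by linarith) hs0 (by linarith)
        rcases hdich q hq with h6 | h6
        · -- near points
          have hbs : dist (b + s * e₀) q ≤ 1 - d := by
            have h8 : b + s * e₀ + ((d - s : ℝ) : ℂ) * e₀ = u := by
              rw [he₀]; push_cast; ring
            have h7 := moveaway q (b + s * e₀) (d - s) hq (by rw [h8]; linarith) (by linarith)
              (by linarith)
            rw [h8] at h7
            linarith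
          have h9 : dist (w + s * e₀) (b + s * e₀) < d / 4 := by rwa [dist_add_right]
          have h10 := dist_triangle (w + s * e₀) (b + s * e₀) q
          linarith
        · have h7 := hwq q hq h6
          linarith
      · apply hball
        rw [Metric.mem_ball, he₀]
        have h5 : dist (w + (d / 2 : ℝ) * e₀) (b + d * e₀) ≤ dist w b + d / 2 := by
          rw [dist_eq_norm, dist_eq_norm]
          have h6 : w + (d / 2 : ℝ) * e₀ - (b + d * e₀) = (w - b) - ((d / 2 : ℝ) : ℂ) * e₀ := by
            push_cast; ring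
          rw [h6]
          have h7 := norm_sub_le (w - b) (((d / 2 : ℝ) : ℂ) * e₀)
          rwa [norm_mul ((d / 2 : ℝ) : ℂ) e₀, he₀1, mul_one, Complex.norm_real,
            Real.norm_of_nonneg (by positivity)] at h7
        linarith
    obtain ⟨p, hpV, hpb⟩ := Metric.mem_closure_iff.1 (h.bd hb).2 (d / 16) (by positivity)
    rw [dist_comm] at hpb
    have hpU : p ∉ U := fun hp => (Set.disjoint_left.1 h.disj) hp hpV
    have hpx : dist p x < δ / 2 := by
      have := dist_triangle p b x
      linarith
    have hKout : IsCompact {q | q ∈ K ∧ 1 + d ≤ dist u q} := by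
      have : IsClosed {q : ℂ | 1 + d ≤ dist u q} := isClosed_le continuous_const (by fun_prop)
      exact hK.inter_right this
    obtain ⟨q₁, ⟨hq₁, hq₁u⟩, hmin⟩ := hKout.exists_isMinOn ⟨q₀, hq₀, hout⟩
      (f := fun q => dist p q) (by fun_prop)
    have hmin' : ∀ q ∈ K, 1 + d ≤ dist u q → dist p q₁ ≤ dist p q := fun q hq hqu =>
      hmin ⟨hq, hqu⟩
    rcases lt_trichotomy 1 (dist p q₁) with hlt | heq1 | hgt
    · exact hpU (claim p (by linarith) fun q hq hqu => hlt.trans_le (hmin' q hq hqu))
    · exact h1 q₁ hq₁ p (by linarith) heq1.symm (Or.inr hpV)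
    · set H : ℝ := 1 - dist p q₁ with hH
      have hH0 : 0 < H := by linarith
      have hHd : H < d / 16 := by
        have h5 := dist_triangle_left b q₁ p
        have h6 := dist_triangle u b q₁
        linarith
      obtain ⟨H', hH'1, hH'2, hrel⟩ := exists_root_below hH0 (by linarith)
      have hpq : dist p q₁ = 1 - H := by rw [hH]; ring
      have hne : ((1 - H : ℝ) : ℂ) ≠ 0 := by
        have : 1 - H ≠ 0 := by linarith
        exact_mod_cast this
      obtain ⟨e, he⟩ : ∃ e : ℂ, p = q₁ + (1 - H : ℝ) * e :=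
        ⟨(p - q₁) / (1 - H : ℝ), by field_simp; ring⟩
      have he1 : ‖e‖ = 1 := by
        have h5 : dist p q₁ = (1 - H) * ‖e‖ := by
          rw [dist_eq_norm]
          have : p - q₁ = (1 - H : ℝ) * e := by rw [he]; ring
          rw [this, norm_mul, Complex.norm_real, Real.norm_of_nonneg (by linarith)]
        rw [hpq] at h5
        have h6 : (1 - H) * (‖e‖ - 1) = 0 := by linarith
        rcases mul_eq_zero.1 h6 with h' | h'
        · linarith
        · linarith
      have hen : ‖-e - (y - x)‖ ≤ 1 / 10 := by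
        have h5 : -e - (y - x) = ((q₁ - y) - (p - x)) - (H : ℂ) * e := by
          have : (p : ℂ) - q₁ = (1 - H : ℝ) * e := by rw [he]; ring
          push_cast at this
          linear_combination this
        rw [h5]
        have h6 := norm_sub_le ((q₁ - y) - (p - x)) ((H : ℂ) * e)
        have h7 := norm_sub_le (q₁ - y) (p - x)
        rw [← dist_eq_norm q₁ y, ← dist_eq_norm p x] at h7
        rw [norm_mul (H : ℂ) e, he1, mul_one, Complex.norm_real, Real.norm_of_nonneg hH0.le] at h6
        have h8 := hKy q₁ hq₁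
        linarith
      have hp' : q₁ + ((1 + H' : ℝ) : ℂ) * e + ((H + H' : ℝ) : ℂ) * (-e) = p := by
        rw [he]; push_cast; ring
      have hp'p : dist (q₁ + ((1 + H' : ℝ) : ℂ) * e) p = H + H' := by
        have : q₁ + ((1 + H' : ℝ) : ℂ) * e = p + ((H + H' : ℝ) : ℂ) * e := by
          rw [he]; push_cast; ring
        rw [this, dist_self_add_left, norm_mul, he1, mul_one, Complex.norm_real,
          Real.norm_of_nonneg (by linarith)]
      have hp'x : dist (q₁ + ((1 + H' : ℝ) : ℂ) * e) x < δ := by
        have := dist_triangle (q₁ + ((1 + H' : ℝ) : ℂ) * e) p x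
        linarith
      have hp'U : q₁ + ((1 + H' : ℝ) : ℂ) * e ∈ U := by
        apply claim
        · have := dist_triangle (q₁ + ((1 + H' : ℝ) : ℂ) * e) p b
          linarith
        · intro q hq hqu
          have h5 := move_near hxy (hKy q hq) (w := q₁ + ((1 + H' : ℝ) : ℂ) * e) (s := H + H')
            (by linarith) hen (by linarith) (by linarith)
          rw [hp'] at h5
          have h6 := hmin' q hq hqu
          linarith
      refine h3 q₁ hq₁ e (1 + H') (1 - H) he1 (by linarith) (by linarith) ?_ hp'x ?_ hp'U ?_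
      · linarith
      · rw [← he]; linarith
      · rw [← he]; exact hpV

end Pool.Agent.Lib.P3852e9
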