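import Mathlib
import Pool.Agent.Lib.P3852e9.Conf

/-!
MODULE P3852e9.SumArcs (0.4 h)

`sum_arcs`: the set of sums `cis α + cis β`, `(α, β)` in a nonempty open set, has an interior point.
Proof: by openness there is `(α, β) ∈ O` with `sin (α - β) ≠ 0` (move `α` slightly). The map
`F (α, β) = cis α + cis β` is `C¹` (`HasStrictFDerivAt`), with derivative
`(s, t) ↦ s * (I * cis α) + t * (I * cis β)`, which is surjective since `sin (α - β) ≠ 0` (solve the
2x2 system explicitly). `HasStrictFDerivAt.map_nhds_eq_of_surj` gives `F '' O ∈ 𝓝 (F (α, β))`.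

`sum_arcs_meets`: for `q : ℂ` there is `(α, β) ∈ O` with `q + cis (α + a) + cis (β + b) ∈ U ∪ V`.
Proof: apply `sum_arcs` to the translate of `O` by `(a, b)`, then `Conf.meets` to the interior of
the image translated by `q`.
-/

set_option autoImplicit false

namespace Pool.Agent.Lib.P3852e9

open Set Topology

namespace SumArcsAux

lemma strict_cis (t : ℝ) : HasStrictDerivAt cis (cis t * Complex.I) t := by
  have h1 : HasStrictDerivAt (fun x : ℝ => (x : ℂ) * Complex.I) (1 * Complex.I) t :=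
    (Complex.ofRealCLM.hasStrictDerivAt (x := t)).mul_const Complex.I
  have h2 := HasStrictDerivAt.cexp h1
  rw [one_mul] at h2
  exact h2

lemma exists_sin_ne {O : Set (ℝ × ℝ)} (hO : IsOpen O) (hne : O.Nonempty) :
    ∃ p ∈ O, Real.sin (p.1 - p.2) ≠ 0 := by
  obtain ⟨⟨α, β⟩, hp⟩ := hne
  by_cases hs : Real.sin (α - β) = 0
  · have hc : Real.cos (α - β) ≠ 0 := by
      intro hc
      have := Real.sin_sq_add_cos_sq (α - β)
      rw [hs, hc] at this
      norm_num at this
    have hcont : Continuous (fun t : ℝ => ((α + t, β) : ℝ × ℝ)) := by fun_prop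
    have h1 : (fun t : ℝ => ((α + t, β) : ℝ × ℝ)) ⁻¹' O ∈ 𝓝 (0 : ℝ) := by
      apply (hO.preimage hcont).mem_nhds
      change (α + 0, β) ∈ O
      rw [add_zero]; exact hp
    obtain ⟨ε, hε, hball⟩ := Metric.mem_nhds_iff.1 h1
    have hpi := Real.pi_pos
    refine ⟨(α + min (ε / 2) 1, β), ?_, ?_⟩
    · apply hball
      rw [Metric.mem_ball, dist_zero_right, Real.norm_eq_abs, abs_of_pos (by positivity)]
      have := min_le_left (ε / 2) (1 : ℝ)
      linarith
    · change Real.sin (α + min (ε / 2) 1 - β) ≠ 0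
      rw [show α + min (ε / 2) 1 - β = (α - β) + min (ε / 2) 1 by ring, Real.sin_add, hs, zero_mul,
        zero_add]
      apply mul_ne_zero hc
      apply ne_of_gt
      apply Real.sin_pos_of_pos_of_lt_pi (by positivity)
      have := min_le_right (ε / 2) (1 : ℝ)
      linarith [Real.pi_gt_three]
  · exact ⟨(α, β), hp, hs⟩

end SumArcsAux

theorem sum_arcs {O : Set (ℝ × ℝ)} (hO : IsOpen O) (hne : O.Nonempty) :
    (interior ((fun p : ℝ × ℝ => cis p.1 + cis p.2) '' O)).Nonempty := by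
  obtain ⟨⟨α, β⟩, hp, hs⟩ := SumArcsAux.exists_sin_ne hO hne
  have h1 : HasStrictFDerivAt (fun p : ℝ × ℝ => cis p.1) _ (α, β) :=
    (SumArcsAux.strict_cis α).hasStrictFDerivAt.comp (α, β) hasStrictFDerivAt_fst
  have h2 : HasStrictFDerivAt (fun p : ℝ × ℝ => cis p.2) _ (α, β) :=
    (SumArcsAux.strict_cis β).hasStrictFDerivAt.comp (α, β) hasStrictFDerivAt_snd
  have h3 := h1.add h2
  have h4 := h3.map_nhds_eq_of_surj (by
    rw [LinearMap.range_eq_top]
    intro z
    have hD : Real.sin (α - β) ≠ 0 := hs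
    have hDe := Real.sin_sub α β
    obtain ⟨s, hs'⟩ : ∃ s : ℝ,
      s = (z.re * Real.cos β + z.im * Real.sin β) / (-Real.sin (α - β)) := ⟨_, rfl⟩
    obtain ⟨t, ht'⟩ : ∃ t : ℝ,
      t = (Real.sin α * z.im + Real.cos α * z.re) / Real.sin (α - β) := ⟨_, rfl⟩
    have e1 : s * Real.sin (α - β) = -(z.re * Real.cos β + z.im * Real.sin β) := by
      rw [hs', div_neg, neg_mul, div_mul_cancel₀ _ hD]
    have e2 : t * Real.sin (α - β) = Real.sin α * z.im + Real.cos α * z.re := by
      rw [ht', div_mul_cancel₀ _ hD]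
    refine ⟨(s, t), ?_⟩
    change s • (cis α * Complex.I) + t • (cis β * Complex.I) = z
    have hsc1 := Real.sin_sq_add_cos_sq α
    have hsc2 := Real.sin_sq_add_cos_sq β
    apply Complex.ext
    · rw [Complex.add_re, Complex.smul_re, Complex.smul_re, Complex.mul_I_re, Complex.mul_I_re,
        cis_im, cis_im, smul_eq_mul, smul_eq_mul]
      apply mul_right_cancel₀ hD
      have : (s * -Real.sin α + t * -Real.sin β) * Real.sin (α - β)
          = -(s * Real.sin (α - β)) * Real.sin α - (t * Real.sin (α - β)) * Real.sin β := by ring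
      rw [this, e1, e2, hDe]
      ring
    · rw [Complex.add_im, Complex.smul_im, Complex.smul_im, Complex.mul_I_im, Complex.mul_I_im,
        cis_re, cis_re, smul_eq_mul, smul_eq_mul]
      apply mul_right_cancel₀ hD
      have : (s * Real.cos α + t * Real.cos β) * Real.sin (α - β)
          = (s * Real.sin (α - β)) * Real.cos α + (t * Real.sin (α - β)) * Real.cos β := by ring
      rw [this, e1, e2, hDe]
      ring)
  refine ⟨cis α + cis β, ?_⟩
  rw [mem_interior_iff_mem_nhds]
  have h5 : (fun p : ℝ × ℝ => cis p.1 + cis p.2) '' O ∈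
      Filter.map (fun p : ℝ × ℝ => cis p.1 + cis p.2) (𝓝 (α, β)) :=
    Filter.image_mem_map (hO.mem_nhds hp)
  have h6 : Filter.map (fun p : ℝ × ℝ => cis p.1 + cis p.2) (𝓝 (α, β)) = 𝓝 (cis α + cis β) := h4
  rw [h6] at h5
  exact h5

theorem sum_arcs_meets {U V : Set ℂ} {r : ℝ} (h : Conf U V r) {O : Set (ℝ × ℝ)} (hO : IsOpen O)
    (hne : O.Nonempty) (q : ℂ) (a b : ℝ) :
    ∃ p ∈ O, q + cis (p.1 + a) + cis (p.2 + b) ∈ U ∪ V := by
  let O' : Set (ℝ × ℝ) := (fun p : ℝ × ℝ => (p.1 - a, p.2 - b)) ⁻¹' O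
  have hO' : IsOpen O' := hO.preimage (by fun_prop)
  have hne' : O'.Nonempty := by
    obtain ⟨p, hp⟩ := hne
    refine ⟨(p.1 + a, p.2 + b), ?_⟩
    change (p.1 + a - a, p.2 + b - b) ∈ O
    rw [add_sub_cancel_right, add_sub_cancel_right]
    exact hp
  obtain ⟨w, hw⟩ := sum_arcs hO' hne'
  let W : Set ℂ := (fun z : ℂ => z - q) ⁻¹'
    (interior ((fun p : ℝ × ℝ => cis p.1 + cis p.2) '' O'))
  have hW : IsOpen W := isOpen_interior.preimage (by fun_prop)
  have hWne : W.Nonempty := ⟨w + q, by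
    change w + q - q ∈ (interior ((fun p : ℝ × ℝ => cis p.1 + cis p.2) '' O'))
    rw [add_sub_cancel_right]; exact hw⟩
  obtain ⟨z, hz1, hz2⟩ := h.meets hW hWne
  have hz1' : z - q ∈ (fun p : ℝ × ℝ => cis p.1 + cis p.2) '' O' := interior_subset hz1
  obtain ⟨p, hp1, hp2⟩ := hz1'
  refine ⟨(p.1 - a, p.2 - b), hp1, ?_⟩
  have hp2' : cis p.1 + cis p.2 = z - q := hp2
  have e1 : q + cis (p.1 - a + a) + cis (p.2 - b + b) = z := by
    rw [sub_add_cancel, sub_add_cancel]
    linear_combination hp2'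
  rw [e1]; exact hz2

end Pool.Agent.Lib.P3852e9
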