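import Mathlib
import Pool.Agent.Lib.P3852e9.Conf
import Pool.Agent.Lib.P3852e9.SumArcs

/-!
MODULE P3852e9.Refl (1 h): the reflection.

`step`: if the arc `q + cis t`, `|t - α| < η`, is contained in the boundary `B = (U ∪ V)ᶜ` and
`q + cis α + cis β ∈ U`, then `q + cis α + cis (β ± 2π/3) ∉ V`. (Take `σ = 1` or `σ = -1`.)
Proof: suppose it is in `V`. By continuity there is a neighbourhood `O` of `(α, β)` such that for all
`(α', β') ∈ O`: `|α' - α| < η`, `q + cis α' + cis β' ∈ U` and `q + cis α' + cis (β' + σ 2π/3) ∈ V`.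
The point `p = q + cis α'` is in `B`, the points `p + cis β'` and `w = p + cis (β' + σ π/3)` are at
distance 1 (`dist_cis_pi_div_three`), so `w ∉ U` by `Conf.not_both_U`; similarly `w ∉ V` (with
`p + cis (β' + σ 2π/3) ∈ V`). So `w ∈ B` for all `(α', β') ∈ O`, contradicting `sum_arcs_meets` (`a = 0`,
`b = σ π/3`).

`refl`: if the arc `q + cis t`, `|t - t₀| < η`, is contained in `B`, `|α - t₀| < η`,
`|β - 2π/3 - t₀| < η` and `q + cis α + cis β ∈ U`, then `q + cis (α + 2π/3) + cis (β - 2π/3) ∉ V`.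
Proof: suppose it is in `V`; let `O` be an open neighbourhood of `(α, β)` such that for
`(α', β') ∈ O`: `|α' - t₀| < η`, `|β' - 2π/3 - t₀| < η`, `q + cis α' + cis β' ∈ U` and
`q + cis (α' + 2π/3) + cis (β' - 2π/3) ∈ V`. By `step` (base point `q + cis α'`, `σ = -1`):
`q + cis α' + cis (β' - 2π/3) ∉ V` for all `(α', β') ∈ O`. By `sum_arcs_meets` (`a = 0`, `b = -2π/3`)
for some `(α', β') ∈ O` this point is in `U`. By `step` again (base point
`q + cis (β' - 2π/3)`, angle `α'`, `σ = 1`): `q + cis (β' - 2π/3) + cis (α' + 2π/3) ∉ V`,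
contradiction.

`refl_near`: the same along rays, near the unit circle. Proof: write `w = q + s e`,
`w' = q + s' e` with `e = cis χ`, where `χ` can be chosen close to `ψ` (`‖e - cis ψ‖` is small: choose
`χ = ψ + arg (e / cis ψ)`, or use `Real.Angle`), `s = 2 cos τ`, `τ = arccos (s / 2)` close to `π / 3`,
and `s' = 2 cos (2π/3 - τ)`: indeed both `s'` and `2 cos (2π/3 - τ)` are positive roots of
`X² + s X + s² - 3 = 0` (which has at most one positive root if `s² < 3`; note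
`(s - s'')(s + s' + s'') = 0`). Then apply `refl` with `t₀ = ψ - π/3`, `α = χ - τ`, `β = χ + τ`, using
`cis_add_cis` twice.
-/

set_option autoImplicit false

namespace Pool.Agent.Lib.P3852e9

open Set Topology

variable {U V : Set ℂ} {r : ℝ}

namespace ReflAux

theorem dist_sigma (z : ℂ) (t : ℝ) {σ : ℝ} (hσ : σ = 1 ∨ σ = -1) :
    dist (z + cis t) (z + cis (t + σ * (Real.pi / 3))) = 1 := by
  rcases hσ with rfl | rfl
  · rw [one_mul]
    exact dist_cis_pi_div_three z t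
  · rw [dist_comm]
    have h := dist_cis_pi_div_three z (t + -1 * (Real.pi / 3))
    have e : t + -1 * (Real.pi / 3) + Real.pi / 3 = t := by ring
    rwa [e] at h

end ReflAux

theorem step (h : Conf U V r) {q : ℂ} {α η : ℝ} (hη : 0 < η)
    (harc : ∀ t : ℝ, |t - α| < η → q + cis t ∈ (U ∪ V)ᶜ) {β σ : ℝ} (hσ : σ = 1 ∨ σ = -1)
    (hU : q + cis α + cis β ∈ U) : q + cis α + cis (β + σ * (2 * Real.pi / 3)) ∉ V := by
  intro hV
  let O : Set (ℝ × ℝ) := {p | |p.1 - α| < η} ∩ ({p | q + cis p.1 + cis p.2 ∈ U} ∩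
    {p | q + cis p.1 + cis (p.2 + σ * (2 * Real.pi / 3)) ∈ V})
  have hc := continuous_cis
  have hO : IsOpen O := by
    refine IsOpen.inter ?_ (IsOpen.inter ?_ ?_)
    · exact isOpen_lt (by fun_prop) (by fun_prop)
    · exact h.hU.preimage (f := fun p : ℝ × ℝ => q + cis p.1 + cis p.2) (by fun_prop)
    · exact h.hV.preimage
        (f := fun p : ℝ × ℝ => q + cis p.1 + cis (p.2 + σ * (2 * Real.pi / 3))) (by fun_prop)
  have hne : O.Nonempty := ⟨(α, β), by
    refine ⟨?_, hU, hV⟩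
    change |α - α| < η
    rw [sub_self, abs_zero]; exact hη⟩
  obtain ⟨p, ⟨hp1, hp2, hp3⟩, hp4⟩ := sum_arcs_meets h hO hne q 0 (σ * (Real.pi / 3))
  rw [add_zero] at hp4
  have hP : q + cis p.1 ∈ (U ∪ V)ᶜ := harc _ hp1
  rcases hp4 with hw | hw
  · exact h.not_both_U hP (dist_self_cis _ _) (dist_self_cis _ _)
      (ReflAux.dist_sigma _ p.2 hσ) ⟨hp2, hw⟩
  · have e : p.2 + σ * (2 * Real.pi / 3) = p.2 + σ * (Real.pi / 3) + σ * (Real.pi / 3) := by ring
    have hp3' : q + cis p.1 + cis (p.2 + σ * (2 * Real.pi / 3)) ∈ V := hp3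
    rw [e] at hp3'
    exact h.not_both_V hP (dist_self_cis _ _) (dist_self_cis _ _)
      (ReflAux.dist_sigma _ (p.2 + σ * (Real.pi / 3)) hσ) ⟨hw, hp3'⟩

theorem refl (h : Conf U V r) {q : ℂ} {t₀ η : ℝ}
    (harc : ∀ t : ℝ, |t - t₀| < η → q + cis t ∈ (U ∪ V)ᶜ) {α β : ℝ} (hα : |α - t₀| < η)
    (hβ : |β - 2 * Real.pi / 3 - t₀| < η) (hU : q + cis α + cis β ∈ U) :
    q + cis (α + 2 * Real.pi / 3) + cis (β - 2 * Real.pi / 3) ∉ V := by
  intro hV
  let O : Set (ℝ × ℝ) := {p | |p.1 - t₀| < η} ∩ ({p | |p.2 - 2 * Real.pi / 3 - t₀| < η} ∩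
    ({p | q + cis p.1 + cis p.2 ∈ U} ∩
    {p | q + cis (p.1 + 2 * Real.pi / 3) + cis (p.2 - 2 * Real.pi / 3) ∈ V}))
  have hc := continuous_cis
  have hO : IsOpen O := by
    refine IsOpen.inter ?_ (IsOpen.inter ?_ (IsOpen.inter ?_ ?_))
    · exact isOpen_lt (by fun_prop) (by fun_prop)
    · exact isOpen_lt (by fun_prop) (by fun_prop)
    · exact h.hU.preimage (f := fun p : ℝ × ℝ => q + cis p.1 + cis p.2) (by fun_prop)
    · exact h.hV.preimage
        (f := fun p : ℝ × ℝ => q + cis (p.1 + 2 * Real.pi / 3) + cis (p.2 - 2 * Real.pi / 3))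
        (by fun_prop)
  have hne : O.Nonempty := ⟨(α, β), hα, hβ, hU, hV⟩
  obtain ⟨p, ⟨hp1, hp2, hp3, hp4⟩, hp5⟩ := sum_arcs_meets h hO hne q 0 (-(2 * Real.pi / 3))
  have hp1' : |p.1 - t₀| < η := hp1
  have hp2' : |p.2 - 2 * Real.pi / 3 - t₀| < η := hp2
  have hp3' : q + cis p.1 + cis p.2 ∈ U := hp3
  have hp4' : q + cis (p.1 + 2 * Real.pi / 3) + cis (p.2 - 2 * Real.pi / 3) ∈ V := hp4
  rw [add_zero] at hp5
  have h1 : q + cis p.1 + cis (p.2 + -1 * (2 * Real.pi / 3)) ∉ V := by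
    apply step h (η := η - |p.1 - t₀|) (by linarith) _ (Or.inr rfl) hp3'
    intro t ht
    apply harc
    have h2 : |t - t₀| ≤ |t - p.1| + |p.1 - t₀| := abs_sub_le _ _ _
    linarith
  have e1 : p.2 + -1 * (2 * Real.pi / 3) = p.2 + -(2 * Real.pi / 3) := by ring
  rw [e1] at h1
  have h2 : q + cis p.1 + cis (p.2 + -(2 * Real.pi / 3)) ∈ U := by
    rcases hp5 with h3 | h3
    · exact h3
    · exact absurd h3 h1
  have e2 : p.2 + -(2 * Real.pi / 3) = p.2 - 2 * Real.pi / 3 := by ring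
  rw [e2] at h2
  have h3 : q + cis (p.2 - 2 * Real.pi / 3) + cis p.1 ∈ U := by
    have e3 : q + cis (p.2 - 2 * Real.pi / 3) + cis p.1
        = q + cis p.1 + cis (p.2 - 2 * Real.pi / 3) := by ring
    rw [e3]; exact h2
  have h4 : q + cis (p.2 - 2 * Real.pi / 3) + cis (p.1 + 1 * (2 * Real.pi / 3)) ∉ V := by
    apply step h (η := η - |p.2 - 2 * Real.pi / 3 - t₀|) (by linarith) _ (Or.inl rfl) h3
    intro t ht
    apply harc
    have h5 : |t - t₀| ≤ |t - (p.2 - 2 * Real.pi / 3)| + |p.2 - 2 * Real.pi / 3 - t₀| :=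
      abs_sub_le _ _ _
    linarith
  apply h4
  have e4 : q + cis (p.2 - 2 * Real.pi / 3) + cis (p.1 + 1 * (2 * Real.pi / 3))
      = q + cis (p.1 + 2 * Real.pi / 3) + cis (p.2 - 2 * Real.pi / 3) := by
    rw [one_mul]; ring
  rw [e4]; exact hp4'

theorem refl_near {η : ℝ} (hη : 0 < η) : ∃ δ > 0, ∀ (U V : Set ℂ) (r : ℝ), Conf U V r →
    ∀ (q e : ℂ) (ψ s s' : ℝ),
      (∀ t : ℝ, |t - (ψ - Real.pi / 3)| < η → q + cis t ∈ (U ∪ V)ᶜ) →
      ‖e‖ = 1 → ‖e - cis ψ‖ < δ → |s - 1| < δ → 0 < s' → s ^ 2 + s * s' + s' ^ 2 = 3 →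
      q + s * e ∈ U → q + s' * e ∉ V := by
  have hpi := Real.pi_pos
  have harc0 : Real.arccos (1 / 2) = Real.pi / 3 := by
    rw [← Real.cos_pi_div_three]
    exact Real.arccos_cos (by linarith) (by linarith)
  obtain ⟨δ₁, hδ₁, hcont⟩ := Metric.continuousAt_iff.1
    (Real.continuous_arccos.continuousAt (x := (1 / 2 : ℝ))) (η / 2) (by linarith)
  refine ⟨min (min δ₁ (η / 4)) (1 / 2), by positivity, ?_⟩
  intro U V r h q e ψ s s' harc he hed hs hs' hss hU hV
  obtain ⟨χ, rfl, hχ⟩ := exists_cis_near he ψ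
  have hd1 : min (min δ₁ (η / 4)) (1 / 2) ≤ δ₁ := (min_le_left _ _).trans (min_le_left _ _)
  have hd2 : min (min δ₁ (η / 4)) (1 / 2) ≤ η / 4 := (min_le_left _ _).trans (min_le_right _ _)
  have hd3 : min (min δ₁ (η / 4)) (1 / 2) ≤ 1 / 2 := min_le_right _ _
  have hχ' : |χ - ψ| < η / 2 := by linarith
  have hs3 : |s - 1| < 1 / 2 := by linarith
  rw [abs_lt] at hs3
  have hs1 : dist (s / 2) (1 / 2) < δ₁ := by
    rw [Real.dist_eq, show s / 2 - 1 / 2 = (s - 1) / 2 by ring, abs_div, abs_two]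
    have := abs_nonneg (s - 1)
    linarith
  have hτ := hcont hs1
  rw [harc0, Real.dist_eq] at hτ
  obtain ⟨τ, hτdef⟩ : ∃ τ, τ = Real.arccos (s / 2) := ⟨_, rfl⟩
  rw [← hτdef] at hτ
  have hcos : Real.cos τ = s / 2 := by
    rw [hτdef]; exact Real.cos_arccos (by linarith) (by linarith)
  have hsin : 0 ≤ Real.sin τ := by
    rw [hτdef]
    exact Real.sin_nonneg_of_nonneg_of_le_pi (Real.arccos_nonneg _) (Real.arccos_le_pi _)
  have hsc := Real.sin_sq_add_cos_sq τ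
  have h3 : Real.sqrt 3 ^ 2 = 3 := Real.sq_sqrt (by norm_num)
  have h3' : 0 ≤ Real.sqrt 3 := Real.sqrt_nonneg _
  -- the value of s'
  have hcos2 : 2 * Real.cos (τ - 2 * Real.pi / 3) = - Real.cos τ + Real.sqrt 3 * Real.sin τ := by
    have e1 : 2 * Real.pi / 3 = Real.pi - Real.pi / 3 := by ring
    rw [Real.cos_sub, e1, Real.cos_pi_sub, Real.sin_pi_sub, Real.cos_pi_div_three,
      Real.sin_pi_div_three]
    ring
  have hs'' : s' = 2 * Real.cos (τ - 2 * Real.pi / 3) := by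
    obtain ⟨u, hu⟩ : ∃ u, u = 2 * Real.cos (τ - 2 * Real.pi / 3) := ⟨_, rfl⟩
    rw [← hu] at hcos2 ⊢
    have hs2 : s = 2 * Real.cos τ := by linarith
    have h4 : s ^ 2 + s * u + u ^ 2 = 3 := by
      rw [hs2, hcos2]
      have : (2 * Real.cos τ) ^ 2 + 2 * Real.cos τ * (-Real.cos τ + Real.sqrt 3 * Real.sin τ)
          + (-Real.cos τ + Real.sqrt 3 * Real.sin τ) ^ 2
          = 3 * Real.cos τ ^ 2 + Real.sqrt 3 ^ 2 * Real.sin τ ^ 2 := by ring
      rw [this, h3]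
      linarith
    have h5 : (s' - u) * (s + s' + u) = 0 := by
      have : (s' - u) * (s + s' + u) = (s ^ 2 + s * s' + s' ^ 2) - (s ^ 2 + s * u + u ^ 2) := by
        ring
      rw [this, hss, h4, sub_self]
    have h6 : 0 < s + s' + u := by
      have h7 : 0 ≤ Real.sqrt 3 * Real.sin τ := mul_nonneg h3' hsin
      rw [hcos2]
      linarith
    rcases mul_eq_zero.1 h5 with h7 | h7
    · linarith
    · exact absurd h7 h6.ne'
  rw [abs_lt] at hτ hχ'
  have hα : |χ - τ - (ψ - Real.pi / 3)| < η := by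
    rw [abs_lt]; constructor <;> linarith
  have hβ : |χ + τ - 2 * Real.pi / 3 - (ψ - Real.pi / 3)| < η := by
    rw [abs_lt]; constructor <;> linarith
  have hU' : q + cis (χ - τ) + cis (χ + τ) ∈ U := by
    have e1 : q + cis (χ - τ) + cis (χ + τ) = q + s * cis χ := by
      rw [add_assoc, cis_add_cis, hcos]
      congr 3
      ring
    rw [e1]; exact hU
  have h8 := refl h harc hα hβ hU'
  apply h8
  have e2 : q + cis (χ - τ + 2 * Real.pi / 3) + cis (χ + τ - 2 * Real.pi / 3)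
      = q + s' * cis χ := by
    have e3 : χ - τ + 2 * Real.pi / 3 = χ - (τ - 2 * Real.pi / 3) := by ring
    have e4 : χ + τ - 2 * Real.pi / 3 = χ + (τ - 2 * Real.pi / 3) := by ring
    rw [e3, e4, add_assoc, cis_add_cis, hs'']
  rw [e2]; exact hV

end Pool.Agent.Lib.P3852e9
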