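import Mathlib
import Pool.Agent.Lib.P3852e9.Conf
import Pool.Agent.Lib.P3852e9.GoodDense

/-!
# The two types of good points

Suppose there is no strong crossing `SC U V y' θ` with `y'` good close to `y` and `θ` close to `ψ`.
Then a good `y'` close to `y` has exactly one type: the arc `y' + cis θ`, `θ` close to `ψ`, meets
`U` and not `V`, or conversely.
-/

set_option autoImplicit false

namespace Pool.Agent.Lib.P3852e9

open Set Topology

/-- if the arc of a good point around the angle `ψ` does not meet `V`, then the arc around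
`ψ - π/3` does not meet `U` -/
lemma no_U_of_no_V {U V : Set ℂ} {r : ℝ} (h : Conf U V r) {z : ℂ} (hz : Good U V r z) {ψ η : ℝ}
    (hV : ∀ θ : ℝ, |θ - ψ| < η → z + cis θ ∉ V) {θ : ℝ} (hθ : |θ - ψ| < η) :
    z + cis (θ - Real.pi / 3) ∉ U := by
  intro hU
  have hc := continuous_cis
  let O : Set ℝ := {s | |s - ψ| < η} ∩ {s | z + cis (s - Real.pi / 3) ∈ U}
  have hO : IsOpen O := by
    refine (isOpen_lt (by fun_prop) continuous_const).inter ?_
    exact h.hU.preimage (by fun_prop)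
  obtain ⟨s, ⟨hs1, hs2⟩, hs3⟩ := hz.2.1.inter_open_nonempty O hO ⟨θ, hθ, hU⟩
  have hs2' : z + cis (s - Real.pi / 3) ∈ U := hs2
  have hd := dist_cis_pi_div_three z (s - Real.pi / 3)
  rw [sub_add_cancel] at hd
  rcases hs3 with h3 | h3
  · exact h.not_both_U hz.1 (dist_self_cis _ _) (dist_self_cis _ _) hd ⟨hs2', h3⟩
  · exact hV s hs1 h3

/-- a good point is not of both types -/
lemma not_both_types {U V : Set ℂ} {r : ℝ} (h : Conf U V r) {z : ℂ} (hz : Good U V r z) {ψ η : ℝ}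
    (hno : ∀ θ : ℝ, |θ - ψ| < η → ¬ SC U V z θ) {θ₁ θ₂ : ℝ} (h1 : |θ₁ - ψ| < η)
    (h2 : |θ₂ - ψ| < η) (hU : z + cis θ₁ ∈ U) (hV : z + cis θ₂ ∈ V) : False := by
  have hI : IsPreconnected (Metric.ball ψ η) := (convex_ball ψ η).isPreconnected
  have hcl := (isPreconnected_closed_iff.1 hI) (closure {s : ℝ | z + cis s ∈ U})
    (closure {s : ℝ | z + cis s ∈ V}) isClosed_closure isClosed_closure (by
      rw [← closure_union]
      intro s _
      exact hz.2.1 s)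
    ⟨θ₁, by rw [Metric.mem_ball, Real.dist_eq]; exact h1, subset_closure hU⟩
    ⟨θ₂, by rw [Metric.mem_ball, Real.dist_eq]; exact h2, subset_closure hV⟩
  obtain ⟨t, ht, ht1, ht2⟩ := hcl
  rw [Metric.mem_ball, Real.dist_eq] at ht
  exact hno t ht ⟨hz.1, ht1, ht2⟩

theorem types {U V : Set ℂ} {r : ℝ} (h : Conf U V r) {y : ℂ} {ψ η : ℝ} (hη : 0 < η)
    (hno : ∀ (y' : ℂ) (θ : ℝ), Good U V r y' → dist y' y < η → |θ - ψ| < η → ¬ SC U V y' θ) :
    ∃ CU CV : Set ℂ, IsClosed CU ∧ IsClosed CV ∧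
      (∀ b ∈ (U ∪ V)ᶜ, dist b y < η → b ∈ CU ∪ CV) ∧
      (∀ q ∈ CU, ∀ θ : ℝ, |θ - ψ| < η → q + cis θ ∉ V ∧ q + cis (θ - Real.pi / 3) ∉ U) ∧
      (∀ q ∈ CV, ∀ θ : ℝ, |θ - ψ| < η → q + cis θ ∉ U ∧ q + cis (θ - Real.pi / 3) ∉ V) := by
  have hc := continuous_cis
  let TU : Set ℂ := {z | Good U V r z ∧ dist z y < η ∧ ∃ θ : ℝ, |θ - ψ| < η ∧ z + cis θ ∈ U}
  let TV : Set ℂ := {z | Good U V r z ∧ dist z y < η ∧ ∃ θ : ℝ, |θ - ψ| < η ∧ z + cis θ ∈ V}
  have hTU : ∀ z ∈ TU, ∀ θ : ℝ, |θ - ψ| < η → z + cis θ ∉ V := by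
    rintro z ⟨hz, hzy, θ₁, hθ₁, hU⟩ θ hθ hV
    exact not_both_types h hz (fun t ht => hno z t hz hzy ht) hθ₁ hθ hU hV
  have hTV : ∀ z ∈ TV, ∀ θ : ℝ, |θ - ψ| < η → z + cis θ ∉ U := by
    rintro z ⟨hz, hzy, θ₁, hθ₁, hV⟩ θ hθ hU
    exact not_both_types h hz (fun t ht => hno z t hz hzy ht) hθ hθ₁ hU hV
  -- passing to the closure
  have pass : ∀ (T W : Set ℂ) (a : ℝ), IsOpen W → (∀ z ∈ T, z + cis a ∉ W) →
      ∀ z ∈ closure T, z + cis a ∉ W := by
    intro T W a hW hT z hz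
    have hcl : IsClosed {z : ℂ | z + cis a ∉ W} :=
      (hW.preimage (by fun_prop : Continuous fun z : ℂ => z + cis a)).isClosed_compl
    exact closure_minimal (t := {z : ℂ | z + cis a ∉ W}) hT hcl hz
  refine ⟨closure TU, closure TV, isClosed_closure, isClosed_closure, ?_, ?_, ?_⟩
  · intro b hb hby
    rw [← closure_union, Metric.mem_closure_iff]
    intro ε hε
    obtain ⟨z, hz, hzb⟩ := good_dense h hb (ε := min ε (η - dist b y))
      (lt_min hε (by linarith))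
    have h1 : dist z b < ε := hzb.trans_le (min_le_left _ _)
    have h2 : dist z b < η - dist b y := hzb.trans_le (min_le_right _ _)
    have h3 : dist z y < η := by
      have := dist_triangle z b y
      linarith
    refine ⟨z, ?_, by rw [dist_comm]; exact h1⟩
    obtain ⟨t, ht, ht'⟩ := hz.2.1.exists_mem_open Metric.isOpen_ball
      (⟨ψ, Metric.mem_ball_self hη⟩ : (Metric.ball ψ η).Nonempty)
    rw [Metric.mem_ball, Real.dist_eq] at ht'
    rcases ht with h4 | h4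
    · exact Or.inl ⟨hz, h3, t, ht', h4⟩
    · exact Or.inr ⟨hz, h3, t, ht', h4⟩
  · intro q hq θ hθ
    exact ⟨pass TU V θ h.hV (fun z hz => hTU z hz θ hθ) q hq,
      pass TU U _ h.hU (fun z hz => no_U_of_no_V h hz.1 (hTU z hz) hθ) q hq⟩
  · intro q hq θ hθ
    refine ⟨pass TV U θ h.hU (fun z hz => hTV z hz θ hθ) q hq,
      pass TV V _ h.hV (fun z hz => ?_) q hq⟩
    have hz' : Good V U r z := by
      obtain ⟨h1, h2, h3⟩ := hz.1
      rw [Set.union_comm] at h1 h2 h3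
      exact ⟨h1, h2, h3⟩
    exact no_U_of_no_V h.symm hz' (hTV z hz) hθ

end Pool.Agent.Lib.P3852e9
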