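import Mathlib
import Pool.Agent.Lib.P3852e9.Conf
import Pool.Agent.Lib.P3852e9.Cover
import Pool.Agent.Lib.P3852e9.Gap
import Pool.Agent.Lib.P3852e9.Refl
import Pool.Agent.Lib.P3852e9.Types

/-!
# The symmetry of the closure of the set of strong crossings
-/

set_option autoImplicit false

namespace Pool.Agent.Lib.P3852e9

open Set Topology

variable {U V : Set ℂ} {r : ℝ}

/-- a strong crossing `(x, y)` gives an element `(y, x)` of `E` -/
theorem sc_swap (h : Conf U V r) {x : ℂ} {φ : ℝ} (hx : SC U V x φ) :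
    (x + cis φ, x) ∈ E U V r := by
  by_contra hcon
  obtain ⟨y, hy⟩ : ∃ y, y = x + cis φ := ⟨_, rfl⟩
  rw [← hy] at hcon
  set ψ : ℝ := φ + Real.pi with hψ
  have hcψ : cis ψ = -cis φ := cis_add_pi φ
  unfold E at hcon
  rw [Metric.mem_closure_iff] at hcon
  push Not at hcon
  obtain ⟨ε, hε, hno⟩ := hcon
  -- no strong crossing near `(y, x)`
  have hno' : ∀ (y' : ℂ) (θ : ℝ), Good U V r y' → dist y' y < ε / 2 → |θ - ψ| < ε / 2 →
      ¬ SC U V y' θ := by
    intro y' θ hg hd hθ hsc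
    have h1 := hno (y', y' + cis θ) ⟨θ, hg, hsc, rfl⟩
    have h2 : dist (y, x) (y', y' + cis θ) < ε := by
      rw [Prod.dist_eq, max_lt_iff]
      constructor
      · rw [dist_comm]
        change dist y' y < ε
        linarith
      · change dist x (y' + cis θ) < ε
        rw [dist_comm, dist_eq_norm]
        have h3 : y' + cis θ - x = (y' - y) + (cis θ - cis ψ) := by
          rw [hcψ, hy]; ring
        rw [h3]
        calc ‖(y' - y) + (cis θ - cis ψ)‖ ≤ ‖y' - y‖ + ‖cis θ - cis ψ‖ := norm_add_le _ _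
          _ ≤ dist y' y + |θ - ψ| := by
              rw [dist_eq_norm]
              gcongr
              exact dist_cis_le _ _
          _ < ε := by linarith
    linarith
  obtain ⟨CU, CV, hCU, hCV, hcov, hCU', hCV'⟩ := types h (half_pos hε) hno'
  set η : ℝ := ε / 2 with hη
  have hη0 : 0 < η := half_pos hε
  obtain ⟨δ₀, hδ₀, hrefl⟩ := refl_near hη0
  -- the radius
  set κ : ℝ := min (1 / 100) (min (δ₀ / 8) (η / 8)) with hκ
  have hκ0 : 0 < κ := by positivity
  have hκ1 : κ ≤ 1 / 100 := min_le_left _ _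
  have hκ2 : κ ≤ δ₀ / 8 := (min_le_right _ _).trans (min_le_left _ _)
  have hκ3 : κ ≤ η / 8 := (min_le_right _ _).trans (min_le_right _ _)
  obtain ⟨δ₁, hδ₁, hcover⟩ := cover h hx hCU hCV hη0 (by
      intro b hb hd
      rw [← hy] at hd
      exact hcov b hb hd)
    (fun q hq θ hθ => by
      have := (hCU' q hq (θ + Real.pi) (by rw [hψ]; simpa using hθ)).1
      rwa [cis_add_pi, ← sub_eq_add_neg] at this)
    (fun q hq θ hθ => by
      have := (hCV' q hq (θ + Real.pi) (by rw [hψ]; simpa using hθ)).1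
      rwa [cis_add_pi, ← sub_eq_add_neg] at this) hκ0
  rw [← hy] at hcover
  set δ : ℝ := min (κ / 2) δ₁ with hδ
  have hδ0 : 0 < δ := by positivity
  have hδκ : δ ≤ κ / 2 := min_le_left _ _
  have hδ1 : δ ≤ δ₁ := min_le_right _ _
  -- a point near `x` seen from a point near `y`
  have near : ∀ q w : ℂ, dist q y ≤ κ → dist w x < δ → ‖(w - q) - cis ψ‖ < 2 * κ := by
    intro q w hq hw
    have : (w - q) - cis ψ = (w - x) - (q - y) := by rw [hcψ, hy]; ring
    rw [this]
    calc ‖(w - x) - (q - y)‖ ≤ ‖w - x‖ + ‖q - y‖ := norm_sub_le _ _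
      _ = dist w x + dist q y := by rw [dist_eq_norm, dist_eq_norm]
      _ < 2 * κ := by linarith
  refine gap h hx.1 (y := y) (by rw [hy]; exact dist_self_cis x φ)
    (K := CU ∩ CV ∩ Metric.closedBall y κ) ?_ hδ0 (by linarith) ?_ ?_ ?_ ?_
  · exact (isCompact_closedBall y κ).inter_left (hCU.inter hCV)
  · rintro q ⟨-, hq⟩
    exact (Metric.mem_closedBall.1 hq).trans hκ1
  · rintro q ⟨⟨hqU, hqV⟩, hqy⟩ w hw hwq
    have hqy' : dist q y ≤ κ := hqy
    have h1 : ‖w - q‖ = 1 := by rw [← dist_eq_norm]; exact hwq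
    obtain ⟨θ, hθ, hθ'⟩ := exists_cis_near h1 ψ
    have h2 := near q w hqy' hw
    have h3 : |θ - ψ| < η := by linarith
    have h4 : w = q + cis θ := by rw [← hθ]; ring
    rw [h4, mem_compl_iff, mem_union, not_or]
    exact ⟨(hCV' q hqV θ h3).1, (hCU' q hqU θ h3).1⟩
  · intro b hb hd
    obtain ⟨q, hq, hqy, hbq⟩ := hcover b hb (hd.trans_le hδ1)
    exact ⟨q, ⟨hq, hqy⟩, hbq⟩
  · rintro q ⟨⟨hqU, hqV⟩, hqy⟩ e s s' he hs hs' hrel hw hw' hwU
    have hqy' : dist q y ≤ κ := hqy
    have h2 := near q _ hqy' hw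
    rw [add_sub_cancel_left] at h2
    have h3 : |s - 1| < 2 * κ := by
      have h31 : ‖(s : ℂ) * e‖ = s := by
        rw [norm_mul, he, mul_one, Complex.norm_real, Real.norm_of_nonneg hs.le]
      have h32 := abs_norm_sub_norm_le ((s : ℂ) * e) (cis ψ)
      rw [h31, norm_cis] at h32
      linarith
    have h4 : ‖e - cis ψ‖ < 4 * κ := by
      have h41 : e - cis ψ = ((s : ℂ) * e - cis ψ) - ((s - 1 : ℝ) : ℂ) * e := by
        push_cast; ring
      rw [h41]
      have h42 := norm_sub_le ((s : ℂ) * e - cis ψ) (((s - 1 : ℝ) : ℂ) * e)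
      rw [norm_mul ((s - 1 : ℝ) : ℂ) e, he, mul_one, Complex.norm_real, Real.norm_eq_abs] at h42
      linarith
    refine hrefl U V r h q e ψ s s' ?_ he (by linarith) (by linarith) hs' hrel hwU
    intro t ht
    have h5 : |t + Real.pi / 3 - ψ| < η := by
      rwa [show t + Real.pi / 3 - ψ = t - (ψ - Real.pi / 3) by ring]
    rw [mem_compl_iff, mem_union, not_or]
    have h6 := (hCU' q hqU _ h5).2
    have h7 := (hCV' q hqV _ h5).2
    rw [add_sub_cancel_right] at h6 h7
    exact ⟨h6, h7⟩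

/-- `E` is symmetric. -/
theorem E_swap (h : Conf U V r) {x y : ℂ} (hp : (x, y) ∈ E U V r) : (y, x) ∈ E U V r := by
  have h1 : E U V r ⊆ Prod.swap ⁻¹' (E U V r) := by
    unfold E
    refine closure_minimal ?_ (isClosed_closure.preimage continuous_swap)
    rintro p ⟨t, hg, hsc, hp2⟩
    have := sc_swap h hsc
    rw [← hp2] at this
    exact this
  exact h1 hp

end Pool.Agent.Lib.P3852e9
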