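import Mathlib
import Pool.Agent.Lib.P3852e9.Conf
import Pool.Agent.Lib.P3852e9.Ert
import Pool.Agent.Lib.P3852e9.Sym
import Pool.Agent.Lib.P3852e9.Rot
import Pool.Agent.Lib.P3852e9.Orbit

/-!
# No 2-colouring with the property of Baire avoids the unit triangle and the triangle of side `r`
-/

set_option autoImplicit false

namespace Pool.Agent.Lib.P3852e9

open Set Topology

/-- there is no configuration -/
theorem no_conf {U V : Set ℂ} {r : ℝ} (h : Conf U V r) : False := by
  -- the boundary is nonempty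
  have hne : ((U ∪ V)ᶜ).Nonempty := by
    by_contra hcon
    rw [Set.not_nonempty_iff_eq_empty, Set.compl_empty_iff] at hcon
    have hd1 : dist (0 : ℂ) (0 + cis 0) = 1 := dist_self_cis 0 0
    have hd2 : dist (0 : ℂ) (0 + cis (0 + Real.pi / 3)) = 1 := dist_self_cis 0 _
    have hd3 : dist (0 + cis 0) (0 + cis (0 + Real.pi / 3)) = 1 := dist_cis_pi_div_three 0 0
    rcases (isPreconnected_univ (α := ℂ)).subset_or_subset h.hU h.hV h.disj
      (by rw [hcon]) with h' | h'
    · exact h.U1 _ _ _ hd1 hd3 hd2 ⟨h' trivial, h' trivial, h' trivial⟩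
    · exact h.V1 _ _ _ hd1 hd3 hd2 ⟨h' trivial, h' trivial, h' trivial⟩
  obtain ⟨⟨x, y⟩, hxy⟩ := E_nonempty h hne
  -- an interior point would be in `B`
  have hB : ∀ z : ℂ, z ∈ (U ∪ V)ᶜ := by
    intro z
    rw [← h.isClosed.closure_eq, Metric.mem_closure_iff]
    intro ε hε
    have hd : x ≠ y := by
      have : E U V r ⊆ {p : ℂ × ℂ | dist p.1 p.2 = 1} := by
        refine closure_minimal ?_ (isClosed_eq (by fun_prop) continuous_const)
        rintro p ⟨t, -, -, hp2⟩
        rw [mem_setOf_eq, hp2]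
        exact dist_self_cis _ _
      have h1 : dist x y = 1 := this hxy
      rintro rfl
      rw [dist_self] at h1
      exact zero_ne_one h1
    obtain ⟨p, hp, hd⟩ := orbit h.hr (fun a ha x y hp => E_rot h ha hp)
      (fun x y hp => E_swap h hp) hxy hd z hε
    exact ⟨p.1, E_mem h hp, by rw [dist_comm]; exact hd⟩
  obtain ⟨z, -, hz⟩ := h.meets isOpen_univ univ_nonempty
  exact hB z hz

/-- A 2-colouring of the plane with the property of Baire does not avoid two sizes of
equilateral triangles. -/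
theorem baire_all (f : ℂ → Bool) (hf : BaireMeasurableSet {z | f z = true}) {r : ℝ} (h1 : 1 < r)
    (ha : AvTri f 1 1 1) (hr : AvTri f r r r) : False := by
  obtain ⟨U, V, hU, hV, hUV, hB, G, hG, hcol⟩ := exists_model f hf
  have h1rr : AvTri f 1 r r := avTri_of_avoid ha hr hr
  have hGU : ∀ z ∈ G, z ∈ U → f z = true := fun z hz => (hcol z hz).1
  have hGV : ∀ z ∈ G, z ∈ V → f z = false := fun z hz => (hcol z hz).2
  exact no_conf ⟨hU, hV, hUV, hB, h1, setAv_of_avTri hU hG hGU ha, setAv_of_avTri hU hG hGU h1rr,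
    setAv_of_avTri hV hG hGV ha, setAv_of_avTri hV hG hGV h1rr⟩

end Pool.Agent.Lib.P3852e9
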