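import Mathlib
import Pool.Agent.Lib.P3852e9.Defs
import Pool.Agent.Lib.P3852e9.Ert
import Pool.Agent.Lib.P3852e9.Roots
import Pool.Agent.Lib.P3852e9.Dyn
import Pool.Agent.Lib.P3852e9.Good
import Pool.Agent.Lib.P3852e9.Model

set_option autoImplicit false

namespace Pool.Agent.Lib.P3852e9

open Complex

lemma dist_circle (z : ℂ) (a b s t : ℝ) :
    dist (z + a * exp (s * I)) (z + b * exp (t * I)) ^ 2
      = a ^ 2 + b ^ 2 - 2 * a * b * Real.cos (s - t) := by
  rw [dist_add_left, dist_eq_norm, ← Complex.normSq_eq_norm_sq, Complex.normSq_apply,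
    Real.cos_sub]
  simp only [Complex.exp_mul_I, Complex.sub_re, Complex.sub_im, Complex.mul_re, Complex.mul_im,
    Complex.add_re, Complex.add_im, Complex.ofReal_re, Complex.ofReal_im, Complex.I_re,
    Complex.I_im, ← Complex.ofReal_cos, ← Complex.ofReal_sin]
  have h1 := Real.sin_sq_add_cos_sq s
  have h2 := Real.sin_sq_add_cos_sq t
  ring_nf
  nlinarith [h1, h2, sq_nonneg a, sq_nonneg b]

lemma dist_centre (z : ℂ) {a : ℝ} (ha : 0 ≤ a) (s : ℝ) :
    dist z (z + a * exp (s * I)) = a := by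
  rw [dist_self_add_right, norm_mul, Complex.norm_exp_ofReal_mul_I, mul_one, Complex.norm_real,
    Real.norm_of_nonneg ha]

lemma dist_circle_eq (z : ℂ) {a b s t c : ℝ} (hc : 0 ≤ c)
    (h : a ^ 2 + b ^ 2 - 2 * a * b * Real.cos (s - t) = c ^ 2) :
    dist (z + a * exp (s * I)) (z + b * exp (t * I)) = c := by
  have h1 := dist_circle z a b s t
  rw [h] at h1
  exact (pow_left_inj₀ dist_nonneg hc two_ne_zero).1 h1

/-- On the circles of radius `1` and `r` about a point of the closure of `U`. -/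
lemma circle_rel {U : Set ℂ} (hU : IsOpen U) {z : ℂ} (hz : z ∈ closure U) {a b c s t : ℝ}
    (ha : 0 ≤ a) (hb : 0 ≤ b) (hc : 0 ≤ c) (hav : SetAv U a b c)
    (h : a ^ 2 + c ^ 2 - 2 * a * c * Real.cos (s - t) = b ^ 2)
    (hs : z + a * exp (s * I) ∈ U) : z + c * exp (t * I) ∉ U := by
  intro ht
  exact not_both hU hz hav (dist_circle_eq z hb h) (dist_centre z ha s) (dist_centre z hc t)
    ⟨hs, ht⟩

/-- A 2-colouring of the plane with the property of Baire does not avoid two sizes with ratio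
strictly between 1 and 2 (sizes `1` and `r`). -/
theorem partA (f : ℂ → Bool) (hf : BaireMeasurableSet {z | f z = true}) {r : ℝ} (h1 : 1 < r)
    (h2 : r < 2) (ha : AvTri f 1 1 1) (hr : AvTri f r r r) : False := by
  obtain ⟨U, V, hU, hV, hUV, hB, G, hG, hcol⟩ := exists_model f hf
  have h11r : AvTri f 1 1 r := avTri_of_avoid ha ha hr
  have h1rr : AvTri f 1 r r := avTri_of_avoid ha hr hr
  have hGU : ∀ z ∈ G, z ∈ U → f z = true := fun z hz => (hcol z hz).1
  have hGV : ∀ z ∈ G, z ∈ V → f z = false := fun z hz => (hcol z hz).2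
  have U1 := setAv_of_avTri hU hG hGU ha
  have U2 := setAv_of_avTri hU hG hGU h11r
  have U3 := setAv_of_avTri hU hG hGU h1rr
  have V1 := setAv_of_avTri hV hG hGV ha
  have V2 := setAv_of_avTri hV hG hGV h11r
  have V3 := setAv_of_avTri hV hG hGV h1rr
  -- the boundary is nonempty
  have hne : ((U ∪ V)ᶜ).Nonempty := by
    by_contra hcon
    rw [Set.not_nonempty_iff_eq_empty, Set.compl_empty_iff] at hcon
    have hd1 : dist (0 : ℂ) (0 + ((1 : ℝ) : ℂ) * exp ((0 : ℝ) * I)) = 1 := dist_centre 0 zero_le_one 0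
    have hd2 : dist (0 : ℂ) (0 + ((1 : ℝ) : ℂ) * exp ((Real.pi / 3 : ℝ) * I)) = 1 :=
      dist_centre 0 zero_le_one _
    have hd3 : dist (0 + ((1 : ℝ) : ℂ) * exp ((0 : ℝ) * I))
        (0 + ((1 : ℝ) : ℂ) * exp ((Real.pi / 3 : ℝ) * I)) = 1 := by
      apply dist_circle_eq 0 zero_le_one
      rw [zero_sub, Real.cos_neg, Real.cos_pi_div_three]
      norm_num
    rcases (isPreconnected_univ (α := ℂ)).subset_or_subset hU hV hUV
      (by rw [hcon]) with h | h
    · exact U1 _ _ _ hd1 hd3 hd2 ⟨h trivial, h trivial, h trivial⟩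
    · exact V1 _ _ _ hd1 hd3 hd2 ⟨h trivial, h trivial, h trivial⟩
  obtain ⟨z, hz, hd, hd'⟩ := exists_good hU hV hUV hB hne (r := r) (by linarith)
  obtain ⟨hzU, hzV⟩ := hB hz
  set g : ℝ := Real.arccos (r / 2) with hgdef
  set g' : ℝ := Real.arccos (1 / (2 * r)) with hgdef'
  have hcg : Real.cos g = r / 2 := Real.cos_arccos (by linarith) (by linarith)
  have hr0 : 0 < r := by linarith
  have hcg' : Real.cos g' = 1 / (2 * r) := by
    apply Real.cos_arccos
    · have : 0 < 1 / (2 * r) := by positivity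
      linarith
    · rw [div_le_one (by positivity)]; linarith
  have hg0 : 0 < g := by rw [hgdef, Real.arccos_pos]; linarith
  have hg'0 : 0 < g' := by
    rw [hgdef', Real.arccos_pos, div_lt_one (by positivity)]; linarith
  have hg2 : g < Real.pi / 2 := by rw [hgdef, Real.arccos_lt_pi_div_two]; linarith
  have hg'2 : g' < Real.pi / 2 := by rw [hgdef', Real.arccos_lt_pi_div_two]; positivity
  have hrc' : r * Real.cos g' = 1 / 2 := by rw [hcg']; field_simp
  have hopen : ∀ (W : Set ℂ) (ρ : ℝ), IsOpen W →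
      IsOpen {t : ℝ | z + ρ * exp (t * I) ∈ W} := by
    intro W ρ hW
    exact hW.preimage (by fun_prop)
  have hper : ∀ (W : Set ℂ) (t : ℝ), (t ∈ {t : ℝ | z + ((1 : ℝ) : ℂ) * exp (t * I) ∈ W}) ↔
      (t + 2 * Real.pi ∈ {t : ℝ | z + ((1 : ℝ) : ℂ) * exp (t * I) ∈ W}) := by
    intro W t
    simp only [Set.mem_setOf_eq]
    have : exp (((t + 2 * Real.pi : ℝ) : ℂ) * I) = exp (t * I) := by
      rw [Complex.ofReal_add, add_mul, Complex.exp_add]
      simp [Complex.exp_two_pi_mul_I]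
    rw [this]
  have key60 : ∀ (W : Set ℂ), IsOpen W → z ∈ closure W → SetAv W 1 1 1 → ∀ t : ℝ,
      z + ((1 : ℝ) : ℂ) * exp (t * I) ∈ W →
      z + ((1 : ℝ) : ℂ) * exp ((t + Real.pi / 3 : ℝ) * I) ∉ W := by
    intro W hW hzW hav t ht
    apply circle_rel hW hzW zero_le_one zero_le_one zero_le_one hav _ ht
    rw [show t - (t + Real.pi / 3) = -(Real.pi / 3) by ring, Real.cos_neg,
      Real.cos_pi_div_three]
    norm_num
  have keyg : ∀ (W : Set ℂ), IsOpen W → z ∈ closure W → SetAv W 1 1 r → SetAv W 1 r r →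
      ∀ t : ℝ, z + ((1 : ℝ) : ℂ) * exp (t * I) ∈ W →
      z + (r : ℂ) * exp ((t + g : ℝ) * I) ∉ W ∧ z + (r : ℂ) * exp ((t - g : ℝ) * I) ∉ W ∧
      z + (r : ℂ) * exp ((t + g' : ℝ) * I) ∉ W ∧ z + (r : ℂ) * exp ((t - g' : ℝ) * I) ∉ W := by
    intro W hW hzW hav1 hav2 t ht
    refine ⟨?_, ?_, ?_, ?_⟩
    · apply circle_rel hW hzW zero_le_one zero_le_one hr0.le hav1 _ ht
      rw [show t - (t + g) = -g by ring, Real.cos_neg, hcg]; ring
    · apply circle_rel hW hzW zero_le_one zero_le_one hr0.le hav1 _ ht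
      rw [show t - (t - g) = g by ring, hcg]; ring
    · apply circle_rel hW hzW zero_le_one hr0.le hr0.le hav2 _ ht
      rw [show t - (t + g') = -g' by ring, Real.cos_neg]; linear_combination (-2) * hrc'
    · apply circle_rel hW hzW zero_le_one hr0.le hr0.le hav2 _ ht
      rw [show t - (t - g') = g' by ring]; linear_combination (-2) * hrc'
  have hdj : ∀ ρ : ℝ, Disjoint {t : ℝ | z + ρ * exp (t * I) ∈ U}
      {t : ℝ | z + ρ * exp (t * I) ∈ V} := by
    intro ρ
    rw [Set.disjoint_left]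
    intro t h3 h4
    exact (Set.disjoint_left.1 hUV) h3 h4
  obtain ⟨n, hn, hna, hnb⟩ := odd_order (hopen U 1 hU) (hopen V 1 hV) (hopen U r hU)
    (hopen V r hV)
    (by
      convert hd using 1
      ext t
      simp)
    (by
      convert hd' using 1
      ext t
      simp)
    (hdj 1) (hdj r) (hper U) (hper V) (key60 U hU hzU U1) (key60 V hV hzV V1) g g'
    (keyg U hU hzU U2 U3) (keyg V hV hzV V2 V3)
  have hsum : exp (((g + g' : ℝ) : ℂ) * I) + (exp (((g + g' : ℝ) : ℂ) * I))⁻¹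
      + exp (((g - g' : ℝ) : ℂ) * I) + (exp (((g - g' : ℝ) : ℂ) * I))⁻¹ = 1 := by
    have h3 : ∀ x : ℝ, exp ((x : ℂ) * I) + (exp ((x : ℂ) * I))⁻¹ = ((2 * Real.cos x : ℝ) : ℂ) := by
      intro x
      rw [← Complex.exp_neg, ← neg_mul]
      rw [Complex.ofReal_mul, Complex.ofReal_cos]
      push_cast
      rw [Complex.two_cos]
    rw [add_assoc, h3, h3, ← Complex.ofReal_add, ← Complex.ofReal_one]
    congr 1
    rw [Real.cos_add, Real.cos_sub]
    have : Real.cos g * Real.cos g' = 1 / 4 := by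
      rw [hcg, hcg']; field_simp; norm_num
    linarith
  have hsin : ∀ x : ℝ, exp ((x : ℂ) * I) = 1 → Real.sin x = 0 := by
    intro x hx
    have := congrArg Complex.im hx
    rwa [Complex.exp_ofReal_mul_I_im, Complex.one_im] at this
  rcases roots_eq_one hn hna hnb hsum with h | h
  · have h3 := hsin _ h
    have h4 : 0 < Real.sin (g + g') := Real.sin_pos_of_pos_of_lt_pi (by linarith) (by linarith)
    linarith
  · have h3 := hsin _ h
    have h4 := (Real.sin_eq_zero_iff_of_lt_of_lt (by linarith) (by linarith)).1 h3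
    have h5 : g = g' := by linarith
    have h6 : r / 2 = 1 / (2 * r) := by rw [← hcg, ← hcg', h5]
    have h7 : r * r = 1 := by
      field_simp at h6
      nlinarith
    nlinarith

end Pool.Agent.Lib.P3852e9
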